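import Mathlib
import Pool.Agent.H89.CZ.TMean

set_option autoImplicit false

/-!
# GMean: the mean theorem of `H89/CZ/TMean`, abstract form

Proof: copy of `TMean_step4a` … `mean_pair` (file `H89/CZ/TMean.lean`) with
`wv (φa) (φb), dv …, sv …, zv …` replaced by `W φ, D φ, S φ, Z φ`, and
`ρ φ = √(W φ ^ 2 + normSq (D φ))`; `exists_emb` + `emb_eq` is hypothesis `h2`,
`exists_phase` + `phase_eq` is hypothesis `h3`, `sq_eq` is `h1`.  Result:
`P = ∫ (2 W² + 3 |D|²)/(8ρ)`, `Q = ∫ (2 W² - |D|²)/(8ρ)`.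
-/

open MeasureTheory Pool.Agent.H61.UProj Pool.Agent.H89.CZ

noncomputable section

namespace Pool.Agent.H35.T3

variable {N : ℕ}

private def GMean_r (W : Un N → ℝ) (D : Un N → ℂ) (φ : Un N) : ℝ :=
  √(W φ ^ 2 + Complex.normSq (D φ))

private def GMean_C (W : Un N → ℝ) (D : Un N → ℂ) (cs sn : ℝ) (θ : ℂ) (φ : Un N) : ℝ :=
  cs * W φ + sn * (θ * D φ).re

private def GMean_F (W S : Un N → ℝ) (D : Un N → ℂ) (cs sn : ℝ) (θ : ℂ) (φ : Un N) : ℝ :=
  |GMean_C W D cs sn θ φ + S φ| / 2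

private def GMean_G (W S : Un N → ℝ) (D Z : Un N → ℂ) (cs sn : ℝ) (θ : ℂ) (g : Un 2)
    (φ : Un N) : ℝ :=
  |GMean_C W D cs sn θ φ + S φ *
      (‖(g : Matrix (Fin 2) (Fin 2) ℂ) 0 0‖ ^ 2 - ‖(g : Matrix (Fin 2) (Fin 2) ℂ) 0 1‖ ^ 2) +
      2 * (Complex.I * starRingEnd ℂ (Z φ) *
        (g : Matrix (Fin 2) (Fin 2) ℂ) 0 0 *
          starRingEnd ℂ ((g : Matrix (Fin 2) (Fin 2) ℂ) 0 1)).re|

/-- Hypothesis `h2`. -/
private def GMean_H2 (W S : Un N → ℝ) (D Z : Un N → ℂ) : Prop :=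
  ∀ g : Un 2, ∃ h : Un N, ∀ φ, W (h * φ) = W φ ∧ D (h * φ) = D φ ∧
      S (h * φ) = S φ * (‖(g : Matrix (Fin 2) (Fin 2) ℂ) 0 0‖ ^ 2 -
        ‖(g : Matrix (Fin 2) (Fin 2) ℂ) 0 1‖ ^ 2) +
        2 * (Complex.I * starRingEnd ℂ (Z φ) * (g : Matrix (Fin 2) (Fin 2) ℂ) 0 0 *
          starRingEnd ℂ ((g : Matrix (Fin 2) (Fin 2) ℂ) 0 1)).re

/-- Hypothesis `h3`. -/
private def GMean_H3 (W S : Un N → ℝ) (D : Un N → ℂ) : Prop :=
  ∀ ζ : ℂ, ‖ζ‖ = 1 → ∃ h : Un N, ∀ φ, W (h * φ) = W φ ∧ D (h * φ) = ζ ^ 2 * D φ ∧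
      S (h * φ) = S φ

private theorem GMean_step4a {W S : Un N → ℝ} {D Z : Un N → ℂ} (h2 : GMean_H2 W S D Z)
    (cs sn : ℝ) (θ : ℂ) (g : Un 2) :
    ∫ φ, GMean_F W S D cs sn θ φ ∂(haarU N) =
      (∫ φ, GMean_G W S D Z cs sn θ g φ ∂(haarU N)) / 2 := by
  obtain ⟨h, hh⟩ := h2 g
  rw [← integral_mulLeft _ h, ← integral_div]
  refine integral_congr_ae (Filter.Eventually.of_forall fun φ => ?_)
  obtain ⟨e1, e2, e3⟩ := hh φ
  simp only [GMean_F, GMean_G, GMean_C]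
  rw [e1, e2, e3, ← add_assoc]

private theorem GMean_step3 {W S : Un N → ℝ} {D : Un N → ℂ} (h3 : GMean_H3 W S D)
    (cs sn : ℝ) {θ : ℂ} (hθ : ‖θ‖ = 1) :
    ∫ φ, GMean_F W S D cs sn θ φ ∂(haarU N) =
      ∫ φ, GMean_F W S D cs sn 1 φ ∂(haarU N) := by
  obtain ⟨ζ, hζ⟩ := IsAlgClosed.exists_pow_nat_eq θ (n := 2) (by norm_num)
  have hn : ‖ζ‖ = 1 := by
    have h1 : ‖ζ‖ ^ 2 = 1 := by rw [← norm_pow, hζ, hθ]
    have h2 : 0 ≤ ‖ζ‖ := norm_nonneg ζ
    nlinarith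
  obtain ⟨h, hh⟩ := h3 ζ hn
  rw [← integral_mulLeft (fun φ => GMean_F W S D cs sn 1 φ) h]
  refine integral_congr_ae (Filter.Eventually.of_forall fun φ => ?_)
  obtain ⟨e1, e2, e3⟩ := hh φ
  simp only [GMean_F, GMean_C]
  rw [e1, e2, e3, hζ, one_mul]

private theorem GMean_step2 {W S : Un N → ℝ} {D Z : Un N → ℂ} (h2 : GMean_H2 W S D Z)
    {cs sn : ℝ} (h : cs ^ 2 + sn ^ 2 = 1) :
    ∫ φ, |(cs * W φ + sn * (D φ).re + cs * S φ + sn * (Z φ).re) / 2| ∂(haarU N) =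
      ∫ φ, GMean_F W S D cs sn 1 φ ∂(haarU N) := by
  obtain ⟨η, hc, hs⟩ := TMean_exists_angle h
  have hc2 : Real.cos (η / 2) ^ 2 - Real.sin (η / 2) ^ 2 = cs := by
    rw [← hc, ← Real.cos_two_mul' (η / 2)]
    congr 1
    ring
  have hs2 : 2 * (Real.sin (η / 2) * Real.cos (η / 2)) = sn := by
    rw [← hs, ← mul_assoc, ← Real.sin_two_mul (η / 2)]
    congr 1
    ring
  have h1 : Complex.normSq ((Real.cos (η / 2) : ℝ) : ℂ) +
      Complex.normSq (((Real.sin (η / 2) : ℝ) : ℂ) * Complex.I) = 1 := by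
    rw [Complex.normSq_mul, Complex.normSq_ofReal, Complex.normSq_ofReal, Complex.normSq_I]
    nlinarith [Real.sin_sq_add_cos_sq (η / 2)]
  obtain ⟨g, hg0, hg1⟩ := exists_first_row _ _ h1
  rw [GMean_step4a h2 cs sn 1 g, ← integral_div]
  refine integral_congr_ae (Filter.Eventually.of_forall fun φ => ?_)
  simp only []
  rw [abs_div, abs_of_pos (by norm_num : (0 : ℝ) < 2)]
  simp only [GMean_G, GMean_C]
  rw [hg0, hg1]
  congr 2
  have hn0 : ‖((Real.cos (η / 2) : ℝ) : ℂ)‖ ^ 2 = Real.cos (η / 2) ^ 2 := by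
    rw [← Complex.normSq_eq_norm_sq, Complex.normSq_ofReal]
    ring
  have hn1 : ‖((Real.sin (η / 2) : ℝ) : ℂ) * Complex.I‖ ^ 2 = Real.sin (η / 2) ^ 2 := by
    rw [← Complex.normSq_eq_norm_sq, Complex.normSq_mul, Complex.normSq_ofReal,
      Complex.normSq_I]
    ring
  rw [hn0, hn1, hc2]
  set z := Z φ
  have hz : (Complex.I * starRingEnd ℂ z * ((Real.cos (η / 2) : ℝ) : ℂ) *
      starRingEnd ℂ (((Real.sin (η / 2) : ℝ) : ℂ) * Complex.I)).re =
      Real.sin (η / 2) * Real.cos (η / 2) * z.re := TMean_re z _ _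
  rw [hz, one_mul, ← hs2]
  ring

private theorem GMean_cont_r {W : Un N → ℝ} {D : Un N → ℂ} (hW : Continuous W)
    (hD : Continuous D) : Continuous (GMean_r W D) := by
  unfold GMean_r
  exact ((hW.pow 2).add (Complex.continuous_normSq.comp hD)).sqrt

private theorem GMean_cont_C {W : Un N → ℝ} {D : Un N → ℂ} (hW : Continuous W)
    (hD : Continuous D) (cs sn : ℝ) (θ : ℂ) : Continuous (GMean_C W D cs sn θ) := by
  unfold GMean_C
  exact (continuous_const.mul hW).add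
    (continuous_const.mul (Complex.continuous_re.comp (continuous_const.mul hD)))

private theorem GMean_cont_G {W S : Un N → ℝ} {D Z : Un N → ℂ} (hW : Continuous W)
    (hS : Continuous S) (hD : Continuous D) (hZ : Continuous Z) (cs sn : ℝ) (θ : ℂ) :
    Continuous (fun q : Un 2 × Un N => GMean_G W S D Z cs sn θ q.1 q.2) := by
  have h1 : Continuous (fun q : Un 2 × Un N => GMean_C W D cs sn θ q.2) :=
    (GMean_cont_C hW hD cs sn θ).comp continuous_snd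
  have h2 : Continuous (fun q : Un 2 × Un N => S q.2) := hS.comp continuous_snd
  have h3 : Continuous (fun q : Un 2 × Un N => Z q.2) := hZ.comp continuous_snd
  have h4 : ∀ i j, Continuous (fun q : Un 2 × Un N =>
      (q.1 : Matrix (Fin 2) (Fin 2) ℂ) i j) := fun i j =>
    (continuous_subtype_val.comp continuous_fst).matrix_elem i j
  have h5 := h4 0 0
  have h6 := h4 0 1
  unfold GMean_G
  have h7 : Continuous (fun q : Un 2 × Un N =>
      Complex.I * starRingEnd ℂ (Z q.2) *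
        (q.1 : Matrix (Fin 2) (Fin 2) ℂ) 0 0 *
          starRingEnd ℂ ((q.1 : Matrix (Fin 2) (Fin 2) ℂ) 0 1)) :=
    ((continuous_const.mul (Complex.continuous_conj.comp h3)).mul h5).mul
      (Complex.continuous_conj.comp h6)
  have h8 := Complex.continuous_re.comp h7
  exact ((h1.add (h2.mul ((h5.norm.pow 2).sub (h6.norm.pow 2)))).add
    (continuous_const.mul h8)).abs

private theorem GMean_r_nonneg (W : Un N → ℝ) (D : Un N → ℂ) (φ : Un N) :
    0 ≤ GMean_r W D φ := Real.sqrt_nonneg _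

private theorem GMean_r_sq (W : Un N → ℝ) (D : Un N → ℂ) (φ : Un N) :
    GMean_r W D φ ^ 2 = W φ ^ 2 + Complex.normSq (D φ) :=
  Real.sq_sqrt (add_nonneg (sq_nonneg _) (Complex.normSq_nonneg _))

private theorem GMean_abs_le (W : Un N → ℝ) (D : Un N → ℂ) (φ : Un N) {cs sn : ℝ}
    (h : cs ^ 2 + sn ^ 2 = 1) {θ : ℂ} (hθ : ‖θ‖ = 1) :
    |GMean_C W D cs sn θ φ| ≤ GMean_r W D φ := by
  have hr : (θ * D φ).re ^ 2 ≤ Complex.normSq (D φ) := by
    have h1 : Complex.normSq (θ * D φ) = Complex.normSq (D φ) := by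
      rw [map_mul, Complex.normSq_eq_norm_sq θ, hθ]
      ring
    rw [← h1, Complex.normSq_apply]
    nlinarith [mul_self_nonneg (θ * D φ).im]
  refine Real.abs_le_sqrt ?_
  have h2 : (cs * W φ + sn * (θ * D φ).re) ^ 2 ≤
      (cs ^ 2 + sn ^ 2) * (W φ ^ 2 + (θ * D φ).re ^ 2) := by
    nlinarith [sq_nonneg (cs * (θ * D φ).re - sn * W φ)]
  rw [h, one_mul] at h2
  simp only [GMean_C]
  linarith

private theorem GMean_sq_div_le (W : Un N → ℝ) (D : Un N → ℂ) (φ : Un N) :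
    W φ ^ 2 / GMean_r W D φ ≤ GMean_r W D φ ∧
    Complex.normSq (D φ) / GMean_r W D φ ≤ GMean_r W D φ := by
  have h0 := GMean_r_nonneg W D φ
  have h1 : GMean_r W D φ * GMean_r W D φ = W φ ^ 2 + Complex.normSq (D φ) := by
    rw [← GMean_r_sq, sq]
  have h2 := Complex.normSq_nonneg (D φ)
  have h3 := sq_nonneg (W φ)
  exact ⟨div_le_of_le_mul₀ h0 h0 (by linarith), div_le_of_le_mul₀ h0 h0 (by linarith)⟩

private theorem GMean_step4 {W S : Un N → ℝ} {D Z : Un N → ℂ} (hW : Continuous W)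
    (hS : Continuous S) (hD : Continuous D) (hZ : Continuous Z)
    (h1' : ∀ φ, W φ ^ 2 + Complex.normSq (D φ) = S φ ^ 2 + Complex.normSq (Z φ))
    (h2' : GMean_H2 W S D Z) {cs sn : ℝ} (h : cs ^ 2 + sn ^ 2 = 1) {θ : ℂ} (hθ : ‖θ‖ = 1) :
    ∫ φ, GMean_F W S D cs sn θ φ ∂(haarU N) =
      ∫ φ, (GMean_C W D cs sn θ φ ^ 2 + GMean_r W D φ ^ 2) / (4 * GMean_r W D φ)
        ∂(haarU N) := by
  have : SecondCountableTopology (Un 2) := TMean_sct 2
  have : SecondCountableTopology (Un N) := TMean_sct N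
  have hI : Integrable (Function.uncurry (fun (g : Un 2) (φ : Un N) =>
      GMean_G W S D Z cs sn θ g φ)) ((haarU 2).prod (haarU N)) := by
    have hc : Continuous (Function.uncurry (fun (g : Un 2) (φ : Un N) =>
      GMean_G W S D Z cs sn θ g φ)) := GMean_cont_G hW hS hD hZ cs sn θ
    exact hc.integrable_of_hasCompactSupport (HasCompactSupport.of_compactSpace _)
  have hsw := integral_integral_swap hI
  have h1 : ∫ g : Un 2, (∫ φ, GMean_G W S D Z cs sn θ g φ ∂(haarU N)) ∂(haarU 2) =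
      2 * ∫ φ, GMean_F W S D cs sn θ φ ∂(haarU N) := by
    have h2 : ∀ g : Un 2, (∫ φ, GMean_G W S D Z cs sn θ g φ ∂(haarU N)) =
        2 * ∫ φ, GMean_F W S D cs sn θ φ ∂(haarU N) := by
      intro g
      rw [GMean_step4a h2' cs sn θ g]
      ring
    simp only [h2]
    simp
  rw [h1] at hsw
  have h3 : ∀ φ : Un N, (∫ g : Un 2, GMean_G W S D Z cs sn θ g φ ∂(haarU 2)) =
      2 * ((GMean_C W D cs sn θ φ ^ 2 + GMean_r W D φ ^ 2) / (4 * GMean_r W D φ)) := by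
    intro φ
    set p := S φ with hp
    set Y := Complex.I * starRingEnd ℂ (Z φ) with hY
    set C := GMean_C W D cs sn θ φ with hC
    have hYn : Complex.normSq Y = Complex.normSq (Z φ) := by
      rw [hY, Complex.normSq_mul, Complex.normSq_I, Complex.normSq_conj, one_mul]
    have hr : GMean_r W D φ = √(p ^ 2 + Complex.normSq Y) := by
      rw [hYn, hp, ← h1', GMean_r]
    have hCr : |C| ≤ √(p ^ 2 + Complex.normSq Y) := by
      rw [← hr]
      exact GMean_abs_le W D φ h hθ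
    have h0 : 0 ≤ p ^ 2 + Complex.normSq Y := add_nonneg (sq_nonneg _) (Complex.normSq_nonneg _)
    rcases h0.lt_or_eq with hpos | hzero
    · have ha := archimedes C p Y hpos hCr
      have hs : √(p ^ 2 + Complex.normSq Y) ^ 2 = p ^ 2 + Complex.normSq Y := Real.sq_sqrt h0
      have hsp : 0 < √(p ^ 2 + Complex.normSq Y) := Real.sqrt_pos.2 hpos
      rw [hr, hs]
      calc _ = ∫ g : Un 2, |C + p * (‖(g : Matrix (Fin 2) (Fin 2) ℂ) 0 0‖ ^ 2 -
        ‖(g : Matrix (Fin 2) (Fin 2) ℂ) 0 1‖ ^ 2) +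
        2 * (Y * (g : Matrix (Fin 2) (Fin 2) ℂ) 0 0 *
          starRingEnd ℂ ((g : Matrix (Fin 2) (Fin 2) ℂ) 0 1)).re| ∂(haarU 2) := rfl
        _ = _ := by
          rw [ha]
          field_simp
          ring
    · have hp0 : p = 0 := by
        have := Complex.normSq_nonneg Y
        nlinarith [sq_nonneg p]
      have hY0 : Y = 0 := by
        have := Complex.normSq_nonneg Y
        have h5 : Complex.normSq Y = 0 := by nlinarith [sq_nonneg p]
        exact Complex.normSq_eq_zero.1 h5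
      have hr0 : GMean_r W D φ = 0 := by rw [hr, ← hzero, Real.sqrt_zero]
      have hC0 : C = 0 := by
        rw [← hzero, Real.sqrt_zero] at hCr
        exact abs_eq_zero.1 (le_antisymm hCr (abs_nonneg _))
      have hG : ∀ g : Un 2, GMean_G W S D Z cs sn θ g φ = 0 := by
        intro g
        unfold GMean_G
        rw [← hC, ← hp, ← hY, hC0, hp0, hY0]
        simp
      simp only [hG]
      rw [hr0, hC0]
      simp
  simp only [h3] at hsw
  rw [integral_const_mul] at hsw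
  linarith

private theorem GMean_int {W : Un N → ℝ} {D : Un N → ℂ} (hW : Continuous W)
    (hD : Continuous D) {f : Un N → ℝ} (hf : Measurable f)
    (hb : ∀ φ, |f φ| ≤ GMean_r W D φ) : Integrable f (haarU N) := by
  refine Integrable.mono' (integrable_of_continuous (GMean_cont_r hW hD))
    hf.aestronglyMeasurable (Filter.Eventually.of_forall fun φ => ?_)
  rw [Real.norm_eq_abs]
  exact hb φ

private theorem GMean_sq_le (W : Un N → ℝ) (D : Un N → ℂ) (φ : Un N) {cs sn : ℝ}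
    (h : cs ^ 2 + sn ^ 2 = 1) {θ : ℂ} (hθ : ‖θ‖ = 1) :
    |(GMean_C W D cs sn θ φ ^ 2 + GMean_r W D φ ^ 2) / (4 * GMean_r W D φ)| ≤
      GMean_r W D φ := by
  have h1 : |GMean_C W D cs sn θ φ| ≤ GMean_r W D φ := GMean_abs_le W D φ h hθ
  have h0 := GMean_r_nonneg W D φ
  rcases h0.lt_or_eq with hpos | hz
  · rw [abs_of_nonneg (by positivity), div_le_iff₀ (by positivity)]
    have h2 : GMean_C W D cs sn θ φ ^ 2 ≤ GMean_r W D φ ^ 2 :=
      sq_le_sq' (by linarith [(abs_le.1 h1).1]) (abs_le.1 h1).2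
    nlinarith
  · rw [← hz]
    simp

theorem mean_gen {N : ℕ} {W S : Un N → ℝ} {D Z : Un N → ℂ} (hW : Continuous W)
    (hS : Continuous S) (hD : Continuous D) (hZ : Continuous Z)
    (h1 : ∀ φ, W φ ^ 2 + Complex.normSq (D φ) = S φ ^ 2 + Complex.normSq (Z φ))
    (h2 : ∀ g : Un 2, ∃ h : Un N, ∀ φ, W (h * φ) = W φ ∧ D (h * φ) = D φ ∧
      S (h * φ) = S φ * (‖(g : Matrix (Fin 2) (Fin 2) ℂ) 0 0‖ ^ 2 -
        ‖(g : Matrix (Fin 2) (Fin 2) ℂ) 0 1‖ ^ 2) +
        2 * (Complex.I * starRingEnd ℂ (Z φ) * (g : Matrix (Fin 2) (Fin 2) ℂ) 0 0 *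
          starRingEnd ℂ ((g : Matrix (Fin 2) (Fin 2) ℂ) 0 1)).re)
    (h3 : ∀ ζ : ℂ, ‖ζ‖ = 1 → ∃ h : Un N, ∀ φ, W (h * φ) = W φ ∧ D (h * φ) = ζ ^ 2 * D φ ∧
      S (h * φ) = S φ) :
    ∃ P Q : ℝ, ∀ cs sn : ℝ, cs ^ 2 + sn ^ 2 = 1 →
      ∫ φ, |(cs * W φ + sn * (D φ).re + cs * S φ + sn * (Z φ).re) / 2| ∂(haarU N) =
        P + cs ^ 2 * Q := by
  have hA : Integrable (fun φ : Un N => W φ ^ 2 / GMean_r W D φ) (haarU N) := by
    refine GMean_int hW hD ((hW.measurable.pow_const 2).div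
      (GMean_cont_r hW hD).measurable) fun φ => ?_
    rw [abs_of_nonneg (div_nonneg (sq_nonneg _) (GMean_r_nonneg _ _ _))]
    exact (GMean_sq_div_le _ _ _).1
  have hB : Integrable (fun φ : Un N => Complex.normSq (D φ) / GMean_r W D φ) (haarU N) := by
    refine GMean_int hW hD ((Complex.continuous_normSq.comp hD).measurable.div
      (GMean_cont_r hW hD).measurable) fun φ => ?_
    rw [abs_of_nonneg (div_nonneg (Complex.normSq_nonneg _) (GMean_r_nonneg _ _ _))]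
    exact (GMean_sq_div_le _ _ _).2
  refine ⟨(2 * (∫ φ, W φ ^ 2 / GMean_r W D φ ∂(haarU N)) +
      3 * ∫ φ, Complex.normSq (D φ) / GMean_r W D φ ∂(haarU N)) / 8,
    (2 * (∫ φ, W φ ^ 2 / GMean_r W D φ ∂(haarU N)) -
      ∫ φ, Complex.normSq (D φ) / GMean_r W D φ ∂(haarU N)) / 8, fun cs sn h => ?_⟩
  rw [GMean_step2 h2 h]
  set I := ∫ φ, GMean_F W S D cs sn 1 φ ∂(haarU N) with hI
  have key : ∀ θ : ℂ, ‖θ‖ = 1 → I = ∫ φ, (GMean_C W D cs sn θ φ ^ 2 +
      GMean_r W D φ ^ 2) / (4 * GMean_r W D φ) ∂(haarU N) := by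
    intro θ hθ
    rw [hI, ← GMean_step3 h3 cs sn hθ, GMean_step4 hW hS hD hZ h1 h2 h hθ]
  have hint : ∀ θ : ℂ, ‖θ‖ = 1 → Integrable (fun φ : Un N =>
      (GMean_C W D cs sn θ φ ^ 2 + GMean_r W D φ ^ 2) / (4 * GMean_r W D φ)) (haarU N) := by
    intro θ hθ
    refine GMean_int hW hD ?_ fun φ => GMean_sq_le W D φ h hθ
    exact (((GMean_cont_C hW hD cs sn θ).measurable.pow_const 2).add
      ((GMean_cont_r hW hD).measurable.pow_const 2)).div
        ((GMean_cont_r hW hD).measurable.const_mul 4)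
  have n1 : ‖(1 : ℂ)‖ = 1 := by simp
  have n2 : ‖(-1 : ℂ)‖ = 1 := by simp
  have n3 : ‖Complex.I‖ = 1 := by simp
  have n4 : ‖-Complex.I‖ = 1 := by simp
  have hsum : 4 * I = ∫ φ, (((GMean_C W D cs sn 1 φ ^ 2 +
      GMean_r W D φ ^ 2) / (4 * GMean_r W D φ) +
      (GMean_C W D cs sn (-1) φ ^ 2 + GMean_r W D φ ^ 2) / (4 * GMean_r W D φ)) +
      ((GMean_C W D cs sn Complex.I φ ^ 2 + GMean_r W D φ ^ 2) / (4 * GMean_r W D φ) +
      (GMean_C W D cs sn (-Complex.I) φ ^ 2 + GMean_r W D φ ^ 2) /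
        (4 * GMean_r W D φ))) ∂(haarU N) := by
    rw [TMean_add4 (hint _ n1) (hint _ n2) (hint _ n3) (hint _ n4),
      ← key _ n1, ← key _ n2, ← key _ n3, ← key _ n4]
    ring
  have e3 : 4 * I = cs ^ 2 * (∫ φ, W φ ^ 2 / GMean_r W D φ ∂(haarU N)) +
      sn ^ 2 / 2 * (∫ φ, Complex.normSq (D φ) / GMean_r W D φ ∂(haarU N)) +
      ((∫ φ, W φ ^ 2 / GMean_r W D φ ∂(haarU N)) +
        ∫ φ, Complex.normSq (D φ) / GMean_r W D φ ∂(haarU N)) := by
    rw [hsum, ← TMean_lin hA hB]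
    refine integral_congr_ae (Filter.Eventually.of_forall fun φ => ?_)
    simp only []
    have hr2 : GMean_r W D φ ^ 2 = W φ ^ 2 + Complex.normSq (D φ) := GMean_r_sq W D φ
    simp only [GMean_C, hr2, Complex.normSq_apply]
    rcases (GMean_r_nonneg W D φ).lt_or_eq with hpos | hz
    · have : GMean_r W D φ ≠ 0 := hpos.ne'
      simp only [Complex.mul_re, Complex.neg_re, Complex.neg_im, Complex.one_re,
        Complex.one_im, Complex.I_re, Complex.I_im]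
      field_simp
      ring
    · rw [← hz]
      simp
  have hs : sn ^ 2 = 1 - cs ^ 2 := by linarith
  rw [hs] at e3
  linarith

end Pool.Agent.H35.T3
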