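import Mathlib
import Pool.Agent.H89.CZ.KSer

set_option autoImplicit false

/-!
# CndA: positive semidefinite kernels and the finite form of the kernel inequality
-/

open Pool.Agent.H89.CZ

noncomputable section

namespace Pool.Agent.H35.T3

section psd

variable {E : Type*} [NormedAddCommGroup E] [InnerProductSpace ℝ E] [FiniteDimensional ℝ E]
variable {ι : Type*} [Fintype ι]

theorem CndA_swap {κ : Type*} (S : Finset κ) (g : κ → ι → ι → ℝ) :
    ∑ e ∈ S, ∑ i, ∑ k, g e i k = ∑ i, ∑ k, ∑ e ∈ S, g e i k := by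
  rw [Finset.sum_comm]
  refine Finset.sum_congr rfl fun i _ => ?_
  rw [Finset.sum_comm]

theorem psd_pow (v : ι → E) (l : ℕ) : ∀ c : ι → ℝ,
    0 ≤ ∑ i, ∑ k, c i * c k * (inner ℝ (v i) (v k) : ℝ) ^ l := by
  induction l with
  | zero =>
    intro c
    have : ∑ i, ∑ k, c i * c k * (inner ℝ (v i) (v k) : ℝ) ^ 0 = (∑ i, c i) ^ 2 := by
      rw [sq, Finset.sum_mul_sum]
      simp
    rw [this]
    exact sq_nonneg _
  | succ l ih =>
    intro c
    set b := stdOrthonormalBasis ℝ E with hb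
    have h1 : ∀ i k, (inner ℝ (v i) (v k) : ℝ) =
        ∑ e, (inner ℝ (b e) (v i) : ℝ) * inner ℝ (b e) (v k) := by
      intro i k
      rw [← b.sum_inner_mul_inner (v i) (v k)]
      refine Finset.sum_congr rfl fun e _ => ?_
      rw [real_inner_comm]
    have h2 : ∑ i, ∑ k, c i * c k * (inner ℝ (v i) (v k) : ℝ) ^ (l + 1) =
        ∑ e, ∑ i, ∑ k, (c i * inner ℝ (b e) (v i)) * (c k * inner ℝ (b e) (v k)) *
          (inner ℝ (v i) (v k) : ℝ) ^ l := by
      rw [CndA_swap]
      refine Finset.sum_congr rfl fun i _ => Finset.sum_congr rfl fun k _ => ?_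
      rw [pow_succ, ← mul_assoc]
      conv_lhs => rw [h1 i k]
      rw [Finset.mul_sum]
      rw [← h1 i k]
      refine Finset.sum_congr rfl fun e _ => ?_
      ring
    rw [h2]
    exact Finset.sum_nonneg fun e _ => ih _

theorem psd_der (u d : ι → E) (m : ℕ) : ∀ α β : ι → ℝ,
    0 ≤ ∑ i, ∑ k, (α i * α k * (inner ℝ (u i) (u k) : ℝ) ^ (m + 2) +
      (m + 2) * (α i * β k * inner ℝ (u i) (d k) + β i * α k * inner ℝ (d i) (u k)) *
        (inner ℝ (u i) (u k) : ℝ) ^ (m + 1) +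
      β i * β k * ((m + 2) * inner ℝ (d i) (d k) * (inner ℝ (u i) (u k) : ℝ) ^ (m + 1) +
        (m + 2) * (m + 1) * (inner ℝ (d i) (u k) * inner ℝ (u i) (d k)) *
          (inner ℝ (u i) (u k) : ℝ) ^ m)) := by
  set b := stdOrthonormalBasis ℝ E with hb
  have h1 : ∀ x y : E, (inner ℝ x y : ℝ) =
      ∑ e, (inner ℝ (b e) x : ℝ) * inner ℝ (b e) y := by
    intro x y
    rw [← b.sum_inner_mul_inner x y]
    refine Finset.sum_congr rfl fun e _ => ?_
    rw [real_inner_comm]
  -- first order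
  have base : ∀ α β : ι → ℝ, 0 ≤ ∑ i, ∑ k, (α i * α k * (inner ℝ (u i) (u k) : ℝ) +
      (α i * β k * inner ℝ (u i) (d k) + β i * α k * inner ℝ (d i) (u k)) +
      β i * β k * inner ℝ (d i) (d k)) := by
    intro α β
    have h2 := psd_pow (fun i => α i • u i + β i • d i) 1 (fun _ => 1)
    refine h2.trans (le_of_eq ?_)
    refine Finset.sum_congr rfl fun i _ => Finset.sum_congr rfl fun k _ => ?_
    simp only [inner_add_left, inner_add_right, real_inner_smul_left, real_inner_smul_right]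
    ring
  -- the step
  have step : ∀ (α β : ι → ℝ) (i k : ι) (A B C : ℝ),
      ∑ e, ((α i * inner ℝ (b e) (u i) + β i * inner ℝ (b e) (d i)) *
          (α k * inner ℝ (b e) (u k) + β k * inner ℝ (b e) (d k)) * A +
        (((α i * inner ℝ (b e) (u i) + β i * inner ℝ (b e) (d i)) *
          (β k * inner ℝ (b e) (u k)) * inner ℝ (u i) (d k)) +
        (β i * inner ℝ (b e) (u i)) * (α k * inner ℝ (b e) (u k) + β k * inner ℝ (b e) (d k)) *
          inner ℝ (d i) (u k)) * B +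
        (β i * inner ℝ (b e) (u i)) * (β k * inner ℝ (b e) (u k)) * C) =
      (α i * α k * inner ℝ (u i) (u k) + α i * β k * inner ℝ (u i) (d k) +
        β i * α k * inner ℝ (d i) (u k) + β i * β k * inner ℝ (d i) (d k)) * A +
      (α i * β k * inner ℝ (u i) (u k) * inner ℝ (u i) (d k) +
        β i * β k * inner ℝ (d i) (u k) * inner ℝ (u i) (d k) +
        β i * α k * inner ℝ (u i) (u k) * inner ℝ (d i) (u k) +
        β i * β k * inner ℝ (u i) (d k) * inner ℝ (d i) (u k)) * B +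
      β i * β k * inner ℝ (u i) (u k) * C := by
    intro α β i k A B C
    have e1 := h1 (u i) (u k)
    have e2 := h1 (u i) (d k)
    have e3 := h1 (d i) (u k)
    have e4 := h1 (d i) (d k)
    set X := (inner ℝ (u i) (u k) : ℝ) with hX
    set Y := (inner ℝ (u i) (d k) : ℝ) with hY
    set Z := (inner ℝ (d i) (u k) : ℝ) with hZ
    set W := (inner ℝ (d i) (d k) : ℝ) with hW
    have e5 : ∑ e, ((α i * inner ℝ (b e) (u i) + β i * inner ℝ (b e) (d i)) *
          (α k * inner ℝ (b e) (u k) + β k * inner ℝ (b e) (d k)) * A +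
        (((α i * inner ℝ (b e) (u i) + β i * inner ℝ (b e) (d i)) *
          (β k * inner ℝ (b e) (u k)) * Y) +
        (β i * inner ℝ (b e) (u i)) * (α k * inner ℝ (b e) (u k) + β k * inner ℝ (b e) (d k)) *
          Z) * B +
        (β i * inner ℝ (b e) (u i)) * (β k * inner ℝ (b e) (u k)) * C) =
        (α i * α k * A + α i * β k * Y * B + β i * α k * Z * B + β i * β k * C) *
          (∑ e, (inner ℝ (b e) (u i) : ℝ) * inner ℝ (b e) (u k)) +
        (α i * β k * A + β i * β k * Z * B) *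
          (∑ e, (inner ℝ (b e) (u i) : ℝ) * inner ℝ (b e) (d k)) +
        (β i * α k * A + β i * β k * Y * B) *
          (∑ e, (inner ℝ (b e) (d i) : ℝ) * inner ℝ (b e) (u k)) +
        β i * β k * A * (∑ e, (inner ℝ (b e) (d i) : ℝ) * inner ℝ (b e) (d k)) := by
      rw [Finset.mul_sum, Finset.mul_sum, Finset.mul_sum, Finset.mul_sum,
        ← Finset.sum_add_distrib, ← Finset.sum_add_distrib, ← Finset.sum_add_distrib]
      refine Finset.sum_congr rfl fun e _ => ?_
      ring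
    rw [e5, ← e1, ← e2, ← e3, ← e4]
    ring
  induction m with
  | zero =>
    intro α β
    have h3 : ∑ i, ∑ k, (α i * α k * (inner ℝ (u i) (u k) : ℝ) ^ (0 + 2) +
        ((0 : ℕ) + 2) * (α i * β k * inner ℝ (u i) (d k) + β i * α k * inner ℝ (d i) (u k)) *
          (inner ℝ (u i) (u k) : ℝ) ^ (0 + 1) +
        β i * β k * (((0 : ℕ) + 2) * inner ℝ (d i) (d k) * (inner ℝ (u i) (u k) : ℝ) ^ (0 + 1) +
          ((0 : ℕ) + 2) * ((0 : ℕ) + 1) * (inner ℝ (d i) (u k) * inner ℝ (u i) (d k)) *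
            (inner ℝ (u i) (u k) : ℝ) ^ 0)) =
        ∑ e, ∑ i, ∑ k, ((α i * inner ℝ (b e) (u i) + β i * inner ℝ (b e) (d i)) *
          (α k * inner ℝ (b e) (u k) + β k * inner ℝ (b e) (d k)) * inner ℝ (u i) (u k) +
        (((α i * inner ℝ (b e) (u i) + β i * inner ℝ (b e) (d i)) *
          (β k * inner ℝ (b e) (u k)) * inner ℝ (u i) (d k)) +
        (β i * inner ℝ (b e) (u i)) * (α k * inner ℝ (b e) (u k) + β k * inner ℝ (b e) (d k)) *
          inner ℝ (d i) (u k)) +
        (β i * inner ℝ (b e) (u i)) * (β k * inner ℝ (b e) (u k)) * inner ℝ (d i) (d k)) := by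
      rw [CndA_swap]
      refine Finset.sum_congr rfl fun i _ => Finset.sum_congr rfl fun k _ => ?_
      have h4 := step α β i k (inner ℝ (u i) (u k)) 1 (inner ℝ (d i) (d k))
      simp only [mul_one] at h4
      rw [h4]
      push_cast
      ring
    rw [h3]
    exact Finset.sum_nonneg fun e _ => base _ _
  | succ m ih =>
    intro α β
    have h3 : ∑ i, ∑ k, (α i * α k * (inner ℝ (u i) (u k) : ℝ) ^ (m + 1 + 2) +
        ((m + 1 : ℕ) + 2) * (α i * β k * inner ℝ (u i) (d k) + β i * α k * inner ℝ (d i) (u k)) *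
          (inner ℝ (u i) (u k) : ℝ) ^ (m + 1 + 1) +
        β i * β k * (((m + 1 : ℕ) + 2) * inner ℝ (d i) (d k) *
            (inner ℝ (u i) (u k) : ℝ) ^ (m + 1 + 1) +
          ((m + 1 : ℕ) + 2) * ((m + 1 : ℕ) + 1) * (inner ℝ (d i) (u k) * inner ℝ (u i) (d k)) *
            (inner ℝ (u i) (u k) : ℝ) ^ (m + 1))) =
        ∑ e, ∑ i, ∑ k, ((α i * inner ℝ (b e) (u i) + β i * inner ℝ (b e) (d i)) *
          (α k * inner ℝ (b e) (u k) + β k * inner ℝ (b e) (d k)) *
            (inner ℝ (u i) (u k) : ℝ) ^ (m + 2) +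
        (m + 2) * (((α i * inner ℝ (b e) (u i) + β i * inner ℝ (b e) (d i)) *
          (β k * inner ℝ (b e) (u k)) * inner ℝ (u i) (d k)) +
        (β i * inner ℝ (b e) (u i)) * (α k * inner ℝ (b e) (u k) + β k * inner ℝ (b e) (d k)) *
          inner ℝ (d i) (u k)) * (inner ℝ (u i) (u k) : ℝ) ^ (m + 1) +
        (β i * inner ℝ (b e) (u i)) * (β k * inner ℝ (b e) (u k)) *
          ((m + 2) * inner ℝ (d i) (d k) * (inner ℝ (u i) (u k) : ℝ) ^ (m + 1) +
        (m + 2) * (m + 1) * (inner ℝ (d i) (u k) * inner ℝ (u i) (d k)) *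
          (inner ℝ (u i) (u k) : ℝ) ^ m)) := by
      rw [CndA_swap]
      refine Finset.sum_congr rfl fun i _ => Finset.sum_congr rfl fun k _ => ?_
      have h4 := step α β i k ((inner ℝ (u i) (u k) : ℝ) ^ (m + 2))
        ((m + 2) * (inner ℝ (u i) (u k) : ℝ) ^ (m + 1))
        ((m + 2) * inner ℝ (d i) (d k) * (inner ℝ (u i) (u k) : ℝ) ^ (m + 1) +
        (m + 2) * (m + 1) * (inner ℝ (d i) (u k) * inner ℝ (u i) (d k)) *
          (inner ℝ (u i) (u k) : ℝ) ^ m)
      have h5 : ∀ e, ((α i * inner ℝ (b e) (u i) + β i * inner ℝ (b e) (d i)) *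
          (α k * inner ℝ (b e) (u k) + β k * inner ℝ (b e) (d k)) *
            (inner ℝ (u i) (u k) : ℝ) ^ (m + 2) +
        (m + 2) * (((α i * inner ℝ (b e) (u i) + β i * inner ℝ (b e) (d i)) *
          (β k * inner ℝ (b e) (u k)) * inner ℝ (u i) (d k)) +
        (β i * inner ℝ (b e) (u i)) * (α k * inner ℝ (b e) (u k) + β k * inner ℝ (b e) (d k)) *
          inner ℝ (d i) (u k)) * (inner ℝ (u i) (u k) : ℝ) ^ (m + 1) +
        (β i * inner ℝ (b e) (u i)) * (β k * inner ℝ (b e) (u k)) *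
          ((m + 2) * inner ℝ (d i) (d k) * (inner ℝ (u i) (u k) : ℝ) ^ (m + 1) +
        (m + 2) * (m + 1) * (inner ℝ (d i) (u k) * inner ℝ (u i) (d k)) *
          (inner ℝ (u i) (u k) : ℝ) ^ m)) = ((α i * inner ℝ (b e) (u i) + β i * inner ℝ (b e) (d i)) *
          (α k * inner ℝ (b e) (u k) + β k * inner ℝ (b e) (d k)) *
            (inner ℝ (u i) (u k) : ℝ) ^ (m + 2) +
        (((α i * inner ℝ (b e) (u i) + β i * inner ℝ (b e) (d i)) *
          (β k * inner ℝ (b e) (u k)) * inner ℝ (u i) (d k)) +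
        (β i * inner ℝ (b e) (u i)) * (α k * inner ℝ (b e) (u k) + β k * inner ℝ (b e) (d k)) *
          inner ℝ (d i) (u k)) * ((m + 2) * (inner ℝ (u i) (u k) : ℝ) ^ (m + 1)) +
        (β i * inner ℝ (b e) (u i)) * (β k * inner ℝ (b e) (u k)) *
          ((m + 2) * inner ℝ (d i) (d k) * (inner ℝ (u i) (u k) : ℝ) ^ (m + 1) +
        (m + 2) * (m + 1) * (inner ℝ (d i) (u k) * inner ℝ (u i) (d k)) *
          (inner ℝ (u i) (u k) : ℝ) ^ m)) := fun e => by ring
      simp only [h5]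
      rw [h4]
      push_cast
      ring
    rw [h3]
    exact Finset.sum_nonneg fun e _ => ih _ _

end psd

end Pool.Agent.H35.T3
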