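import Mathlib
import Pool.Agent.H35.T3.CndA

set_option autoImplicit false

/-!
# CndB: the finite form of the kernel inequality

`a i`, `s i k` real numbers, `s` a matrix all powers of which are positive semidefinite,
`t i k = a i * a k + s i k`.  `N = 2m+2`.
-/

open Pool.Agent.H89.CZ

noncomputable section

namespace Pool.Agent.H35.T3

variable {ι : Type*} [Fintype ι]

def yy (lam a : ι → ℝ) (s : ι → ι → ℝ) (j l : ℕ) : ℝ :=
  ∑ i, ∑ k, lam i * lam k * (a i * a k) ^ j * s i k ^ l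

def xx (lam a : ι → ℝ) (s : ι → ι → ℝ) (j l : ℕ) : ℝ :=
  ∑ i, ∑ k, lam i * lam k * (a i ^ (j + 2) * a k ^ j) * s i k ^ l

def x0 (lam a : ι → ℝ) (s : ι → ι → ℝ) (m : ℕ) : ℝ :=
  ∑ i, ∑ k, lam i * lam k * (a i * a k + s i k) ^ (2 * m + 2)

def x1 (lam a : ι → ℝ) (s : ι → ι → ℝ) (m : ℕ) : ℝ :=
  ∑ i, ∑ k, lam i * lam k * (a i * a k) * (a i * a k + s i k) ^ (2 * m + 1)

def x2 (lam a : ι → ℝ) (s : ι → ι → ℝ) (m : ℕ) : ℝ :=
  ∑ i, ∑ k, lam i * lam k * a i ^ 2 * (a i * a k + s i k) ^ (2 * m + 2)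

theorem CndB_sum3 {κ : Type*} (S : Finset κ) (g : ι → ι → ℝ) (f : κ → ι → ι → ℝ)
    (c : κ → ℝ) :
    ∑ i, ∑ k, g i k * ∑ e ∈ S, c e * f e i k = ∑ e ∈ S, c e * ∑ i, ∑ k, g i k * f e i k := by
  have h : ∀ e ∈ S, c e * ∑ i, ∑ k, g i k * f e i k = ∑ i, ∑ k, g i k * (c e * f e i k) := by
    intro e _
    rw [Finset.mul_sum]
    refine Finset.sum_congr rfl fun i _ => ?_
    rw [Finset.mul_sum]
    refine Finset.sum_congr rfl fun k _ => ?_
    ring
  rw [Finset.sum_congr rfl h, CndA_swap]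
  refine Finset.sum_congr rfl fun i _ => Finset.sum_congr rfl fun k _ => ?_
  rw [Finset.mul_sum]

theorem x0_eq (lam a : ι → ℝ) (s : ι → ι → ℝ) (m : ℕ) :
    x0 lam a s m = ∑ j ∈ Finset.range (2 * m + 3), ((2 * m + 2).choose j : ℝ) *
      yy lam a s j (2 * m + 2 - j) := by
  have h1 : ∀ i k, (a i * a k + s i k) ^ (2 * m + 2) = ∑ j ∈ Finset.range (2 * m + 3),
      ((2 * m + 2).choose j : ℝ) * ((a i * a k) ^ j * s i k ^ (2 * m + 2 - j)) := by
    intro i k
    rw [add_pow]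
    refine Finset.sum_congr rfl fun j _ => ?_
    ring
  unfold x0
  simp only [h1]
  rw [CndB_sum3]
  refine Finset.sum_congr rfl fun j _ => ?_
  unfold yy
  congr 1
  refine Finset.sum_congr rfl fun i _ => Finset.sum_congr rfl fun k _ => ?_
  ring

theorem x2_eq (lam a : ι → ℝ) (s : ι → ι → ℝ) (m : ℕ) :
    x2 lam a s m = ∑ j ∈ Finset.range (2 * m + 3), ((2 * m + 2).choose j : ℝ) *
      xx lam a s j (2 * m + 2 - j) := by
  have h1 : ∀ i k, (a i * a k + s i k) ^ (2 * m + 2) = ∑ j ∈ Finset.range (2 * m + 3),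
      ((2 * m + 2).choose j : ℝ) * ((a i * a k) ^ j * s i k ^ (2 * m + 2 - j)) := by
    intro i k
    rw [add_pow]
    refine Finset.sum_congr rfl fun j _ => ?_
    ring
  unfold x2
  simp only [h1]
  rw [CndB_sum3]
  refine Finset.sum_congr rfl fun j _ => ?_
  unfold xx
  congr 1
  refine Finset.sum_congr rfl fun i _ => Finset.sum_congr rfl fun k _ => ?_
  rw [mul_pow, pow_add]
  ring

private theorem CndB_der (x y : ℝ) (N : ℕ) :
    ((N : ℝ) + 1) * (x * (x + y) ^ N) = ∑ j ∈ Finset.range (N + 2),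
      ((j : ℝ) * ((N + 1).choose j : ℝ)) * (x ^ j * y ^ (N + 1 - j)) := by
  rw [Finset.sum_range_succ', add_pow, Finset.mul_sum, Finset.mul_sum]
  simp only [Nat.cast_zero, zero_mul, add_zero]
  refine Finset.sum_congr rfl fun j hj => ?_
  have h1 := Nat.add_one_mul_choose_eq N j
  have h2 : ((N : ℝ) + 1) * (N.choose j : ℝ) = ((N + 1).choose (j + 1) : ℝ) * ((j : ℝ) + 1) := by
    exact_mod_cast h1
  have h3 : N + 1 - (j + 1) = N - j := by omega
  rw [h3]
  push_cast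
  linear_combination (x ^ (j + 1) * y ^ (N - j)) * h2

theorem x1_eq (lam a : ι → ℝ) (s : ι → ι → ℝ) (m : ℕ) :
    (2 * m + 2) * x1 lam a s m = ∑ j ∈ Finset.range (2 * m + 3),
      ((j : ℝ) * ((2 * m + 2).choose j : ℝ)) * yy lam a s j (2 * m + 2 - j) := by
  have h1 : ∀ i k, (2 * (m : ℝ) + 2) * (a i * a k * (a i * a k + s i k) ^ (2 * m + 1)) =
      ∑ j ∈ Finset.range (2 * m + 3),
      ((j : ℝ) * ((2 * m + 2).choose j : ℝ)) * ((a i * a k) ^ j * s i k ^ (2 * m + 2 - j)) := by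
    intro i k
    have h2 := CndB_der (a i * a k) (s i k) (2 * m + 1)
    push_cast at h2
    have h3 : (2 * (m : ℝ) + 1 + 1) = 2 * m + 2 := by ring
    rw [h3] at h2
    exact h2
  have h4 : (2 * (m : ℝ) + 2) * x1 lam a s m = ∑ i, ∑ k, lam i * lam k *
      ((2 * (m : ℝ) + 2) * (a i * a k * (a i * a k + s i k) ^ (2 * m + 1))) := by
    unfold x1
    rw [Finset.mul_sum]
    refine Finset.sum_congr rfl fun i _ => ?_
    rw [Finset.mul_sum]
    refine Finset.sum_congr rfl fun k _ => ?_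
    ring
  rw [h4]
  simp only [h1]
  rw [CndB_sum3]
  refine Finset.sum_congr rfl fun j _ => ?_
  unfold yy
  congr 1
  refine Finset.sum_congr rfl fun i _ => Finset.sum_congr rfl fun k _ => ?_
  ring

theorem yy_nonneg {s : ι → ι → ℝ} (hs : ∀ l, ∀ c : ι → ℝ, 0 ≤ ∑ i, ∑ k, c i * c k * s i k ^ l)
    (lam a : ι → ℝ) (j l : ℕ) : 0 ≤ yy lam a s j l := by
  refine (hs l fun i => lam i * a i ^ j).trans (le_of_eq ?_)
  refine Finset.sum_congr rfl fun i _ => Finset.sum_congr rfl fun k _ => ?_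
  rw [mul_pow]
  ring

theorem xx_le {s : ι → ι → ℝ} (hsym : ∀ i k, s i k = s k i)
    (hs : ∀ l, ∀ c : ι → ℝ, 0 ≤ ∑ i, ∑ k, c i * c k * s i k ^ l)
    (lam a : ι → ℝ) (j l : ℕ) {p : ℝ} (hp : 0 < p) (M : ℝ) :
    2 * M * xx lam a s j l ≤ p * yy lam a s j l + M ^ 2 / p * yy lam a s (j + 2) l := by
  have h := hs l fun i => lam i * (p * a i ^ j - M * a i ^ (j + 2))
  have hx : ∑ i, ∑ k, lam i * lam k * (a i ^ j * a k ^ (j + 2)) * s i k ^ l =
      xx lam a s j l := by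
    rw [Finset.sum_comm]
    unfold xx
    refine Finset.sum_congr rfl fun i _ => Finset.sum_congr rfl fun k _ => ?_
    rw [hsym k i]
    ring
  have h2 : ∑ i, ∑ k, (lam i * (p * a i ^ j - M * a i ^ (j + 2))) *
      (lam k * (p * a k ^ j - M * a k ^ (j + 2))) * s i k ^ l =
      p ^ 2 * yy lam a s j l - p * M * xx lam a s j l -
        p * M * (∑ i, ∑ k, lam i * lam k * (a i ^ j * a k ^ (j + 2)) * s i k ^ l) +
        M ^ 2 * yy lam a s (j + 2) l := by
    unfold yy xx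
    simp only [Finset.mul_sum]
    rw [← Finset.sum_sub_distrib, ← Finset.sum_sub_distrib, ← Finset.sum_add_distrib]
    refine Finset.sum_congr rfl fun i _ => ?_
    rw [← Finset.sum_sub_distrib, ← Finset.sum_sub_distrib, ← Finset.sum_add_distrib]
    refine Finset.sum_congr rfl fun k _ => ?_
    rw [mul_pow, mul_pow]
    ring
  rw [h2, hx] at h
  have h3 : p * (2 * M * xx lam a s j l) ≤
      p * (p * yy lam a s j l + M ^ 2 / p * yy lam a s (j + 2) l) := by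
    have h4 : p * (p * yy lam a s j l + M ^ 2 / p * yy lam a s (j + 2) l) =
        p ^ 2 * yy lam a s j l + M ^ 2 * yy lam a s (j + 2) l := by
      field_simp
    rw [h4]
    linarith
  exact le_of_mul_le_mul_left h3 hp

/-- the weights of the comparison -/
def pj (j : ℕ) : ℝ := if j = 0 then 1 else j + 2

theorem pj_pos (j : ℕ) : 0 < pj j := by
  unfold pj
  split_ifs
  · exact one_pos
  · positivity

/-- `3 + 2j - (N-j)/(N-1) - p_j` -/
def qj (m j : ℕ) : ℝ := 3 + 2 * j - (2 * m + 2 - j) / (2 * m + 1) - pj j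

theorem qj_nonneg (m j : ℕ) : 0 ≤ qj m j := by
  have hM : (0 : ℝ) < 2 * m + 1 := by positivity
  unfold qj pj
  split_ifs with hj
  · subst hj
    have h1 : (2 * (m : ℝ) + 2 - (0 : ℕ)) / (2 * m + 1) ≤ 2 := by
      rw [div_le_iff₀ hM]
      push_cast
      linarith [(Nat.cast_nonneg m : (0 : ℝ) ≤ m)]
    push_cast at h1 ⊢
    linarith
  · have hj1 : (1 : ℝ) ≤ j := by exact_mod_cast Nat.one_le_iff_ne_zero.2 hj
    have h1 : (2 * (m : ℝ) + 2 - j) / (2 * m + 1) ≤ 1 := by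
      rw [div_le_iff₀ hM]
      linarith
    linarith

def Aj (lam a : ι → ℝ) (s : ι → ι → ℝ) (m : ℕ) : ℝ :=
  dd m / (2 * m + 2) * ∑ j ∈ Finset.range (2 * m + 3),
    ((2 * m + 2).choose j : ℝ) * (qj m j * yy lam a s j (2 * m + 2 - j))

def Bj (lam a : ι → ℝ) (s : ι → ι → ℝ) (m : ℕ) : ℝ :=
  dd m / (2 * m + 2) * ∑ j ∈ Finset.range (2 * m + 3),
    ((2 * m + 2).choose j : ℝ) * ((2 * m + 1) ^ 2 / pj j * yy lam a s (j + 2) (2 * m + 2 - j))

theorem CndB_w (m : ℕ) : 0 < dd m / (2 * m + 2) := div_pos (dd_pos m) (by positivity)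

theorem Aj_nonneg {s : ι → ι → ℝ}
    (hs : ∀ l, ∀ c : ι → ℝ, 0 ≤ ∑ i, ∑ k, c i * c k * s i k ^ l)
    (lam a : ι → ℝ) (m : ℕ) : 0 ≤ Aj lam a s m := by
  refine mul_nonneg (CndB_w m).le (Finset.sum_nonneg fun j _ => ?_)
  exact mul_nonneg (Nat.cast_nonneg _) (mul_nonneg (qj_nonneg m j) (yy_nonneg hs lam a _ _))

theorem Bj_le {s : ι → ι → ℝ}
    (hs : ∀ l, ∀ c : ι → ℝ, 0 ≤ ∑ i, ∑ k, c i * c k * s i k ^ l)
    (lam a : ι → ℝ) (m : ℕ) : Bj lam a s m ≤ Aj lam a s (m + 1) := by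
  have h1 : Aj lam a s (m + 1) = dd (m + 1) / (2 * (m + 1 : ℕ) + 2) *
      ∑ j ∈ Finset.range (2 * m + 5),
      ((2 * m + 4).choose j : ℝ) * (qj (m + 1) j * yy lam a s j (2 * m + 4 - j)) := rfl
  have h2 : ∑ j ∈ Finset.range (2 * m + 3),
      ((2 * m + 4).choose (j + 2) : ℝ) * (qj (m + 1) (j + 2) *
        yy lam a s (j + 2) (2 * m + 2 - j)) ≤
      ∑ j ∈ Finset.range (2 * m + 5),
      ((2 * m + 4).choose j : ℝ) * (qj (m + 1) j * yy lam a s j (2 * m + 4 - j)) := by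
    conv_rhs => rw [Finset.sum_range_succ', Finset.sum_range_succ']
    have h3 : ∀ j : ℕ, 0 ≤ ((2 * m + 4).choose j : ℝ) * (qj (m + 1) j *
        yy lam a s j (2 * m + 4 - j)) := fun j =>
      mul_nonneg (Nat.cast_nonneg _) (mul_nonneg (qj_nonneg _ j) (yy_nonneg hs lam a _ _))
    have h4 : ∑ j ∈ Finset.range (2 * m + 3), ((2 * m + 4).choose (j + 1 + 1) : ℝ) *
        (qj (m + 1) (j + 1 + 1) * yy lam a s (j + 1 + 1) (2 * m + 4 - (j + 1 + 1))) =
        ∑ j ∈ Finset.range (2 * m + 3),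
      ((2 * m + 4).choose (j + 2) : ℝ) * (qj (m + 1) (j + 2) *
        yy lam a s (j + 2) (2 * m + 2 - j)) := by
      refine Finset.sum_congr rfl fun j _ => ?_
      have h5 : 2 * m + 4 - (j + 1 + 1) = 2 * m + 2 - j := by omega
      rw [h5]
    rw [h4]
    have h6 := h3 (0 + 1)
    have h7 := h3 0
    linarith
  rw [h1]
  refine le_trans ?_ (mul_le_mul_of_nonneg_left h2 (by
    have := CndB_w (m + 1)
    exact this.le))
  unfold Bj
  rw [Finset.mul_sum, Finset.mul_sum]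
  refine Finset.sum_le_sum fun j hj => ?_
  have hjm : j ≤ 2 * m + 2 := by
    have := Finset.mem_range.1 hj
    omega
  have hy := yy_nonneg hs lam a (j + 2) (2 * m + 2 - j)
  have hchoose : ((2 * m + 4).choose (j + 2) : ℝ) * ((j + 2) * (j + 1)) =
      ((2 * m + 2).choose j : ℝ) * ((2 * m + 4) * (2 * m + 3)) := by
    have e1 := Nat.add_one_mul_choose_eq (2 * m + 3) (j + 1)
    have e2 := Nat.add_one_mul_choose_eq (2 * m + 2) j
    have e1' : ((2 * m + 4 : ℕ) : ℝ) * ((2 * m + 3).choose (j + 1) : ℝ) =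
        ((2 * m + 4).choose (j + 2) : ℝ) * ((j : ℝ) + 2) := by exact_mod_cast e1
    have e2' : ((2 * m + 3 : ℕ) : ℝ) * ((2 * m + 2).choose j : ℝ) =
        ((2 * m + 3).choose (j + 1) : ℝ) * ((j : ℝ) + 1) := by exact_mod_cast e2
    push_cast at e1' e2'
    linear_combination (-((j : ℝ) + 1)) * e1' - (2 * m + 4) * e2'
  have hw : dd (m + 1) / (2 * ((m + 1 : ℕ) : ℝ) + 2) =
      dd m / (2 * m + 2) * ((2 * m + 1) / (2 * m + 4)) := by
    rw [dd_succ]
    push_cast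
    field_simp
    ring
  have hC : ((2 * m + 4).choose (j + 2) : ℝ) =
      ((2 * m + 2).choose j : ℝ) * ((2 * m + 4) * (2 * m + 3)) / ((j + 2) * (j + 1)) := by
    rw [eq_div_iff (by positivity), hchoose]
  rw [hw, hC]
  have hmain : (2 * (m : ℝ) + 1) ^ 2 / pj j ≤
      (2 * m + 1) / (2 * m + 4) * (((2 * m + 4) * (2 * m + 3)) / ((j + 2) * (j + 1))) *
        qj (m + 1) (j + 2) := by
    have hq : qj (m + 1) (j + 2) = ((2 * m + 3) * (j + 3) - (2 * m + 2 - j)) / (2 * m + 3) := by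
      unfold qj pj
      rw [if_neg (by omega)]
      push_cast
      field_simp
      ring
    have hjr : (j : ℝ) ≤ 2 * m + 2 := by exact_mod_cast hjm
    have hj0 : (0 : ℝ) ≤ j := Nat.cast_nonneg j
    have hm0 : (0 : ℝ) ≤ m := Nat.cast_nonneg m
    have e3 : (2 * (m : ℝ) + 1) / (2 * m + 4) * (((2 * m + 4) * (2 * m + 3)) /
        ((j + 2) * (j + 1))) * qj (m + 1) (j + 2) =
        (2 * m + 1) * ((2 * m + 3) * (j + 3) - (2 * m + 2 - j)) / ((j + 2) * (j + 1)) := by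
      rw [hq]
      field_simp
    rw [e3, div_le_div_iff₀ (pj_pos j) (by positivity)]
    unfold pj
    split_ifs with hj00
    · subst hj00
      push_cast
      nlinarith
    · have hj1 : (1 : ℝ) ≤ j := by exact_mod_cast Nat.one_le_iff_ne_zero.2 hj00
      have e4 : (2 * (m : ℝ) + 1) * ((j : ℝ) + 1) ≤
          (2 * m + 3) * (j + 3) - (2 * m + 2 - j) := by nlinarith
      have e5 : 0 ≤ (2 * (m : ℝ) + 1) * ((j : ℝ) + 2) := by positivity
      have e6 := mul_le_mul_of_nonneg_left e4 e5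
      nlinarith
  have hc0 : 0 ≤ dd m / (2 * m + 2) * ((2 * m + 2).choose j : ℝ) :=
    mul_nonneg (CndB_w m).le (Nat.cast_nonneg _)
  have e7 := mul_le_mul_of_nonneg_left (mul_le_mul_of_nonneg_right hmain hy) hc0
  calc _ = dd m / (2 * m + 2) * ((2 * m + 2).choose j : ℝ) *
        ((2 * m + 1) ^ 2 / pj j * yy lam a s (j + 2) (2 * m + 2 - j)) := by ring
    _ ≤ _ := e7
    _ = _ := by ring

/-- one degree -/
theorem CndB_deg {s : ι → ι → ℝ} (hsym : ∀ i k, s i k = s k i)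
    (hs : ∀ l, ∀ c : ι → ℝ, 0 ≤ ∑ i, ∑ k, c i * c k * s i k ^ l)
    (lam a : ι → ℝ) (m : ℕ) {T : ℝ} (hT : (2 * m + 1) * T ≤ x0 lam a s m - x1 lam a s m) :
    Aj lam a s m - Bj lam a s m ≤ dd m / (2 * m + 2) * (3 * x0 lam a s m +
      2 * ((2 * m + 2) * x1 lam a s m) - (2 * m + 2) * T -
      2 * ((2 * m + 1) * x2 lam a s m)) ∧
    Aj lam a s m ≤ dd m / (2 * m + 2) * (3 * x0 lam a s m +
      2 * ((2 * m + 2) * x1 lam a s m) - (2 * m + 2) * T) := by
  have hM : (0 : ℝ) < 2 * m + 1 := by positivity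
  have hw := (CndB_w m).le
  have hT2 : (2 * m + 2) * T ≤ (2 * m + 2) / (2 * m + 1) * x0 lam a s m -
      1 / (2 * m + 1) * ((2 * m + 2) * x1 lam a s m) := by
    have h1 : (2 * m + 2) * T = (2 * m + 2) / (2 * m + 1) * ((2 * m + 1) * T) := by
      field_simp
    rw [h1]
    have h2 : (0 : ℝ) ≤ (2 * m + 2) / (2 * m + 1) := by positivity
    refine (mul_le_mul_of_nonneg_left hT h2).trans (le_of_eq ?_)
    ring
  have h3 : (3 - (2 * (m : ℝ) + 2) / (2 * m + 1)) * x0 lam a s m +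
      (2 + 1 / (2 * m + 1)) * ((2 * m + 2) * x1 lam a s m) =
      ∑ j ∈ Finset.range (2 * m + 3), ((2 * m + 2).choose j : ℝ) *
        ((qj m j + pj j) * yy lam a s j (2 * m + 2 - j)) := by
    rw [x0_eq, x1_eq, Finset.mul_sum, Finset.mul_sum, ← Finset.sum_add_distrib]
    refine Finset.sum_congr rfl fun j _ => ?_
    unfold qj
    field_simp
    ring
  have h5 : ∑ j ∈ Finset.range (2 * m + 3), ((2 * m + 2).choose j : ℝ) *
        (qj m j * yy lam a s j (2 * m + 2 - j)) ≤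
      ∑ j ∈ Finset.range (2 * m + 3), ((2 * m + 2).choose j : ℝ) *
        ((qj m j + pj j) * yy lam a s j (2 * m + 2 - j)) := by
    refine Finset.sum_le_sum fun j _ => ?_
    refine mul_le_mul_of_nonneg_left ?_ (Nat.cast_nonneg _)
    refine mul_le_mul_of_nonneg_right ?_ (yy_nonneg hs lam a _ _)
    linarith [pj_pos j]
  have h6 : 2 * ((2 * m + 1) * x2 lam a s m) ≤ ∑ j ∈ Finset.range (2 * m + 3),
      ((2 * m + 2).choose j : ℝ) * (pj j * yy lam a s j (2 * m + 2 - j) +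
        (2 * m + 1) ^ 2 / pj j * yy lam a s (j + 2) (2 * m + 2 - j)) := by
    rw [x2_eq, Finset.mul_sum, Finset.mul_sum]
    refine Finset.sum_le_sum fun j _ => ?_
    have h7 := xx_le hsym hs lam a j (2 * m + 2 - j) (pj_pos j) (2 * m + 1)
    have h8 := mul_le_mul_of_nonneg_left h7 (Nat.cast_nonneg ((2 * m + 2).choose j) : (0 : ℝ) ≤ _)
    refine le_trans (le_of_eq ?_) h8
    ring
  constructor
  · unfold Aj Bj
    rw [← mul_sub]
    refine mul_le_mul_of_nonneg_left ?_ hw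
    have h9 : ∑ j ∈ Finset.range (2 * m + 3), ((2 * m + 2).choose j : ℝ) *
        (qj m j * yy lam a s j (2 * m + 2 - j)) -
      ∑ j ∈ Finset.range (2 * m + 3), ((2 * m + 2).choose j : ℝ) *
        ((2 * m + 1) ^ 2 / pj j * yy lam a s (j + 2) (2 * m + 2 - j)) =
      ∑ j ∈ Finset.range (2 * m + 3), ((2 * m + 2).choose j : ℝ) *
        ((qj m j + pj j) * yy lam a s j (2 * m + 2 - j)) -
      ∑ j ∈ Finset.range (2 * m + 3),
      ((2 * m + 2).choose j : ℝ) * (pj j * yy lam a s j (2 * m + 2 - j) +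
        (2 * m + 1) ^ 2 / pj j * yy lam a s (j + 2) (2 * m + 2 - j)) := by
      rw [← Finset.sum_sub_distrib, ← Finset.sum_sub_distrib]
      refine Finset.sum_congr rfl fun j _ => ?_
      ring
    rw [h9, ← h3]
    linarith
  · unfold Aj
    refine mul_le_mul_of_nonneg_left ?_ hw
    refine h5.trans ?_
    rw [← h3]
    linarith

/-- finite sums -/
theorem CndB_fin {s : ι → ι → ℝ} (hsym : ∀ i k, s i k = s k i)
    (hs : ∀ l, ∀ c : ι → ℝ, 0 ≤ ∑ i, ∑ k, c i * c k * s i k ^ l)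
    (lam a : ι → ℝ) (T : ℕ → ℝ)
    (hT : ∀ m : ℕ, (2 * m + 1) * T m ≤ x0 lam a s m - x1 lam a s m) (K : ℕ) :
    0 ≤ ∑ m ∈ Finset.range (K + 1), dd m / (2 * m + 2) * (3 * x0 lam a s m +
      2 * ((2 * m + 2) * x1 lam a s m) - (2 * m + 2) * T m) -
      ∑ m ∈ Finset.range K, dd m / (2 * m + 2) * (2 * ((2 * m + 1) * x2 lam a s m)) := by
  have h1 : ∀ K : ℕ, -Aj lam a s K ≤ ∑ m ∈ Finset.range K, dd m / (2 * m + 2) *
      (3 * x0 lam a s m + 2 * ((2 * m + 2) * x1 lam a s m) - (2 * m + 2) * T m -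
      2 * ((2 * m + 1) * x2 lam a s m)) := by
    intro K
    induction K with
    | zero =>
      simp only [Finset.range_zero, Finset.sum_empty]
      linarith [Aj_nonneg hs lam a 0]
    | succ K ih =>
      rw [Finset.sum_range_succ]
      have h2 := (CndB_deg hsym hs lam a K (hT K)).1
      have h3 := Bj_le hs lam a K
      linarith
  have h4 := (CndB_deg hsym hs lam a K (hT K)).2
  have h5 := h1 K
  rw [Finset.sum_range_succ]
  have h6 : ∑ m ∈ Finset.range K, dd m / (2 * m + 2) * (3 * x0 lam a s m +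
      2 * ((2 * m + 2) * x1 lam a s m) - (2 * m + 2) * T m) -
      ∑ m ∈ Finset.range K, dd m / (2 * m + 2) * (2 * ((2 * m + 1) * x2 lam a s m)) =
      ∑ m ∈ Finset.range K, dd m / (2 * m + 2) *
      (3 * x0 lam a s m + 2 * ((2 * m + 2) * x1 lam a s m) - (2 * m + 2) * T m -
      2 * ((2 * m + 1) * x2 lam a s m)) := by
    rw [← Finset.sum_sub_distrib]
    refine Finset.sum_congr rfl fun m _ => ?_
    ring
  linarith

end Pool.Agent.H35.T3
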