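import Mathlib
import Pool.Agent.H89.CZ.HB
import Pool.Agent.H89.CZ.Defs

set_option autoImplicit false

/-!
# Project T3 (MP_6cdc09_gt): real subspaces of dimension three, definitions

Aim.  Let `n ≥ 3`, `E` a real subspace of `ℂⁿ` of dimension 3 with real orthonormal basis
`e 0, e 1, e 2`, and `x = kx e = ∑_{i<j} (Im ⟨e i, e j⟩)²` (the square of the cosine of the Kähler
angle).  If `3 ≤ (2n-1) x` then the Brunn-Minkowski inequality for `V_E` holds on zonoids.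

Way.  `V_E (∑ [0, v_j]) = ∑_{triples} g3 e (v_j, v_k, v_l)` with
`g3 e w = ∫ |⟨φ(e0∧e1∧e2), w0∧w1∧w2⟩| dφ`, and (module `Ker3`)
`g3 e w = κ ((6n-9-3x) √G + ((2n-1)x-3) T / √G)`, `G = Gr w` (Gram determinant),
`T = ‖cv w‖²`.  Kernel inequality (module `Cnd3`) and trickle-down (`H85.BMT.superadd`).
-/

open MeasureTheory Pool.Agent.H61.UProj Pool.Agent.H89.CZ

noncomputable section

namespace Pool.Agent.H35.T3

variable {n : ℕ}

/-- `⟨a ∧ b ∧ c, p ∧ q ∧ r⟩` for the real inner product. -/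
def tri (a b c p q r : Cn n) : ℝ :=
  pair2 a b p q * inner ℝ c r + pair2 a b q r * inner ℝ c p + pair2 a b r p * inner ℝ c q

/-- `∫ |⟨φ(e0 ∧ e1 ∧ e2), w0 ∧ w1 ∧ w2⟩| dφ`. -/
def g3 (e w : Fin 3 → Cn n) : ℝ :=
  ∫ φ, |tri (uni φ (e 0)) (uni φ (e 1)) (uni φ (e 2)) (w 0) (w 1) (w 2)| ∂(haarU n)

/-- Gram determinant of three vectors. -/
def Gr (w : Fin 3 → Cn n) : ℝ := tri (w 0) (w 1) (w 2) (w 0) (w 1) (w 2)

/-- The contraction of `w0 ∧ w1 ∧ w2` with the Kähler form. -/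
def cv (w : Fin 3 → Cn n) : Cn n :=
  om (w 1) (w 2) • w 0 + om (w 2) (w 0) • w 1 + om (w 0) (w 1) • w 2

/-- Square of the cosine of the Kähler angle (for an orthonormal triple). -/
def kx (e : Fin 3 → Cn n) : ℝ :=
  om (e 0) (e 1) ^ 2 + om (e 1) (e 2) ^ 2 + om (e 2) (e 0) ^ 2

/-- The kernel `√G + b T / √G` on pairs of vectors, for a fixed vector `w`. -/
def K3 (b : ℝ) (w u v : Cn n) : ℝ :=
  √(Gr ![w, u, v]) + b * (‖cv ![w, u, v]‖ ^ 2 / √(Gr ![w, u, v]))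

end Pool.Agent.H35.T3
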