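import Mathlib
import Pool.Agent.H35.T3.Defs
import Pool.Agent.H89.CZ.NF0

set_option autoImplicit false

/-!
# Lin3: linear algebra of triples

* `tri` is the determinant of the matrix of real inner products; symmetric, unitarily invariant,
  continuous.
* `exists_frame`: a triple `w` is either degenerate (`Gr w = 0`, and all `tri _ _ _ w = 0`) or
  `w0 ∧ w1 ∧ w2 = t f0 ∧ f1 ∧ f2` with `f` orthonormal and `t > 0`.
-/

open MeasureTheory Pool.Agent.H61.UProj Pool.Agent.H89.CZ

noncomputable section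

namespace Pool.Agent.H35.T3

variable {n : ℕ}

theorem tri_symm (a b c p q r : Cn n) : tri a b c p q r = tri p q r a b c := by
  simp only [tri, pair2, real_inner_comm a p, real_inner_comm a q, real_inner_comm a r,
    real_inner_comm b p, real_inner_comm b q, real_inner_comm b r, real_inner_comm c p,
    real_inner_comm c q, real_inner_comm c r]
  ring

theorem tri_uni (φ : Un n) (a b c p q r : Cn n) :
    tri (uni φ a) (uni φ b) (uni φ c) (uni φ p) (uni φ q) (uni φ r) = tri a b c p q r := by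
  simp only [tri, pair2, LinearIsometry.inner_map_map]

private theorem Lin3_dep {w : Fin 3 → Cn n} (h : ¬ LinearIndependent ℝ w) (a b c : Cn n) :
    tri a b c (w 0) (w 1) (w 2) = 0 := by
  rw [Fintype.not_linearIndependent_iff] at h
  obtain ⟨g, hg, i, hi⟩ := h
  rw [Fin.sum_univ_three] at hg
  have key : ∀ z : Cn n, g 0 * (inner ℝ z (w 0) : ℝ) + g 1 * inner ℝ z (w 1) +
      g 2 * inner ℝ z (w 2) = 0 := by
    intro z
    rw [← real_inner_smul_right, ← real_inner_smul_right, ← real_inner_smul_right,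
      ← inner_add_right, ← inner_add_right, hg, inner_zero_right]
  have hA := key a
  have hB := key b
  have hC := key c
  have : g i * tri a b c (w 0) (w 1) (w 2) = 0 := by
    simp only [tri, pair2]
    fin_cases i
    · simp only [Fin.zero_eta, Fin.isValue]
      linear_combination
        ((inner ℝ b (w 1) : ℝ) * inner ℝ c (w 2) - inner ℝ b (w 2) * inner ℝ c (w 1)) * hA -
        ((inner ℝ a (w 1) : ℝ) * inner ℝ c (w 2) - inner ℝ a (w 2) * inner ℝ c (w 1)) * hB +
        ((inner ℝ a (w 1) : ℝ) * inner ℝ b (w 2) - inner ℝ a (w 2) * inner ℝ b (w 1)) * hC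
    · simp only [Fin.mk_one, Fin.isValue]
      linear_combination
        ((inner ℝ b (w 2) : ℝ) * inner ℝ c (w 0) - inner ℝ b (w 0) * inner ℝ c (w 2)) * hA +
        ((inner ℝ a (w 0) : ℝ) * inner ℝ c (w 2) - inner ℝ a (w 2) * inner ℝ c (w 0)) * hB +
        ((inner ℝ a (w 2) : ℝ) * inner ℝ b (w 0) - inner ℝ a (w 0) * inner ℝ b (w 2)) * hC
    · simp only [Fin.reduceFinMk, Fin.isValue]
      linear_combination
        ((inner ℝ b (w 0) : ℝ) * inner ℝ c (w 1) - inner ℝ b (w 1) * inner ℝ c (w 0)) * hA -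
        ((inner ℝ a (w 0) : ℝ) * inner ℝ c (w 1) - inner ℝ a (w 1) * inner ℝ c (w 0)) * hB +
        ((inner ℝ a (w 0) : ℝ) * inner ℝ b (w 1) - inner ℝ a (w 1) * inner ℝ b (w 0)) * hC
  exact (mul_eq_zero.1 this).resolve_left hi

private theorem Lin3_Gr {f : Fin 3 → Cn n} (hf : Orthonormal ℝ f) : Gr f = 1 := by
  have h := orthonormal_iff_ite.1 hf
  simp only [Gr, tri, pair2, h]
  simp

theorem cv_sq {f : Fin 3 → Cn n} (hf : Orthonormal ℝ f) : ‖cv f‖ ^ 2 = kx f := by
  have h := orthonormal_iff_ite.1 hf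
  rw [← real_inner_self_eq_norm_sq]
  simp only [cv, kx, inner_add_left, inner_add_right, real_inner_smul_left,
    real_inner_smul_right, h]
  simp
  ring

private theorem Lin3_det {w f : Fin 3 → Cn n} {R : Fin 3 → Fin 3 → ℝ}
    (h : ∀ k, w k = R k 0 • f 0 + R k 1 • f 1 + R k 2 • f 2) :
    (∀ a b c, tri a b c (w 0) (w 1) (w 2) =
      (R 0 0 * (R 1 1 * R 2 2 - R 1 2 * R 2 1) - R 0 1 * (R 1 0 * R 2 2 - R 1 2 * R 2 0) +
        R 0 2 * (R 1 0 * R 2 1 - R 1 1 * R 2 0)) * tri a b c (f 0) (f 1) (f 2)) ∧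
    cv w = (R 0 0 * (R 1 1 * R 2 2 - R 1 2 * R 2 1) - R 0 1 * (R 1 0 * R 2 2 - R 1 2 * R 2 0) +
        R 0 2 * (R 1 0 * R 2 1 - R 1 1 * R 2 0)) • cv f := by
  constructor
  · intro a b c
    rw [h 0, h 1, h 2]
    simp only [tri, pair2, inner_add_right, real_inner_smul_right]
    ring
  · have e : ∀ i j, om (w i) (w j) =
        (R i 0 * R j 1 - R i 1 * R j 0) * om (f 0) (f 1) +
        (R i 1 * R j 2 - R i 2 * R j 1) * om (f 1) (f 2) +
        (R i 2 * R j 0 - R i 0 * R j 2) * om (f 2) (f 0) := by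
      intro i j
      rw [h i, h j]
      simp only [om_add_left, om_add_right, om_smul_left, om_smul_right, om_self]
      rw [om_swap (f 0) (f 1), om_swap (f 1) (f 2), om_swap (f 2) (f 0)]
      ring
    unfold cv
    rw [e, e, e, h 0, h 1, h 2]
    module

theorem exists_frame (w : Fin 3 → Cn n) :
    (Gr w = 0 ∧ (∀ a b c, tri a b c (w 0) (w 1) (w 2) = 0)) ∨
      ∃ (f : Fin 3 → Cn n) (t : ℝ), Orthonormal ℝ f ∧ 0 < t ∧ Gr w = t ^ 2 ∧
        (∀ a b c, tri a b c (w 0) (w 1) (w 2) = t * tri a b c (f 0) (f 1) (f 2)) ∧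
        ‖cv w‖ ^ 2 = t ^ 2 * kx f := by
  by_cases hw : LinearIndependent ℝ w
  · set S := Submodule.span ℝ (Set.range w) with hS
    have hfr : Module.finrank ℝ S = 3 := by
      rw [hS, finrank_span_eq_card hw, Fintype.card_fin]
    set b := (stdOrthonormalBasis ℝ S).reindex (finCongr hfr) with hb
    set f : Fin 3 → Cn n := fun j => (b j : Cn n) with hfd
    have hf : Orthonormal ℝ f := b.orthonormal.comp_linearIsometry S.subtypeₗᵢ
    have hwS : ∀ k, w k ∈ S := fun k => Submodule.subset_span ⟨k, rfl⟩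
    set R : Fin 3 → Fin 3 → ℝ := fun k j => inner ℝ (b j) (⟨w k, hwS k⟩ : S) with hR
    have hwR : ∀ k, w k = R k 0 • f 0 + R k 1 • f 1 + R k 2 • f 2 := by
      intro k
      have h1 := b.sum_repr' (⟨w k, hwS k⟩ : S)
      rw [Fin.sum_univ_three] at h1
      have h2 := congrArg (fun x : S => (x : Cn n)) h1
      simp only [Submodule.coe_add, Submodule.coe_smul] at h2
      exact h2.symm
    obtain ⟨h1, h2⟩ := Lin3_det hwR
    set d := R 0 0 * (R 1 1 * R 2 2 - R 1 2 * R 2 1) - R 0 1 * (R 1 0 * R 2 2 - R 1 2 * R 2 0) +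
        R 0 2 * (R 1 0 * R 2 1 - R 1 1 * R 2 0) with hd
    have hG : Gr w = d ^ 2 := by
      have h3 := Lin3_Gr hf
      unfold Gr at h3 ⊢
      rw [h1, tri_symm, h1, h3]
      ring
    rcases lt_trichotomy d 0 with hd0 | hd0 | hd0
    · right
      have hf' : Orthonormal ℝ (f ∘ Equiv.swap (0 : Fin 3) 1) :=
        hf.comp _ (Equiv.swap (0 : Fin 3) 1).injective
      have e0 : (f ∘ Equiv.swap (0 : Fin 3) 1) 0 = f 1 := by simp
      have e1 : (f ∘ Equiv.swap (0 : Fin 3) 1) 1 = f 0 := by simp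
      have e2 : (f ∘ Equiv.swap (0 : Fin 3) 1) 2 = f 2 := by
        simp only [Function.comp]
        rw [Equiv.swap_apply_of_ne_of_ne (by decide) (by decide)]
      refine ⟨_, -d, hf', by linarith, by rw [hG]; ring, ?_, ?_⟩
      · intro a b c
        rw [e0, e1, e2, h1]
        simp only [tri, pair2]
        ring
      · rw [h2, norm_smul, mul_pow, cv_sq hf, Real.norm_eq_abs, sq_abs]
        unfold kx
        rw [e0, e1, e2, om_swap (f 0) (f 1), om_swap (f 2) (f 0), om_swap (f 1) (f 2)]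
        ring
    · left
      refine ⟨by rw [hG, hd0]; ring, fun a b c => by rw [h1, hd0, zero_mul]⟩
    · right
      refine ⟨f, d, hf, hd0, hG, h1, ?_⟩
      rw [h2, norm_smul, mul_pow, cv_sq hf, Real.norm_eq_abs, sq_abs]
  · left
    exact ⟨Lin3_dep hw _ _ _, Lin3_dep hw⟩

end Pool.Agent.H35.T3
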