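import Mathlib
import Pool.Agent.H35.T3.Lin3
import Pool.Agent.H35.T3.CndB

set_option autoImplicit false

/-!
# Cnd3: the kernel inequality for unit vectors

`u_i` unit vectors orthogonal to the unit vector `w`, `a_i = om w u_i`, `t = ⟨u_i, u_k⟩`,
`τ = om u_i u_k`: `Gr = 1 - t²`, `‖cv‖² = a_i² + a_k² - 2 a_i a_k t + τ² =: T`.  With
`w_m = dd m / (2m+2)`: `K3 = lim (1 - ∑_{m≤K} w_m t^(2m+2) + b T ∑_{m≤K} dd m t^(2m))`, and the
weighted double sums of the partial sums are `≤ 0` by `CndB_fin`.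
-/

open MeasureTheory Pool.Agent.H61.UProj Pool.Agent.H89.CZ

noncomputable section

namespace Pool.Agent.H35.T3

variable {n : ℕ}

theorem om_eq (x y : Cn n) : om x y = (inner ℝ (Complex.I • x) y : ℝ) := by
  unfold om
  rw [real_inner_eq, PiLp.inner_apply, Complex.im_sum, Complex.re_sum]
  refine Finset.sum_congr rfl (fun j _ => ?_)
  have h1 : (Complex.I • x) j = Complex.I * x j := rfl
  have h2 : inner ℂ (x j) (y j) = (starRingEnd ℂ) (x j) * y j := by
    rw [RCLike.inner_apply, mul_comm]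
  rw [h1, h2, map_mul, Complex.conj_I]
  simp only [Complex.mul_re, Complex.mul_im, Complex.neg_re, Complex.neg_im, Complex.I_re,
    Complex.I_im]
  ring

theorem inner_I (x y : Cn n) : (inner ℝ (Complex.I • x) (Complex.I • y) : ℝ) = inner ℝ x y := by
  rw [real_inner_eq, real_inner_eq]
  congr 1
  refine Finset.sum_congr rfl (fun j _ => ?_)
  have h1 : (Complex.I • x) j = Complex.I * x j := rfl
  have h2 : (Complex.I • y) j = Complex.I * y j := rfl
  rw [h1, h2, map_mul, Complex.conj_I]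
  linear_combination (-(starRingEnd ℂ (x j) * y j)) * Complex.I_mul_I

theorem inner_I_right (x y : Cn n) : (inner ℝ x (Complex.I • y) : ℝ) = om y x := by
  rw [om_eq, real_inner_comm]

theorem Gr_unit {w u v : Cn n} (hw : ‖w‖ = 1) (hu : ‖u‖ = 1) (hv : ‖v‖ = 1)
    (huw : (inner ℝ u w : ℝ) = 0) (hvw : (inner ℝ v w : ℝ) = 0) :
    Gr ![w, u, v] = 1 - (inner ℝ u v : ℝ) ^ 2 := by
  have h1 : (inner ℝ w w : ℝ) = 1 := by rw [real_inner_self_eq_norm_sq, hw]; norm_num
  have h2 : (inner ℝ u u : ℝ) = 1 := by rw [real_inner_self_eq_norm_sq, hu]; norm_num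
  have h3 : (inner ℝ v v : ℝ) = 1 := by rw [real_inner_self_eq_norm_sq, hv]; norm_num
  have h4 : (inner ℝ w u : ℝ) = 0 := by rw [real_inner_comm]; exact huw
  have h5 : (inner ℝ w v : ℝ) = 0 := by rw [real_inner_comm]; exact hvw
  have h6 : (inner ℝ v u : ℝ) = inner ℝ u v := real_inner_comm u v
  change tri w u v w u v = _
  simp only [tri, pair2, h1, h2, h3, h4, h5, h6, huw, hvw]
  ring

theorem cv_unit {w u v : Cn n} (hw : ‖w‖ = 1) (hu : ‖u‖ = 1) (hv : ‖v‖ = 1)
    (huw : (inner ℝ u w : ℝ) = 0) (hvw : (inner ℝ v w : ℝ) = 0) :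
    ‖cv ![w, u, v]‖ ^ 2 = om w u ^ 2 + om w v ^ 2 - 2 * (om w u * om w v) * inner ℝ u v +
      om u v ^ 2 := by
  have h1 : (inner ℝ w w : ℝ) = 1 := by rw [real_inner_self_eq_norm_sq, hw]; norm_num
  have h2 : (inner ℝ u u : ℝ) = 1 := by rw [real_inner_self_eq_norm_sq, hu]; norm_num
  have h3 : (inner ℝ v v : ℝ) = 1 := by rw [real_inner_self_eq_norm_sq, hv]; norm_num
  have h4 : (inner ℝ w u : ℝ) = 0 := by rw [real_inner_comm]; exact huw
  have h5 : (inner ℝ w v : ℝ) = 0 := by rw [real_inner_comm]; exact hvw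
  have h6 : (inner ℝ v u : ℝ) = inner ℝ u v := real_inner_comm u v
  rw [← real_inner_self_eq_norm_sq]
  change (inner ℝ (om u v • w + om v w • u + om w u • v)
    (om u v • w + om v w • u + om w u • v) : ℝ) = _
  rw [om_swap w v]
  simp only [inner_add_left, inner_add_right, real_inner_smul_left, real_inner_smul_right,
    h1, h2, h3, h4, h5, h6, huw, hvw]
  ring

private theorem Cnd3_lim {t T b : ℝ} (ht : |t| ≤ 1) (hT : |t| = 1 → T = 0) :
    Filter.Tendsto (fun K : ℕ => 1 - ∑ m ∈ Finset.range (K + 1), dd m / (2 * m + 2) *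
      t ^ (2 * m + 2) + b * (T * ∑ m ∈ Finset.range (K + 1), dd m * t ^ (2 * m)))
      Filter.atTop (nhds (√(1 - t ^ 2) + b * (T / √(1 - t ^ 2)))) := by
  have h1 := (hasSum_sqrt ht).tendsto_sum_nat.comp (Filter.tendsto_add_atTop_nat 1)
  have h2 := (tendsto_const_nhds (x := (1 : ℝ)) (f := Filter.atTop (α := ℕ))).sub h1
  have h3 : (1 : ℝ) - (1 - √(1 - t ^ 2)) = √(1 - t ^ 2) := by ring
  rw [h3] at h2
  refine h2.add ?_
  rcases ht.lt_or_eq with hlt | heq
  · have h4 := (hasSum_inv_sqrt hlt).tendsto_sum_nat.comp (Filter.tendsto_add_atTop_nat 1)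
    have h5 := (h4.const_mul T).const_mul b
    rw [mul_one_div] at h5
    exact h5
  · rw [hT heq]
    simp

theorem cnd3 {w : Cn n} (hw : ‖w‖ = 1) {ι : Type*} [Fintype ι] (u : ι → Cn n)
    (hu : ∀ i, ‖u i‖ = 1) (huw : ∀ i, (inner ℝ (u i) w : ℝ) = 0) {b : ℝ} (h0 : 0 ≤ b)
    (h1 : b ≤ 1 / 3) (lam : ι → ℝ) (hl : ∑ i, lam i = 0) :
    ∑ i, ∑ j, lam i * lam j * K3 b w (u i) (u j) ≤ 0 := by
  have hww : (inner ℝ w w : ℝ) = 1 := by rw [real_inner_self_eq_norm_sq, hw]; norm_num
  have hwu : ∀ i, (inner ℝ w (u i) : ℝ) = 0 := fun i => by rw [real_inner_comm]; exact huw i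
  set a : ι → ℝ := fun i => om w (u i) with ha
  set t : ι → ι → ℝ := fun i k => (inner ℝ (u i) (u k) : ℝ) with ht
  set τ : ι → ι → ℝ := fun i k => om (u i) (u k) with hτ
  set v : ι → Cn n := fun i => u i - a i • (Complex.I • w) with hv
  set d : ι → Cn n := fun i => Complex.I • u i + a i • w with hd
  have hIw : (inner ℝ (Complex.I • w) (Complex.I • w) : ℝ) = 1 := by rw [inner_I, hww]
  have hsv : ∀ i k, (inner ℝ (v i) (v k) : ℝ) = t i k - a i * a k := by
    intro i k
    simp only [hv, inner_sub_left, inner_sub_right, real_inner_smul_left,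
      real_inner_smul_right, hIw, inner_I_right]
    rw [← om_eq w (u k)]
    simp only [ha, ht]
    ring
  have hdu : ∀ i k, (inner ℝ (d i) (u k) : ℝ) = τ i k := by
    intro i k
    simp only [hd, inner_add_left, real_inner_smul_left, hwu, hτ]
    rw [om_eq]
    ring
  have hud : ∀ i k, (inner ℝ (u i) (d k) : ℝ) = -τ i k := by
    intro i k
    rw [real_inner_comm, hdu]
    simp only [hτ]
    rw [om_swap]
  have hdd : ∀ i k, (inner ℝ (d i) (d k) : ℝ) = t i k - a i * a k := by
    intro i k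
    simp only [hd, inner_add_left, inner_add_right, real_inner_smul_left,
      real_inner_smul_right, hww]
    rw [inner_I, inner_I_right, ← om_eq (u i) w, om_swap w (u i), om_swap w (u k)]
    simp only [ha, ht]
    ring
  set s : ι → ι → ℝ := fun i k => t i k - a i * a k with hs
  have hsum : ∀ i k, a i * a k + s i k = t i k := fun i k => by simp only [hs]; ring
  have hps : ∀ l, ∀ c : ι → ℝ, 0 ≤ ∑ i, ∑ k, c i * c k * s i k ^ l := by
    intro l c
    refine (psd_pow v l c).trans (le_of_eq ?_)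
    simp only [hsv, hs]
  have hsym : ∀ i k, s i k = s k i := by
    intro i k
    simp only [hs, ht]
    rw [real_inner_comm]
    ring
  set T2 : ℕ → ℝ := fun m => ∑ i, ∑ k, lam i * lam k * τ i k ^ 2 * t i k ^ (2 * m) with hT2
  have hT : ∀ m : ℕ, (2 * m + 1) * T2 m ≤ x0 lam a s m - x1 lam a s m := by
    intro m
    have h2 := psd_der u d (2 * m) (fun _ => 0) lam
    simp only [hdu, hud, hdd] at h2
    have h3 : ∑ i, ∑ k, ((0 : ℝ) * 0 * (inner ℝ (u i) (u k) : ℝ) ^ (2 * m + 2) +
        (((2 * m : ℕ) : ℝ) + 2) * (0 * lam k * -τ i k + lam i * 0 * τ i k) *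
          (inner ℝ (u i) (u k) : ℝ) ^ (2 * m + 1) +
        lam i * lam k * ((((2 * m : ℕ) : ℝ) + 2) * (t i k - a i * a k) *
          (inner ℝ (u i) (u k) : ℝ) ^ (2 * m + 1) +
          (((2 * m : ℕ) : ℝ) + 2) * (((2 * m : ℕ) : ℝ) + 1) * (τ i k * -τ i k) *
            (inner ℝ (u i) (u k) : ℝ) ^ (2 * m))) =
        (2 * m + 2) * (x0 lam a s m - x1 lam a s m - (2 * m + 1) * T2 m) := by
      simp only [x0, x1, hT2, hsum]
      rw [← Finset.sum_sub_distrib, Finset.mul_sum, ← Finset.sum_sub_distrib, Finset.mul_sum]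
      refine Finset.sum_congr rfl fun i _ => ?_
      rw [← Finset.sum_sub_distrib, Finset.mul_sum, ← Finset.sum_sub_distrib, Finset.mul_sum]
      refine Finset.sum_congr rfl fun k _ => ?_
      have h4 : t i k = (inner ℝ (u i) (u k) : ℝ) := rfl
      rw [← h4]
      push_cast
      ring
    rw [h3] at h2
    have h5 : (0 : ℝ) < 2 * m + 2 := by positivity
    have h6 := nonneg_of_mul_nonneg_right h2 h5
    linarith
  have htle : ∀ i k, |t i k| ≤ 1 := by
    intro i k
    have := abs_real_inner_le_norm (u i) (u k)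
    rwa [hu, hu, one_mul] at this
  set T : ι → ι → ℝ := fun i k => a i ^ 2 + a k ^ 2 - 2 * (a i * a k) * t i k + τ i k ^ 2
    with hTd
  have hK : ∀ i k, K3 b w (u i) (u k) = √(1 - t i k ^ 2) + b * (T i k / √(1 - t i k ^ 2)) := by
    intro i k
    unfold K3
    rw [Gr_unit hw (hu i) (hu k) (huw i) (huw k), cv_unit hw (hu i) (hu k) (huw i) (huw k)]
  have hT0 : ∀ i k, |t i k| = 1 → T i k = 0 := by
    intro i k h2
    have h3 : t i k ^ 2 = 1 := by rw [← sq_abs, h2, one_pow]
    have h4 : u k = t i k • u i := by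
      have h5 : ‖u k - t i k • u i‖ ^ 2 = 0 := by
        rw [norm_sub_sq_real, norm_smul, hu, hu, real_inner_smul_right, Real.norm_eq_abs,
          mul_one, sq_abs]
        have h6 : (inner ℝ (u k) (u i) : ℝ) = t i k := real_inner_comm _ _
        rw [h6]
        nlinarith
      have h7 : ‖u k - t i k • u i‖ = 0 := by simpa using h5
      exact sub_eq_zero.1 (norm_eq_zero.1 h7)
    have h8 : τ i k = 0 := by
      simp only [hτ]
      rw [h4, om_smul_right, om_self, mul_zero]
    have h9 : a k = t i k * a i := by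
      simp only [ha]
      conv_lhs => rw [h4]
      rw [om_smul_right]
    simp only [hTd]
    rw [h8, h9]
    linear_combination (-(a i ^ 2)) * h3
  have hlim : Filter.Tendsto (fun K : ℕ => ∑ i, ∑ k, lam i * lam k *
      (1 - ∑ m ∈ Finset.range (K + 1), dd m / (2 * m + 2) * t i k ^ (2 * m + 2) +
        b * (T i k * ∑ m ∈ Finset.range (K + 1), dd m * t i k ^ (2 * m))))
      Filter.atTop (nhds (∑ i, ∑ k, lam i * lam k * K3 b w (u i) (u k))) := by
    refine tendsto_finsetSum _ fun i _ => tendsto_finsetSum _ fun k _ => ?_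
    rw [hK]
    exact (Cnd3_lim (htle i k) (hT0 i k)).const_mul _
  refine le_of_tendsto hlim (Filter.Eventually.of_forall fun K => ?_)
  -- the finite inequality
  set X := ∑ m ∈ Finset.range (K + 1), dd m / (2 * m + 2) * x0 lam a s m with hX
  set S' : ℕ → ℝ := fun m => ∑ i, ∑ k, lam i * lam k * a i ^ 2 * t i k ^ (2 * m) with hS'
  set R := ∑ m ∈ Finset.range (K + 1), dd m * (2 * S' m - 2 * x1 lam a s m + T2 m) with hR
  have hX0 : 0 ≤ X := by
    refine Finset.sum_nonneg fun m _ => mul_nonneg (CndB_w m).le ?_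
    refine (psd_pow u (2 * m + 2) lam).trans (le_of_eq ?_)
    simp only [x0, hsum]
    rfl
  have hfin := CndB_fin hsym hps lam a T2 hT K
  have hS0 : S' 0 = 0 := by
    have h2 : S' 0 = (∑ i, lam i * a i ^ 2) * ∑ k, lam k := by
      rw [Finset.sum_mul_sum]
      simp only [hS']
      refine Finset.sum_congr rfl fun i _ => Finset.sum_congr rfl fun k _ => ?_
      ring
    rw [h2, hl, mul_zero]
  have hS1 : ∀ m, S' (m + 1) = x2 lam a s m := by
    intro m
    simp only [hS', x2, hsum]
    rfl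
  have hRX : R ≤ 3 * X := by
    have h2 : ∑ m ∈ Finset.range (K + 1), dd m / (2 * m + 2) * (3 * x0 lam a s m +
      2 * ((2 * m + 2) * x1 lam a s m) - (2 * m + 2) * T2 m) -
      ∑ m ∈ Finset.range K, dd m / (2 * m + 2) * (2 * ((2 * m + 1) * x2 lam a s m)) =
      3 * X - R := by
      have h3 : ∑ m ∈ Finset.range (K + 1), dd m * (2 * S' m) =
          ∑ m ∈ Finset.range K, dd m / (2 * m + 2) * (2 * ((2 * m + 1) * x2 lam a s m)) := by
        rw [Finset.sum_range_succ', hS0, mul_zero, mul_zero, add_zero]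
        refine Finset.sum_congr rfl fun m _ => ?_
        rw [hS1, dd_succ]
        ring
      rw [← h3, hX, hR, Finset.mul_sum, ← Finset.sum_sub_distrib, ← Finset.sum_sub_distrib]
      refine Finset.sum_congr rfl fun m _ => ?_
      have h4 : (2 * (m : ℝ) + 2) ≠ 0 := by positivity
      field_simp
      ring
    rw [h2] at hfin
    linarith
  have hF : ∑ i, ∑ k, lam i * lam k *
      (1 - ∑ m ∈ Finset.range (K + 1), dd m / (2 * m + 2) * t i k ^ (2 * m + 2) +
        b * (T i k * ∑ m ∈ Finset.range (K + 1), dd m * t i k ^ (2 * m))) = -X + b * R := by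
    have e1 : ∑ i, ∑ k, lam i * lam k * ∑ m ∈ Finset.range (K + 1),
        dd m / (2 * m + 2) * t i k ^ (2 * m + 2) = X := by
      rw [CndB_sum3 (Finset.range (K + 1)) (fun i k => lam i * lam k)
        (fun m i k => t i k ^ (2 * m + 2)) (fun m => dd m / (2 * m + 2))]
      simp only [hX, x0, hsum]
    have e2 : ∑ i, ∑ k, lam i * lam k * (T i k * ∑ m ∈ Finset.range (K + 1),
        dd m * t i k ^ (2 * m)) = R := by
      have e3 : ∀ i k, lam i * lam k * (T i k * ∑ m ∈ Finset.range (K + 1),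
        dd m * t i k ^ (2 * m)) = (lam i * lam k * T i k) * ∑ m ∈ Finset.range (K + 1),
        dd m * t i k ^ (2 * m) := fun i k => by ring
      simp only [e3]
      rw [CndB_sum3 (Finset.range (K + 1)) (fun i k => lam i * lam k * T i k)
        (fun m i k => t i k ^ (2 * m)) dd, hR]
      refine Finset.sum_congr rfl fun m _ => ?_
      congr 1
      have e4 : ∑ i, ∑ k, lam i * lam k * a k ^ 2 * t i k ^ (2 * m) = S' m := by
        rw [Finset.sum_comm]
        simp only [hS']
        refine Finset.sum_congr rfl fun i _ => Finset.sum_congr rfl fun k _ => ?_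
        have e5 : t k i = t i k := real_inner_comm _ _
        rw [e5]
        ring
      have e6 : ∑ i, ∑ k, lam i * lam k * T i k * t i k ^ (2 * m) =
          S' m + (∑ i, ∑ k, lam i * lam k * a k ^ 2 * t i k ^ (2 * m)) -
            2 * x1 lam a s m + T2 m := by
        simp only [hS', x1, hT2, hsum, Finset.mul_sum]
        rw [← Finset.sum_add_distrib, ← Finset.sum_sub_distrib, ← Finset.sum_add_distrib]
        refine Finset.sum_congr rfl fun i _ => ?_
        rw [← Finset.sum_add_distrib, ← Finset.sum_sub_distrib, ← Finset.sum_add_distrib]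
        refine Finset.sum_congr rfl fun k _ => ?_
        simp only [hTd]
        ring
      rw [e6, e4]
      ring
    have e7 : ∑ i, ∑ k, lam i * lam k *
      (1 - ∑ m ∈ Finset.range (K + 1), dd m / (2 * m + 2) * t i k ^ (2 * m + 2) +
        b * (T i k * ∑ m ∈ Finset.range (K + 1), dd m * t i k ^ (2 * m))) =
      (∑ i, ∑ k, lam i * lam k) -
        (∑ i, ∑ k, lam i * lam k * ∑ m ∈ Finset.range (K + 1),
        dd m / (2 * m + 2) * t i k ^ (2 * m + 2)) +
        b * (∑ i, ∑ k, lam i * lam k * (T i k * ∑ m ∈ Finset.range (K + 1),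
        dd m * t i k ^ (2 * m))) := by
      rw [Finset.mul_sum _ _ b, ← Finset.sum_sub_distrib, ← Finset.sum_add_distrib]
      refine Finset.sum_congr rfl fun i _ => ?_
      rw [Finset.mul_sum _ _ b, ← Finset.sum_sub_distrib, ← Finset.sum_add_distrib]
      refine Finset.sum_congr rfl fun k _ => ?_
      ring
    have e8 : ∑ i, ∑ k, lam i * lam k = 0 := by
      rw [← Finset.sum_mul_sum, hl, zero_mul]
    rw [e7, e1, e2, e8]
    ring
  rw [hF]
  have h2 : b * R ≤ b * (3 * X) := mul_le_mul_of_nonneg_left hRX h0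
  nlinarith

end Pool.Agent.H35.T3
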