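import Mathlib
import Pool.Agent.H35.T3.Cnd3
import Pool.Agent.H89.CZ.KCnd

set_option autoImplicit false

/-!
# Hyp3: the Lorentzian property of `K3 b w`

For `w = 0` both `Gr` and `cv` vanish.  Let `w ≠ 0`, `w = s w1`, `‖w1‖ = 1`; for `p` let `p'` be
its component orthogonal to `w`; `K3 b w p q = s K3 b w1 p' q'` (`Gr`, `‖cv‖²` are unchanged when a
multiple of `w` is added to `p` or `q`), and `p' = ‖p'‖ p''` with `p''` a unit vector orthogonal to
`w` (if `p' = 0` take any unit vector orthogonal to `w`; `n ≥ 1`).  `K3` is homogeneous.  Then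
`hyperbolic` (`H89/CZ/KCnd.lean`) with `l j = ‖(p j)'‖` and `cnd3`; see `ker_cnd`, `ker_hyp` there.
`K3 ≥ 0` as `b ≥ 0`.
-/

open MeasureTheory Pool.Agent.H61.UProj Pool.Agent.H89.CZ

noncomputable section

namespace Pool.Agent.H35.T3

variable {n : ℕ}

private theorem Hyp3_cv (r c s d t : ℝ) (a e f : Cn n) :
    cv ![r • a, c • a + s • e, d • a + t • f] = (r * s * t) • cv ![a, e, f] := by
  have h0 : ∀ x y z : Cn n, cv ![x, y, z] = om y z • x + om z x • y + om x y • z :=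
    fun x y z => rfl
  rw [h0, h0]
  simp only [om_add_left, om_add_right, om_smul_left, om_smul_right, om_self]
  rw [om_swap a e, om_swap a f]
  module

private theorem Hyp3_Gr (r c s d t : ℝ) (a e f : Cn n) :
    Gr ![r • a, c • a + s • e, d • a + t • f] = (r * s * t) ^ 2 * Gr ![a, e, f] := by
  have h0 : ∀ x y z : Cn n, Gr ![x, y, z] = tri x y z x y z := fun x y z => rfl
  rw [h0, h0]
  simp only [tri, pair2, inner_add_left, inner_add_right, real_inner_smul_left,
    real_inner_smul_right, real_inner_comm a e, real_inner_comm a f, real_inner_comm e f]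
  ring

private theorem Hyp3_K3 (b : ℝ) {r s t : ℝ} (hr : 0 ≤ r) (hs : 0 ≤ s) (ht : 0 ≤ t) (c d : ℝ)
    (a e f : Cn n) :
    K3 b (r • a) (c • a + s • e) (d • a + t • f) = r * s * t * K3 b a e f := by
  have hx : 0 ≤ r * s * t := mul_nonneg (mul_nonneg hr hs) ht
  rw [K3, K3, Hyp3_cv, Hyp3_Gr, norm_smul, Real.norm_eq_abs, abs_of_nonneg hx,
    Real.sqrt_mul (sq_nonneg _), Real.sqrt_sq hx]
  rcases hx.eq_or_lt with h | h
  · rw [← h]
    simp
  · have e1 : (r * s * t * ‖cv ![a, e, f]‖) ^ 2 / (r * s * t * √(Gr ![a, e, f])) =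
        r * s * t * (‖cv ![a, e, f]‖ ^ 2 / √(Gr ![a, e, f])) := by
      rw [mul_pow, sq (r * s * t), mul_assoc, mul_div_mul_left _ _ h.ne', mul_div_assoc]
    rw [e1]
    ring

private theorem Hyp3_symm (b : ℝ) (w u v : Cn n) : K3 b w u v = K3 b w v u := by
  have h1 : Gr ![w, u, v] = Gr ![w, v, u] := by
    change tri w u v w u v = tri w v u w v u
    simp only [tri, pair2]
    ring
  have h2 : cv ![w, u, v] = -cv ![w, v, u] := by
    change om u v • w + om v w • u + om w u • v = -(om v u • w + om u w • v + om w v • u)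
    rw [om_swap u v, om_swap w v, om_swap w u]
    module
  rw [K3, K3, h1, h2, norm_neg]

private theorem Hyp3_nonneg {b : ℝ} (h0 : 0 ≤ b) (w u v : Cn n) : 0 ≤ K3 b w u v := by
  rw [K3]
  positivity

private theorem Hyp3_zero (b : ℝ) (u v : Cn n) : K3 b 0 u v = 0 := by
  have h := Hyp3_K3 b (le_refl (0 : ℝ)) zero_le_one zero_le_one 0 0 (0 : Cn n) u v
  simpa using h

/-- decomposition of a vector along a unit vector -/
private theorem Hyp3_dec {w : Cn n} (hw : ‖w‖ = 1) (p : Cn n) :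
    ∃ (c s : ℝ) (e : Cn n), 0 ≤ s ∧ ‖e‖ = 1 ∧ (inner ℝ e w : ℝ) = 0 ∧ p = c • w + s • e := by
  have hww : (inner ℝ w w : ℝ) = 1 := by
    rw [real_inner_self_eq_norm_sq, hw, one_pow]
  rcases eq_or_ne (p - (inner ℝ p w : ℝ) • w) 0 with h | h
  · refine ⟨inner ℝ p w, 0, Complex.I • w, le_refl 0, ?_, ?_, ?_⟩
    · rw [norm_smul, Complex.norm_I, one_mul, hw]
    · rw [re_inner, inner_smul_left, inner_self_eq_norm_sq_to_K, hw]
      simp
    · rw [zero_smul, add_zero]
      exact sub_eq_zero.1 h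
  · have hn : ‖p - (inner ℝ p w : ℝ) • w‖ ≠ 0 := norm_ne_zero_iff.2 h
    refine ⟨inner ℝ p w, ‖p - (inner ℝ p w : ℝ) • w‖,
      ‖p - (inner ℝ p w : ℝ) • w‖⁻¹ • (p - (inner ℝ p w : ℝ) • w), norm_nonneg _, ?_, ?_, ?_⟩
    · rw [norm_smul, norm_inv, norm_norm, inv_mul_cancel₀ hn]
    · rw [real_inner_smul_left, inner_sub_left, real_inner_smul_left, hww]
      ring
    · rw [smul_smul, mul_inv_cancel₀ hn, one_smul]
      abel

theorem hyp3 (w : Cn n) {ι : Type*} [Fintype ι] (p : ι → Cn n) {b : ℝ} (h0 : 0 ≤ b)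
    (h1 : b ≤ 1 / 3) (u t : ι → ℝ) (ht : ∀ j, 0 ≤ t j) :
    (∑ i, ∑ j, u i * u j * K3 b w (p i) (p j)) *
        (∑ i, ∑ j, t i * t j * K3 b w (p i) (p j)) ≤
      (∑ i, ∑ j, u i * t j * K3 b w (p i) (p j)) ^ 2 := by
  rcases eq_or_ne w 0 with rfl | hw
  · simp [Hyp3_zero]
  · have hn : ‖w‖ ≠ 0 := norm_ne_zero_iff.2 hw
    set a : Cn n := ‖w‖⁻¹ • w with ha
    have ha1 : ‖a‖ = 1 := by
      rw [ha, norm_smul, norm_inv, norm_norm, inv_mul_cancel₀ hn]
    have hwa : w = ‖w‖ • a := by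
      rw [ha, smul_smul, mul_inv_cancel₀ hn, one_smul]
    choose c s e hs he hea hp using fun j => Hyp3_dec ha1 (p j)
    have hK : ∀ i j, K3 b w (p i) (p j) = ‖w‖ * (s i * s j * K3 b a (e i) (e j)) := by
      intro i j
      have h := Hyp3_K3 b (norm_nonneg w) (hs i) (hs j) (c i) (c j) a (e i) (e j)
      rw [← hwa, ← hp i, ← hp j] at h
      rw [h]
      ring
    refine hyperbolic (fun i j => K3 b w (p i) (p j)) (fun i j => Hyp3_symm b w _ _) s ?_ u t ?_
    · intro v hv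
      have h2 := cnd3 ha1 e he hea h0 h1 (fun j => v j * s j) hv
      have h3 : ∑ i, ∑ j, v i * v j * K3 b w (p i) (p j) =
          ‖w‖ * ∑ i, ∑ j, v i * s i * (v j * s j) * K3 b a (e i) (e j) := by
        rw [Finset.mul_sum]
        refine Finset.sum_congr rfl fun i _ => ?_
        rw [Finset.mul_sum]
        refine Finset.sum_congr rfl fun j _ => ?_
        rw [hK i j]
        ring
      rw [h3]
      exact mul_nonpos_of_nonneg_of_nonpos (norm_nonneg w) h2
    · refine Finset.sum_nonneg fun i _ => Finset.sum_nonneg fun j _ => ?_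
      exact mul_nonneg (mul_nonneg (ht i) (ht j)) (Hyp3_nonneg h0 _ _ _)

end Pool.Agent.H35.T3
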