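import Mathlib
import Pool.Agent.H35.T3.Lin3
import Pool.Agent.H89.CZ.TBall

set_option autoImplicit false

/-!
# Ball3: two integrals over the unit ball

For a real orthonormal pair `a` and `p ∈ ℂⁿ` let `p'` be the component of `p` orthogonal to
`a0, a1`.  `Gr ![a0, a1, p] = ‖p‖² - ⟨a0,p⟩² - ⟨a1,p⟩² = ‖p'‖²`,
`‖cv ![a0, a1, p]‖² = y ‖p'‖² + (om a0 p')² + (om a1 p')²`, `y = om (a0) (a1) ^ 2`
(`cv = om a1 p • a0 + om p a0 • a1 + om a0 a1 • p`; it is unchanged if `p` is replaced by `p'`).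
`om a0 p' = ⟨i a0, p'⟩ = ⟨b, p⟩` where `b` is the component of `i a0` orthogonal to `a0, a1`,
`‖b‖² = 1 - y`; the same for `a1`.  By the argument of `ball_r` (swapping two vectors of an
orthonormal basis which extends `a0, a1`), for `b` orthogonal to `a0, a1`:
`∫_B ⟨b,p⟩²/‖p'‖ dp = ‖b‖²/(2n-2) ∫_B ‖p'‖ dp`.  Sum: `y + 2 (1-y)/(2n-2)`.
The value of `∫_B ‖p'‖` does not depend on `a` (`TBall_trans`, as in `ball_pair`) and is positive.
The private lemmas `TBall_iso`, `TBall_ext`, `TBall_trans`, `TBall_intOn`, `TBall_pos` of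
`H89/CZ/TBall.lean` are copied.
-/

open MeasureTheory Pool.Agent.H61.UProj Pool.Agent.H89.CZ

noncomputable section

namespace Pool.Agent.H35.T3

variable {n : ℕ}

/-! ### Copied lemmas -/

/-- change of variables by a real isometry -/
private theorem Ball3_iso (T : Cn n ≃ₗᵢ[ℝ] Cn n) (f : Cn n → ℝ) :
    ∫ q in Metric.closedBall (0 : Cn n) 1, f (T q) =
      ∫ q in Metric.closedBall (0 : Cn n) 1, f q := by
  have h1 := T.measurePreserving.setIntegral_preimage_emb
    T.toHomeomorph.measurableEmbedding f (Metric.closedBall (0 : Cn n) 1)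
  have h2 : (T : Cn n → Cn n) ⁻¹' Metric.closedBall (0 : Cn n) 1 =
      Metric.closedBall (0 : Cn n) 1 := by
    ext q
    simp
  rw [h2] at h1
  exact h1

private theorem Ball3_finrank (n : ℕ) : Module.finrank ℝ (Cn n) = 2 * n := by
  rw [← Module.finrank_mul_finrank ℝ ℂ (Cn n)]
  simp

/-- an orthonormal family extends to an orthonormal basis -/
private theorem Ball3_ext {k : ℕ} {a : Fin k → Cn n} (ha : Orthonormal ℝ a) :
    ∃ (hk : k ≤ 2 * n) (b : OrthonormalBasis (Fin (2 * n)) ℝ (Cn n)),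
      ∀ i : Fin k, b (Fin.castLE hk i) = a i := by
  have hk : k ≤ 2 * n := by
    have h1 := ha.linearIndependent.fintype_card_le_finrank
    rw [Ball3_finrank, Fintype.card_fin] at h1
    exact h1
  refine ⟨hk, ?_⟩
  have h2 : Orthonormal ℝ (Set.domRestrict {j : Fin (2 * n) | j.val < k}
      (fun j : Fin (2 * n) => if h : j.val < k then a ⟨j.val, h⟩ else 0)) := by
    have h3 : (Set.domRestrict {j : Fin (2 * n) | j.val < k}
      (fun j : Fin (2 * n) => if h : j.val < k then a ⟨j.val, h⟩ else 0)) =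
        a ∘ (fun j : {j : Fin (2 * n) | j.val < k} => ⟨j.val.val, j.2⟩) := by
      funext j
      have hj : j.val.val < k := j.2
      simp [Set.domRestrict, hj]
    rw [h3]
    refine ha.comp _ ?_
    intro x y hxy
    have h4 : x.val.val = y.val.val := by
      have h6 := congrArg Fin.val hxy
      exact h6
    exact Subtype.ext (Fin.ext h4)
  obtain ⟨b, hb⟩ := h2.exists_orthonormalBasis_extension_of_card_eq
    (by rw [Ball3_finrank, Fintype.card_fin])
  refine ⟨b, fun i => ?_⟩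
  have h5 := hb (Fin.castLE hk i) i.2
  rw [h5]
  simp

private theorem Ball3_trans {k : ℕ} {a a' : Fin k → Cn n} (ha : Orthonormal ℝ a)
    (ha' : Orthonormal ℝ a') : ∃ T : Cn n ≃ₗᵢ[ℝ] Cn n, ∀ i, T (a i) = a' i := by
  obtain ⟨hk, b, hb⟩ := Ball3_ext ha
  obtain ⟨hk', b', hb'⟩ := Ball3_ext ha'
  refine ⟨b.equiv b' (Equiv.refl _), fun i => ?_⟩
  rw [← hb i, OrthonormalBasis.equiv_apply_basis, Equiv.refl_apply, hb' i]

private theorem Ball3_intOn {f : Cn n → ℝ} (hf : Measurable f) (C : ℝ)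
    (hC : ∀ q ∈ Metric.closedBall (0 : Cn n) 1, |f q| ≤ C) :
    IntegrableOn f (Metric.closedBall (0 : Cn n) 1) := by
  refine Measure.integrableOn_of_bounded (M := C) (measure_closedBall_lt_top).ne
    hf.aestronglyMeasurable ?_
  refine (ae_restrict_iff' measurableSet_closedBall).2 (Filter.Eventually.of_forall ?_)
  intro q hq
  rw [Real.norm_eq_abs]
  exact hC q hq

private theorem Ball3_pos {f : Cn n → ℝ} (hf : Continuous f) (h0 : ∀ q, 0 ≤ f q) (C : ℝ)
    (hC : ∀ q ∈ Metric.closedBall (0 : Cn n) 1, |f q| ≤ C) (q0 : Cn n) (hq0 : ‖q0‖ < 1)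
    (hf0 : f q0 ≠ 0) : 0 < ∫ q in Metric.closedBall (0 : Cn n) 1, f q := by
  rw [setIntegral_pos_iff_support_of_nonneg_ae (Filter.Eventually.of_forall h0)
    (Ball3_intOn hf.measurable C hC)]
  have hopen : IsOpen (Function.support f ∩ Metric.ball (0 : Cn n) 1) :=
    hf.isOpen_support.inter Metric.isOpen_ball
  refine (hopen.measure_pos volume ⟨q0, hf0, by simpa using hq0⟩).trans_le ?_
  exact measure_mono (Set.inter_subset_inter_right _ Metric.ball_subset_closedBall)

private theorem Ball3_om (e q : Cn n) : om e q = inner ℝ (Complex.I • e) q := by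
  unfold om
  rw [real_inner_eq, PiLp.inner_apply, Complex.im_sum, Complex.re_sum]
  refine Finset.sum_congr rfl (fun j _ => ?_)
  have h1 : (Complex.I • e) j = Complex.I * e j := rfl
  have h2 : inner ℂ (e j) (q j) = (starRingEnd ℂ) (e j) * q j := by
    rw [RCLike.inner_apply, mul_comm]
  rw [h1, h2, map_mul, Complex.conj_I]
  simp only [Complex.mul_re, Complex.mul_im, Complex.neg_re, Complex.neg_im, Complex.I_re,
    Complex.I_im]
  ring

/-! ### The distance to the plane of the pair -/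

/-- distance to the real plane spanned by the orthonormal pair `a` -/
private def rr (a : Fin 2 → Cn n) (q : Cn n) : ℝ :=
  √(‖q‖ ^ 2 - (inner ℝ (a 0) q : ℝ) ^ 2 - (inner ℝ (a 1) q : ℝ) ^ 2)

private theorem Ball3_rr0 (a : Fin 2 → Cn n) (q : Cn n) : 0 ≤ rr a q := Real.sqrt_nonneg _

private theorem Ball3_four {a : Fin 2 → Cn n} (ha : Orthonormal ℝ a) :
    (inner ℝ (a 0) (a 0) : ℝ) = 1 ∧ (inner ℝ (a 0) (a 1) : ℝ) = 0 ∧
      (inner ℝ (a 1) (a 0) : ℝ) = 0 ∧ (inner ℝ (a 1) (a 1) : ℝ) = 1 := by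
  have h := orthonormal_iff_ite.1 ha
  refine ⟨?_, ?_, ?_, ?_⟩
  · rw [h, if_pos rfl]
  · rw [h, if_neg (by decide)]
  · rw [h, if_neg (by decide)]
  · rw [h, if_pos rfl]

private theorem Ball3_cont (a : Fin 2 → Cn n) : Continuous (fun q : Cn n => rr a q) := by
  unfold rr
  exact (((continuous_norm.pow 2).sub ((continuous_const.inner continuous_id).pow 2)).sub
    ((continuous_const.inner continuous_id).pow 2)).sqrt

private theorem Ball3_Gr {a : Fin 2 → Cn n} (ha : Orthonormal ℝ a) (p : Cn n) :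
    Gr ![a 0, a 1, p] =
      ‖p‖ ^ 2 - (inner ℝ (a 0) p : ℝ) ^ 2 - (inner ℝ (a 1) p : ℝ) ^ 2 := by
  obtain ⟨h00, h01, h10, h11⟩ := Ball3_four ha
  have hp := real_inner_self_eq_norm_sq p
  simp only [Gr, tri, pair2, Matrix.cons_val_zero, Matrix.cons_val_one, Matrix.cons_val, h00,
    h01, h10, h11, real_inner_comm (a 0) p, real_inner_comm (a 1) p, hp]
  ring

private theorem Ball3_nonneg {a : Fin 2 → Cn n} (ha : Orthonormal ℝ a) (p : Cn n) :
    0 ≤ ‖p‖ ^ 2 - (inner ℝ (a 0) p : ℝ) ^ 2 - (inner ℝ (a 1) p : ℝ) ^ 2 := by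
  obtain ⟨hk, b, hb⟩ := Ball3_ext ha
  have h1 := b.sum_sq_norm_inner_right p
  have hne : Fin.castLE hk 1 ∈ Finset.univ.erase (Fin.castLE hk 0) := by
    rw [Finset.mem_erase]
    refine ⟨fun h => ?_, Finset.mem_univ _⟩
    have := congrArg Fin.val h
    simp at this
  rw [← Finset.add_sum_erase _ _ (Finset.mem_univ (Fin.castLE hk 0)),
    ← Finset.add_sum_erase _ _ hne] at h1
  simp only [Real.norm_eq_abs, sq_abs] at h1
  rw [hb 0, hb 1] at h1
  have h2 : 0 ≤ ∑ k ∈ (Finset.univ.erase (Fin.castLE hk 0)).erase (Fin.castLE hk 1),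
      (inner ℝ (b k) p : ℝ) ^ 2 := Finset.sum_nonneg (fun k _ => sq_nonneg _)
  linarith

private theorem Ball3_sq {a : Fin 2 → Cn n} (ha : Orthonormal ℝ a) (p : Cn n) :
    rr a p ^ 2 = ‖p‖ ^ 2 - (inner ℝ (a 0) p : ℝ) ^ 2 - (inner ℝ (a 1) p : ℝ) ^ 2 :=
  Real.sq_sqrt (Ball3_nonneg ha p)

private theorem Ball3_le {a : Fin 2 → Cn n} (ha : Orthonormal ℝ a) {q : Cn n}
    (hq : q ∈ Metric.closedBall (0 : Cn n) 1) : rr a q ≤ 1 := by
  have hq1 : ‖q‖ ≤ 1 := by simpa using hq
  have h3 : rr a q ^ 2 ≤ 1 := by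
    rw [Ball3_sq ha]
    nlinarith [sq_nonneg (inner ℝ (a 0) q : ℝ), sq_nonneg (inner ℝ (a 1) q : ℝ), norm_nonneg q]
  have h0 : 0 ≤ rr a q := Real.sqrt_nonneg _
  nlinarith

private theorem Ball3_int_rr {a : Fin 2 → Cn n} (ha : Orthonormal ℝ a) :
    IntegrableOn (fun q : Cn n => rr a q) (Metric.closedBall (0 : Cn n) 1) := by
  refine Ball3_intOn (Ball3_cont a).measurable 1 (fun q hq => ?_)
  rw [abs_of_nonneg (Ball3_rr0 a q)]
  exact Ball3_le ha hq

private theorem Ball3_indep {a a' : Fin 2 → Cn n} (ha : Orthonormal ℝ a)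
    (ha' : Orthonormal ℝ a') :
    ∫ q in Metric.closedBall (0 : Cn n) 1, rr a q =
      ∫ q in Metric.closedBall (0 : Cn n) 1, rr a' q := by
  obtain ⟨T, hT⟩ := Ball3_trans ha ha'
  rw [← Ball3_iso T (fun q => rr a' q)]
  refine integral_congr_ae (Filter.Eventually.of_forall (fun q => ?_))
  simp only [rr]
  rw [← hT 0, ← hT 1, LinearIsometryEquiv.inner_map_map, LinearIsometryEquiv.inner_map_map,
    LinearIsometryEquiv.norm_map]

/-- the swap argument for a unit vector orthogonal to the pair -/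
private theorem Ball3_unit {c : Fin 3 → Cn n} (hc : Orthonormal ℝ c) (hn : 2 ≤ n) :
    IntegrableOn (fun q : Cn n => (inner ℝ (c 2) q : ℝ) ^ 2 / rr ![c 0, c 1] q)
      (Metric.closedBall (0 : Cn n) 1) ∧
    ∫ q in Metric.closedBall (0 : Cn n) 1, (inner ℝ (c 2) q : ℝ) ^ 2 / rr ![c 0, c 1] q =
      (∫ q in Metric.closedBall (0 : Cn n) 1, rr ![c 0, c 1] q) / (2 * (n - 1)) := by
  have ha : Orthonormal ℝ ![c 0, c 1] := by
    have h1 : (![c 0, c 1] : Fin 2 → Cn n) = c ∘ ![(0 : Fin 3), 1] := by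
      funext i
      fin_cases i <;> rfl
    rw [h1]
    refine hc.comp _ ?_
    intro i j hij
    fin_cases i <;> fin_cases j <;> first | rfl | exact absurd hij (by decide)
  set a : Fin 2 → Cn n := ![c 0, c 1] with had
  have ha0 : a 0 = c 0 := rfl
  have ha1 : a 1 = c 1 := rfl
  obtain ⟨hk, b, hb⟩ := Ball3_ext hc
  set i0 : Fin (2 * n) := Fin.castLE hk 0 with hi0
  set i1 : Fin (2 * n) := Fin.castLE hk 1 with hi1
  set i2 : Fin (2 * n) := Fin.castLE hk 2 with hi2
  have hb0 : b i0 = a 0 := hb 0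
  have hb1 : b i1 = a 1 := hb 1
  have hb2 : b i2 = c 2 := hb 2
  have hne01 : i0 ≠ i1 := by
    intro h
    have := congrArg Fin.val h
    simp [hi0, hi1] at this
  have hne02 : i0 ≠ i2 := by
    intro h
    have := congrArg Fin.val h
    simp [hi0, hi2] at this
  have hne12 : i1 ≠ i2 := by
    intro h
    have := congrArg Fin.val h
    simp [hi1, hi2] at this
  have hm1 : i1 ∈ Finset.univ.erase i0 := Finset.mem_erase.2 ⟨hne01.symm, Finset.mem_univ _⟩
  set W := (Finset.univ.erase i0).erase i1 with hW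
  have hsum : ∀ q : Cn n, ∑ k ∈ W, (inner ℝ (b k) q : ℝ) ^ 2 = rr a q ^ 2 := by
    intro q
    have h1 := b.sum_sq_norm_inner_right q
    rw [← Finset.add_sum_erase _ _ (Finset.mem_univ i0),
      ← Finset.add_sum_erase _ _ hm1] at h1
    simp only [Real.norm_eq_abs, sq_abs] at h1
    rw [hb0, hb1] at h1
    rw [Ball3_sq ha]
    linarith
  have hr0 : ∀ q : Cn n, 0 ≤ rr a q := fun q => Real.sqrt_nonneg _
  have hint : ∀ k ∈ W, IntegrableOn (fun q : Cn n => (inner ℝ (b k) q : ℝ) ^ 2 / rr a q)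
      (Metric.closedBall (0 : Cn n) 1) := by
    intro k hk0
    refine Ball3_intOn ?_ 1 ?_
    · exact (((continuous_const.inner continuous_id).pow 2).measurable).div
        (Ball3_cont a).measurable
    · intro q hq
      have h1 : (inner ℝ (b k) q : ℝ) ^ 2 ≤ rr a q ^ 2 := by
        rw [← hsum q]
        exact Finset.single_le_sum (f := fun k => (inner ℝ (b k) q : ℝ) ^ 2)
          (fun k _ => sq_nonneg _) hk0
      have h2 : rr a q ≤ 1 := Ball3_le ha hq
      rw [abs_of_nonneg (div_nonneg (sq_nonneg _) (hr0 q))]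
      rcases (hr0 q).eq_or_lt with h4 | h4
      · rw [← h4, div_zero]
        exact zero_le_one
      · rw [div_le_one h4]
        nlinarith
  have hW2 : i2 ∈ W := Finset.mem_erase.2 ⟨hne12.symm, Finset.mem_erase.2
    ⟨hne02.symm, Finset.mem_univ _⟩⟩
  -- the swaps
  have hswap : ∀ k ∈ W,
      ∫ q in Metric.closedBall (0 : Cn n) 1, (inner ℝ (b k) q : ℝ) ^ 2 / rr a q =
        ∫ q in Metric.closedBall (0 : Cn n) 1, (inner ℝ (c 2) q : ℝ) ^ 2 / rr a q := by
    intro k hk0
    have hk1 : k ≠ i1 := Finset.ne_of_mem_erase hk0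
    have hk0' : k ≠ i0 := Finset.ne_of_mem_erase (Finset.mem_of_mem_erase hk0)
    set T := b.equiv b (Equiv.swap i2 k) with hT
    have hTa0 : T (a 0) = a 0 := by
      have h1 : T (b i0) = b (Equiv.swap i2 k i0) := OrthonormalBasis.equiv_apply_basis _ _ _ _
      rw [Equiv.swap_apply_of_ne_of_ne hne02 (Ne.symm hk0'), hb0] at h1
      exact h1
    have hTa1 : T (a 1) = a 1 := by
      have h1 : T (b i1) = b (Equiv.swap i2 k i1) := OrthonormalBasis.equiv_apply_basis _ _ _ _
      rw [Equiv.swap_apply_of_ne_of_ne hne12 (Ne.symm hk1), hb1] at h1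
      exact h1
    have hT2 : T (b i2) = b k := by
      have h1 : T (b i2) = b (Equiv.swap i2 k i2) := OrthonormalBasis.equiv_apply_basis _ _ _ _
      rw [Equiv.swap_apply_left] at h1
      exact h1
    rw [← Ball3_iso T (fun q => (inner ℝ (b k) q : ℝ) ^ 2 / rr a q)]
    refine integral_congr_ae (Filter.Eventually.of_forall (fun q => ?_))
    have h2 : (inner ℝ (b k) (T q) : ℝ) = inner ℝ (c 2) q := by
      rw [← hT2, LinearIsometryEquiv.inner_map_map, hb2]
    have h3 : rr a (T q) = rr a q := by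
      unfold rr
      have e0 : (inner ℝ (a 0) (T q) : ℝ) = inner ℝ (a 0) q := by
        conv_lhs => rw [← hTa0]
        rw [LinearIsometryEquiv.inner_map_map]
      have e1 : (inner ℝ (a 1) (T q) : ℝ) = inner ℝ (a 1) q := by
        conv_lhs => rw [← hTa1]
        rw [LinearIsometryEquiv.inner_map_map]
      rw [LinearIsometryEquiv.norm_map, e0, e1]
    simp only [h2, h3]
  have hcard : (W.card : ℝ) = 2 * (n - 1) := by
    rw [Finset.card_erase_of_mem hm1, Finset.card_erase_of_mem (Finset.mem_univ _),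
      Finset.card_univ, Fintype.card_fin, Nat.cast_sub (by omega), Nat.cast_sub (by omega)]
    push_cast
    ring
  have htot : ∑ k ∈ W,
      ∫ q in Metric.closedBall (0 : Cn n) 1, (inner ℝ (b k) q : ℝ) ^ 2 / rr a q =
        ∫ q in Metric.closedBall (0 : Cn n) 1, rr a q := by
    rw [← integral_finsetSum _ hint]
    refine integral_congr_ae (Filter.Eventually.of_forall (fun q => ?_))
    simp only
    rw [← Finset.sum_div, hsum q]
    rcases (hr0 q).eq_or_lt with h4 | h4
    · rw [← h4]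
      simp
    · field_simp
  refine ⟨?_, ?_⟩
  · have h := hint i2 hW2
    rw [hb2] at h
    exact h
  · rw [Finset.sum_congr rfl hswap, Finset.sum_const, nsmul_eq_mul, hcard] at htot
    have hpos : (2 * ((n : ℝ) - 1)) ≠ 0 := by
      have : (2 : ℝ) ≤ n := by exact_mod_cast hn
      have : 0 < 2 * ((n : ℝ) - 1) := by linarith
      exact this.ne'
    rw [eq_div_iff hpos, ← htot]
    ring

/-- a vector orthogonal to the pair -/
private theorem Ball3_vec {a : Fin 2 → Cn n} (ha : Orthonormal ℝ a) (hn : 2 ≤ n) {u : Cn n}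
    (h0 : inner ℝ (a 0) u = (0 : ℝ)) (h1 : inner ℝ (a 1) u = (0 : ℝ)) :
    IntegrableOn (fun q : Cn n => (inner ℝ u q : ℝ) ^ 2 / rr a q)
      (Metric.closedBall (0 : Cn n) 1) ∧
    ∫ q in Metric.closedBall (0 : Cn n) 1, (inner ℝ u q : ℝ) ^ 2 / rr a q =
      ‖u‖ ^ 2 * ((∫ q in Metric.closedBall (0 : Cn n) 1, rr a q) / (2 * (n - 1))) := by
  rcases eq_or_ne u 0 with rfl | hu
  · simp
  · have hu0 : ‖u‖ ≠ 0 := norm_ne_zero_iff.2 hu
    set w : Cn n := ‖u‖⁻¹ • u with hw
    have hw1 : ‖w‖ = 1 := by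
      rw [hw, norm_smul, norm_inv, norm_norm, inv_mul_cancel₀ hu0]
    have hua : u = ‖u‖ • w := by
      rw [hw, smul_smul, mul_inv_cancel₀ hu0, one_smul]
    have w0 : inner ℝ (a 0) w = (0 : ℝ) := by rw [hw, real_inner_smul_right, h0, mul_zero]
    have w1 : inner ℝ (a 1) w = (0 : ℝ) := by rw [hw, real_inner_smul_right, h1, mul_zero]
    have hc : Orthonormal ℝ ![a 0, a 1, w] := by
      have w0' : inner ℝ w (a 0) = (0 : ℝ) := by rw [real_inner_comm]; exact w0
      have w1' : inner ℝ w (a 1) = (0 : ℝ) := by rw [real_inner_comm]; exact w1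
      obtain ⟨h00, h01, h10, h11⟩ := Ball3_four ha
      have hww : (inner ℝ w w : ℝ) = 1 := by rw [real_inner_self_eq_norm_sq, hw1, one_pow]
      rw [orthonormal_iff_ite]
      intro i j
      fin_cases i <;> fin_cases j
      · rw [if_pos rfl]; exact h00
      · rw [if_neg (by decide)]; exact h01
      · rw [if_neg (by decide)]; exact w0
      · rw [if_neg (by decide)]; exact h10
      · rw [if_pos rfl]; exact h11
      · rw [if_neg (by decide)]; exact w1
      · rw [if_neg (by decide)]; exact w0'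
      · rw [if_neg (by decide)]; exact w1'
      · rw [if_pos rfl]; exact hww
    obtain ⟨e1, e2⟩ := Ball3_unit hc hn
    have hf : ∀ q : Cn n, (inner ℝ u q : ℝ) ^ 2 / rr a q =
        ‖u‖ ^ 2 * ((inner ℝ w q : ℝ) ^ 2 / rr a q) := by
      intro q
      have : (inner ℝ u q : ℝ) = ‖u‖ * inner ℝ w q := by
        conv_lhs => rw [hua]
        rw [real_inner_smul_left]
      rw [this, mul_pow, mul_div_assoc]
    have haa : (![a 0, a 1] : Fin 2 → Cn n) = a := by
      funext i
      fin_cases i <;> rfl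
    simp only [Matrix.cons_val_zero, Matrix.cons_val_one, Matrix.cons_val, haa] at e1 e2
    simp only [hf]
    refine ⟨Integrable.const_mul e1 _, ?_⟩
    rw [integral_const_mul, e2]

private theorem Ball3_cv {a : Fin 2 → Cn n} (ha : Orthonormal ℝ a) (p : Cn n) :
    ‖cv ![a 0, a 1, p]‖ ^ 2 = om (a 0) (a 1) ^ 2 *
        (‖p‖ ^ 2 - (inner ℝ (a 0) p : ℝ) ^ 2 - (inner ℝ (a 1) p : ℝ) ^ 2) +
      (inner ℝ (Complex.I • a 0 - om (a 0) (a 1) • a 1) p : ℝ) ^ 2 +
      (inner ℝ (Complex.I • a 1 + om (a 0) (a 1) • a 0) p : ℝ) ^ 2 := by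
  obtain ⟨h00, h01, h10, h11⟩ := Ball3_four ha
  have hp := real_inner_self_eq_norm_sq p
  have e0 : (inner ℝ (Complex.I • a 0 - om (a 0) (a 1) • a 1) p : ℝ) =
      om (a 0) p - om (a 0) (a 1) * inner ℝ (a 1) p := by
    rw [inner_sub_left, real_inner_smul_left, ← Ball3_om]
  have e1 : (inner ℝ (Complex.I • a 1 + om (a 0) (a 1) • a 0) p : ℝ) =
      om (a 1) p + om (a 0) (a 1) * inner ℝ (a 0) p := by
    rw [inner_add_left, real_inner_smul_left, ← Ball3_om]
  rw [e0, e1, ← real_inner_self_eq_norm_sq (cv _)]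
  simp only [cv, Matrix.cons_val_zero, Matrix.cons_val_one, Matrix.cons_val, inner_add_left,
    inner_add_right, real_inner_smul_left, real_inner_smul_right, h00, h01, h10, h11,
    real_inner_comm (a 0) p, real_inner_comm (a 1) p, hp, om_swap p (a 0)]
  ring

private theorem Ball3_b {a : Fin 2 → Cn n} (ha : Orthonormal ℝ a) :
    (inner ℝ (a 0) (Complex.I • a 0 - om (a 0) (a 1) • a 1) = (0 : ℝ) ∧
      inner ℝ (a 1) (Complex.I • a 0 - om (a 0) (a 1) • a 1) = (0 : ℝ) ∧
      ‖Complex.I • a 0 - om (a 0) (a 1) • a 1‖ ^ 2 = 1 - om (a 0) (a 1) ^ 2) ∧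
    (inner ℝ (a 0) (Complex.I • a 1 + om (a 0) (a 1) • a 0) = (0 : ℝ) ∧
      inner ℝ (a 1) (Complex.I • a 1 + om (a 0) (a 1) • a 0) = (0 : ℝ) ∧
      ‖Complex.I • a 1 + om (a 0) (a 1) • a 0‖ ^ 2 = 1 - om (a 0) (a 1) ^ 2) := by
  obtain ⟨h00, h01, h10, h11⟩ := Ball3_four ha
  have hI : ∀ x y : Cn n, (inner ℝ x (Complex.I • y) : ℝ) = om y x := by
    intro x y
    rw [real_inner_comm, ← Ball3_om]
  have hI' : ∀ x y : Cn n, (inner ℝ (Complex.I • y) x : ℝ) = om y x := by
    intro x y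
    rw [← Ball3_om]
  have hII : ∀ x : Cn n, (inner ℝ (Complex.I • x) (Complex.I • x) : ℝ) = inner ℝ x x := by
    intro x
    rw [real_inner_self_eq_norm_sq, real_inner_self_eq_norm_sq, norm_smul, Complex.norm_I,
      one_mul]
  have s : om (a 1) (a 0) = - om (a 0) (a 1) := om_swap _ _
  refine ⟨⟨?_, ?_, ?_⟩, ?_, ?_, ?_⟩
  · rw [inner_sub_right, real_inner_smul_right, hI, h01, om_self]
    ring
  · rw [inner_sub_right, real_inner_smul_right, hI, h11]
    ring
  · rw [← real_inner_self_eq_norm_sq, inner_sub_left, inner_sub_right, inner_sub_right,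
      real_inner_smul_left, real_inner_smul_left, real_inner_smul_right, real_inner_smul_right,
      hII, hI', hI, h00, h11]
    ring
  · rw [inner_add_right, real_inner_smul_right, hI, h00, s]
    ring
  · rw [inner_add_right, real_inner_smul_right, hI, h10, om_self]
    ring
  · rw [← real_inner_self_eq_norm_sq, inner_add_left, inner_add_right, inner_add_right,
      real_inner_smul_left, real_inner_smul_left, real_inner_smul_right, real_inner_smul_right,
      hII, hI', hI, h00, h11, s]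
    ring

theorem ball3 {n : ℕ} (hn : 2 ≤ n) : ∃ I : ℝ, 0 < I ∧ ∀ a : Fin 2 → Cn n, Orthonormal ℝ a →
    ∫ p in Metric.closedBall (0 : Cn n) 1, √(Gr ![a 0, a 1, p]) = I ∧
    ∫ p in Metric.closedBall (0 : Cn n) 1,
        ‖cv ![a 0, a 1, p]‖ ^ 2 / √(Gr ![a 0, a 1, p]) =
      I * (om (a 0) (a 1) ^ 2 + (1 - om (a 0) (a 1) ^ 2) / (n - 1)) ∧
    IntegrableOn (fun p => √(Gr ![a 0, a 1, p])) (Metric.closedBall (0 : Cn n) 1) ∧
    IntegrableOn (fun p => ‖cv ![a 0, a 1, p]‖ ^ 2 / √(Gr ![a 0, a 1, p]))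
      (Metric.closedBall (0 : Cn n) 1) := by
  by_cases hex : ∃ a0 : Fin 2 → Cn n, Orthonormal ℝ a0
  · obtain ⟨a0, ha0⟩ := hex
    refine ⟨∫ q in Metric.closedBall (0 : Cn n) 1, rr a0 q, ?_, ?_⟩
    · -- positivity
      obtain ⟨hk, b, hb⟩ := Ball3_ext ha0
      set i2 : Fin (2 * n) := ⟨2, by omega⟩ with hi2
      have hb0 : b (Fin.castLE hk 0) = a0 0 := hb 0
      have hb1 : b (Fin.castLE hk 1) = a0 1 := hb 1
      have ho0 : inner ℝ (a0 0) (b i2) = (0 : ℝ) := by
        rw [← hb0]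
        refine b.orthonormal.2 (fun h => ?_)
        have := congrArg Fin.val h
        simp [hi2] at this
      have ho1 : inner ℝ (a0 1) (b i2) = (0 : ℝ) := by
        rw [← hb1]
        refine b.orthonormal.2 (fun h => ?_)
        have := congrArg Fin.val h
        simp [hi2] at this
      have hu : ‖b i2‖ = 1 := b.orthonormal.1 i2
      refine Ball3_pos (Ball3_cont a0) (fun q => Real.sqrt_nonneg _) 1 ?_
        ((1 / 2 : ℝ) • b i2) ?_ ?_
      · intro q hq
        rw [abs_of_nonneg (Ball3_rr0 a0 q)]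
        exact Ball3_le ha0 hq
      · rw [norm_smul, hu]
        norm_num
      · unfold rr
        rw [norm_smul, hu, real_inner_smul_right, real_inner_smul_right, ho0, ho1]
        have : (0 : ℝ) < (‖(1 / 2 : ℝ)‖ * 1) ^ 2 - (1 / 2 * 0) ^ 2 - (1 / 2 * 0) ^ 2 := by
          norm_num
        exact (Real.sqrt_pos.2 this).ne'
    · intro a ha
      have hG : ∀ p : Cn n, √(Gr ![a 0, a 1, p]) = rr a p := by
        intro p
        rw [Ball3_Gr ha, rr]
      obtain ⟨⟨c1, c2, c3⟩, d1, d2, d3⟩ := Ball3_b ha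
      obtain ⟨f1, f2⟩ := Ball3_vec ha hn c1 c2
      obtain ⟨g1, g2⟩ := Ball3_vec ha hn d1 d2
      rw [c3] at f2
      rw [d3] at g2
      have hT : ∀ p : Cn n, ‖cv ![a 0, a 1, p]‖ ^ 2 / rr a p = om (a 0) (a 1) ^ 2 * rr a p +
          (inner ℝ (Complex.I • a 0 - om (a 0) (a 1) • a 1) p : ℝ) ^ 2 / rr a p +
          (inner ℝ (Complex.I • a 1 + om (a 0) (a 1) • a 0) p : ℝ) ^ 2 / rr a p := by
        intro p
        rw [Ball3_cv ha, ← Ball3_sq ha, add_div, add_div]
        congr 2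
        rcases (Ball3_rr0 a p).eq_or_lt with h4 | h4
        · rw [← h4]
          simp
        · field_simp
      have hr := Ball3_int_rr ha
      simp only [hG, hT]
      refine ⟨Ball3_indep ha ha0, ?_, hr, ?_⟩
      · rw [integral_add, integral_add, integral_const_mul, f2, g2, Ball3_indep ha ha0]
        · have hpos : ((n : ℝ) - 1) ≠ 0 := by
            have : (2 : ℝ) ≤ n := by exact_mod_cast hn
            have : 0 < (n : ℝ) - 1 := by linarith
            exact this.ne'
          field_simp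
          ring
        · exact Integrable.const_mul hr _
        · exact f1
        · exact (Integrable.const_mul hr _).add f1
        · exact g1
      · exact ((Integrable.const_mul hr _).add f1).add g1
  · exact ⟨1, one_pos, fun a ha => absurd ⟨a, ha⟩ hex⟩

end Pool.Agent.H35.T3
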