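import Mathlib
import Pool.Agent.H35.T3.Lin3
import Pool.Agent.H35.T3.GMean

set_option autoImplicit false

/-!
# Mean3: for a fixed triple `w`, `g3 e w` is affine in `kx e` (`e` orthonormal)

Let `n = m + 3`.

(1) Standard triple: `F = (s0, cs i s0 + sn s1, s2)`, `s_k = EuclideanSpace.single k 1`.  For a
triple `(a, b, c)` let `W = wv a b (c 2).re + wv b c (a 2).re + wv c a (b 2).re` and similarly `D`,
`S`, `Z` with `dv, sv, zv` (`H89/CZ/TAlg.lean` with `m+1` in place of `m`).  By `pair2_eq` and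
`inner ℝ c s2 = (c 2).re`: `tri a b c F0 F1 F2 = (cs W + sn Re D + cs S + sn Re Z) / 2`.
`W² + |D|² = S² + |Z|²`: `ring`.  The action: `exists_emb`, `exists_phase` of `H89/CZ/TEmb.lean` in
the stronger form that the coordinate 2 is fixed; `emb_eq`, `phase_eq` for the three pairs.
`mean_gen` with `W (φ) = W (φ w0, φ w1, φ w2)` etc. gives
`∫ |tri (φ w0) (φ w1) (φ w2) F0 F1 F2| dφ = P + cs² Q`.

(2) Frames: for a real orthonormal triple `e` there are `ψ ∈ U(n)`, `cs, sn` with
`cs² = kx e` and `|tri a b c e0 e1 e2| = |tri a b c (ψ F0) (ψ F1) (ψ F2)|` for all `a b c`.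
Proof: let `c = (om e1 e2, om e2 e0, om e0 e1) ∈ ℝ³`; there is an orthonormal basis
`(r0, r1, r2)` of `ℝ³` with `c = |c| r2`; `e'_k = ∑ r_k(l) e_l` is orthonormal,
`om e'0 e'2 = om e'1 e'2 = 0`, `om e'0 e'1 = ± |c|`, `tri a b c e' = det r * tri a b c e = ± …`.
`e'2` is complex orthogonal to `e'0`, `e'1`.  As in `exists_pair_frame` (TEmb): `e'1 = cs i e'0 +
sn f3` with `(e'0, f3, e'2)` complex orthonormal (here `n ≥ 3` is used if `sn = 0`), and a unitary
map takes `(s0, s1, s2)` to it.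

(3) `g3 e w = ∫ |tri (φ e) (w)| = ∫ |tri (φ w) (e)|` (`tri_symm`, `tri_uni`, `integral_inv`)
`= ∫ |tri (φ w) (ψ F)| = ∫ |tri (ψ⁻¹ φ w) F| = ∫ |tri (φ w) F| = P + cs² Q` (`integral_mulLeft`).
-/

open MeasureTheory Pool.Agent.H61.UProj Pool.Agent.H89.CZ

noncomputable section

namespace Pool.Agent.H35.T3

variable {m n : ℕ}

/-! ### Orthonormal families and the action -/

private theorem M3_onb {k : ℕ} {u : Fin k → Cn n} (hu : Orthonormal ℂ u)
    {ι : Fin k → Fin n} (hι : Function.Injective ι) :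
    ∃ b : OrthonormalBasis (Fin n) ℂ (Cn n), ∀ j, b (ι j) = u j := by
  classical
  let v : Fin n → Cn n := fun l => if h : ∃ j, ι j = l then u h.choose else 0
  have hv : ∀ j, v (ι j) = u j := by
    intro j
    have h : ∃ j', ι j' = ι j := ⟨j, rfl⟩
    simp only [v, dif_pos h]
    rw [hι h.choose_spec]
  have hres : Orthonormal ℂ ((Set.range ι).domRestrict v) := by
    have h2 : (Set.range ι).domRestrict v = u ∘ (Equiv.ofInjective ι hι).symm := by
      funext l
      obtain ⟨l, j, rfl⟩ := l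
      refine (hv j).trans ?_
      rw [Function.comp_apply]
      congr 1
      rw [Equiv.eq_symm_apply]
      rfl
    rw [h2]
    exact hu.comp _ (Equiv.injective _)
  obtain ⟨b, hb⟩ := hres.exists_orthonormalBasis_extension_of_card_eq (by simp)
  exact ⟨b, fun j => by rw [hb _ ⟨j, rfl⟩, hv]⟩

private theorem M3_uni_basis (b : OrthonormalBasis (Fin n) ℂ (Cn n)) :
    ∃ φ : Un n, ∀ j, uni φ (EuclideanSpace.single j 1) = b j := by
  let M : Matrix (Fin n) (Fin n) ℂ := fun l j => b j l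
  have hMM : M.conjTranspose * M = 1 := by
    ext i j
    rw [Matrix.mul_apply, Matrix.one_apply]
    have h2 : inner ℂ (b i) (b j) = if i = j then (1 : ℂ) else 0 :=
      orthonormal_iff_ite.1 b.orthonormal i j
    rw [← h2, PiLp.inner_apply]
    refine Finset.sum_congr rfl fun l _ => ?_
    rw [RCLike.inner_apply, Matrix.conjTranspose_apply, mul_comm]
    rfl
  refine ⟨⟨M, Matrix.mem_unitaryGroup_iff'.2 hMM⟩, fun j => ?_⟩
  ext l
  rw [uni_apply, Finset.sum_eq_single j]
  · simp [M]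
  · intro a _ ha
    simp [ha]
  · simp

private theorem M3_family {k : ℕ} {e f : Fin k → Cn n} (he : Orthonormal ℂ e)
    (hf : Orthonormal ℂ f) : ∃ φ : Un n, ∀ j, uni φ (e j) = f j := by
  have hk : k ≤ n := by
    have h := he.linearIndependent.fintype_card_le_finrank
    simpa using h
  obtain ⟨b, hb⟩ := M3_onb he (Fin.castLE_injective hk)
  obtain ⟨c, hc⟩ := M3_onb hf (Fin.castLE_injective hk)
  obtain ⟨φ, hφ⟩ := M3_uni_basis b
  obtain ⟨ψ, hψ⟩ := M3_uni_basis c
  refine ⟨ψ * φ⁻¹, fun j => ?_⟩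
  rw [← hb, ← hc, uni_mul, ← hφ, uni_inv_uni, hψ]

/-- The coordinate number two. -/
private def k2 (m : ℕ) : Fin (m + 1 + 2) := ⟨2, by omega⟩

private theorem k2_ne0 : k2 m ≠ 0 := by
  intro h
  have := congrArg Fin.val h
  simp [k2] at this

private theorem k2_ne1 : k2 m ≠ 1 := by
  intro h
  have := congrArg Fin.val h
  simp [k2] at this

private theorem M3_triple {a b c : Cn n} (h1 : inner ℂ a a = 1) (h2 : inner ℂ b b = 1)
    (h3 : inner ℂ c c = 1) (h4 : inner ℂ a b = 0) (h5 : inner ℂ a c = 0)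
    (h6 : inner ℂ b c = 0) : Orthonormal ℂ ![a, b, c] := by
  rw [orthonormal_iff_ite]
  have h4' : inner ℂ b a = 0 := by
    rw [← inner_conj_symm, h4, map_zero]
  have h5' : inner ℂ c a = 0 := by
    rw [← inner_conj_symm, h5, map_zero]
  have h6' : inner ℂ c b = 0 := by
    rw [← inner_conj_symm, h6, map_zero]
  intro i j
  fin_cases i <;> fin_cases j
  · exact h1.trans (by simp)
  · exact h4.trans (by simp)
  · exact h5.trans (by simp)
  · exact h4'.trans (by simp)
  · exact h2.trans (by simp)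
  · exact h6.trans (by simp)
  · exact h5'.trans (by simp)
  · exact h6'.trans (by simp)
  · exact h3.trans (by simp)

private theorem M3_std (m : ℕ) : Orthonormal ℂ
    (![EuclideanSpace.single 0 1, EuclideanSpace.single 1 1, EuclideanSpace.single (k2 m) 1] :
      Fin 3 → Cn (m + 1 + 2)) := by
  have hk0 := k2_ne0 (m := m)
  have hk1 := k2_ne1 (m := m)
  apply M3_triple
  · rw [EuclideanSpace.inner_single_left]; simp
  · rw [EuclideanSpace.inner_single_left]; simp
  · rw [EuclideanSpace.inner_single_left]; simp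
  · rw [EuclideanSpace.inner_single_left]; simp
  · rw [EuclideanSpace.inner_single_left]; simp [hk0.symm]
  · rw [EuclideanSpace.inner_single_left]; simp [hk1.symm]

private theorem M3_act {a b c : Cn (m + 1 + 2)} (h1 : inner ℂ a a = 1) (h2 : inner ℂ b b = 1)
    (h3 : inner ℂ c c = 1) (h4 : inner ℂ a b = 0) (h5 : inner ℂ a c = 0)
    (h6 : inner ℂ b c = 0) : ∃ h : Un (m + 1 + 2), ∀ z : Cn (m + 1 + 2),
      (uni h z) 0 = inner ℂ a z ∧ (uni h z) 1 = inner ℂ b z ∧
        (uni h z) (k2 m) = inner ℂ c z := by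
  obtain ⟨φ, hφ⟩ := M3_family (M3_std m) (M3_triple h1 h2 h3 h4 h5 h6)
  refine ⟨φ⁻¹, fun z => ?_⟩
  have e0 : uni φ (EuclideanSpace.single 0 1) = a := by simpa using hφ 0
  have e1 : uni φ (EuclideanSpace.single 1 1) = b := by simpa using hφ 1
  have e2 : uni φ (EuclideanSpace.single (k2 m) 1) = c := by simpa using hφ 2
  refine ⟨?_, ?_, ?_⟩
  · rw [← e0]
    conv_rhs => rw [← uni_uni_inv φ z, inner_uni, EuclideanSpace.inner_single_left]
    simp
  · rw [← e1]
    conv_rhs => rw [← uni_uni_inv φ z, inner_uni, EuclideanSpace.inner_single_left]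
    simp
  · rw [← e2]
    conv_rhs => rw [← uni_uni_inv φ z, inner_uni, EuclideanSpace.inner_single_left]
    simp

private theorem M3_emb (g : Un 2) : ∃ h : Un (m + 1 + 2), ∀ z : Cn (m + 1 + 2),
    (uni h z) 0 = (g : Matrix (Fin 2) (Fin 2) ℂ) 0 0 * z 0 +
      (g : Matrix (Fin 2) (Fin 2) ℂ) 0 1 * z 1 ∧
    (uni h z) 1 = -starRingEnd ℂ ((g : Matrix (Fin 2) (Fin 2) ℂ) 0 1) * z 0 +
      starRingEnd ℂ ((g : Matrix (Fin 2) (Fin 2) ℂ) 0 0) * z 1 ∧
    (uni h z) (k2 m) = z (k2 m) := by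
  have hrow := first_row g
  have hk0 := k2_ne0 (m := m)
  have hk1 := k2_ne1 (m := m)
  set α := (g : Matrix (Fin 2) (Fin 2) ℂ) 0 0
  set β := (g : Matrix (Fin 2) (Fin 2) ℂ) 0 1
  have hrow' : α * starRingEnd ℂ α + β * starRingEnd ℂ β = 1 := by
    rw [Complex.mul_conj, Complex.mul_conj]
    exact_mod_cast hrow
  obtain ⟨h, hh⟩ := M3_act (m := m)
    (a := EuclideanSpace.single 0 (starRingEnd ℂ α) + EuclideanSpace.single 1 (starRingEnd ℂ β))
    (b := EuclideanSpace.single 0 (-β) + EuclideanSpace.single 1 α)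
    (c := EuclideanSpace.single (k2 m) 1)
    (by
      simp only [inner_add_left, inner_add_right, EuclideanSpace.inner_single_left]
      simp
      linear_combination hrow')
    (by
      simp only [inner_add_left, inner_add_right, EuclideanSpace.inner_single_left]
      simp
      linear_combination hrow')
    (by rw [EuclideanSpace.inner_single_left]; simp)
    (by
      simp only [inner_add_left, inner_add_right, EuclideanSpace.inner_single_left]
      simp
      ring)
    (by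
      simp only [inner_add_left, EuclideanSpace.inner_single_left]
      simp [hk0.symm, hk1.symm])
    (by
      simp only [inner_add_left, EuclideanSpace.inner_single_left]
      simp [hk0.symm, hk1.symm])
  refine ⟨h, fun z => ?_⟩
  obtain ⟨h1, h2, h3⟩ := hh z
  rw [h1, h2, h3]
  refine ⟨?_, ?_, ?_⟩
  · rw [inner_add_left, EuclideanSpace.inner_single_left, EuclideanSpace.inner_single_left]
    simp
  · rw [inner_add_left, EuclideanSpace.inner_single_left, EuclideanSpace.inner_single_left]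
    simp
  · rw [EuclideanSpace.inner_single_left]
    simp

private theorem M3_phase (ζ : ℂ) (hζ : ‖ζ‖ = 1) : ∃ h : Un (m + 1 + 2), ∀ z : Cn (m + 1 + 2),
    (uni h z) 0 = ζ * z 0 ∧ (uni h z) 1 = ζ * z 1 ∧ (uni h z) (k2 m) = z (k2 m) := by
  have hz : ζ * starRingEnd ℂ ζ = 1 := by
    rw [Complex.mul_conj, Complex.normSq_eq_norm_sq, hζ]
    simp
  have hk0 := k2_ne0 (m := m)
  have hk1 := k2_ne1 (m := m)
  obtain ⟨h, hh⟩ := M3_act (m := m)
    (a := EuclideanSpace.single 0 (starRingEnd ℂ ζ))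
    (b := EuclideanSpace.single 1 (starRingEnd ℂ ζ))
    (c := EuclideanSpace.single (k2 m) 1)
    (by rw [EuclideanSpace.inner_single_left]; simpa using hz)
    (by rw [EuclideanSpace.inner_single_left]; simpa using hz)
    (by rw [EuclideanSpace.inner_single_left]; simp)
    (by rw [EuclideanSpace.inner_single_left]; simp)
    (by rw [EuclideanSpace.inner_single_left]; simp [hk0.symm])
    (by rw [EuclideanSpace.inner_single_left]; simp [hk1.symm])
  refine ⟨h, fun z => ?_⟩
  obtain ⟨h1, h2, h3⟩ := hh z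
  rw [h1, h2, h3, EuclideanSpace.inner_single_left, EuclideanSpace.inner_single_left,
    EuclideanSpace.inner_single_left]
  simp

/-! ### The four functions on triples -/

private def W3 (a b c : Cn (m + 1 + 2)) : ℝ :=
  wv a b * (c (k2 m)).re + wv b c * (a (k2 m)).re + wv c a * (b (k2 m)).re

private def D3 (a b c : Cn (m + 1 + 2)) : ℂ :=
  dv a b * ((c (k2 m)).re : ℂ) + dv b c * ((a (k2 m)).re : ℂ) + dv c a * ((b (k2 m)).re : ℂ)

private def S3 (a b c : Cn (m + 1 + 2)) : ℝ :=
  sv a b * (c (k2 m)).re + sv b c * (a (k2 m)).re + sv c a * (b (k2 m)).re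

private def Z3 (a b c : Cn (m + 1 + 2)) : ℂ :=
  zv a b * ((c (k2 m)).re : ℂ) + zv b c * ((a (k2 m)).re : ℂ) + zv c a * ((b (k2 m)).re : ℂ)

private theorem M3_sq (a b c : Cn (m + 1 + 2)) :
    W3 a b c ^ 2 + Complex.normSq (D3 a b c) = S3 a b c ^ 2 + Complex.normSq (Z3 a b c) := by
  simp only [W3, D3, S3, Z3, wv, dv, sv, zv, Complex.normSq_apply, Complex.add_re,
    Complex.add_im, Complex.sub_re, Complex.sub_im, Complex.mul_re, Complex.mul_im,
    Complex.conj_re, Complex.conj_im, Complex.ofReal_re, Complex.ofReal_im]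
  ring

private theorem M3_single (a : Cn n) (k : Fin n) (z : ℂ) :
    inner ℝ a (EuclideanSpace.single k z) = (starRingEnd ℂ (a k) * z).re := by
  rw [real_inner_eq]
  congr 1
  rw [Finset.sum_eq_single k]
  · simp
  · intro j _ hj
    simp [hj]
  · intro hk
    exact absurd (Finset.mem_univ k) hk

private theorem M3_tri (a b c : Cn (m + 1 + 2)) (cs sn : ℝ) :
    tri a b c (EuclideanSpace.single 0 1)
      (EuclideanSpace.single 0 (cs * Complex.I) + EuclideanSpace.single 1 (sn : ℂ))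
      (EuclideanSpace.single (k2 m) 1) =
    (cs * W3 a b c + sn * (D3 a b c).re + cs * S3 a b c + sn * (Z3 a b c).re) / 2 := by
  simp only [tri, pair2, inner_add_right, M3_single]
  simp only [W3, D3, S3, Z3, wv, dv, sv, zv, Complex.add_re, Complex.add_im, Complex.sub_re,
    Complex.sub_im, Complex.mul_re, Complex.mul_im, Complex.conj_re, Complex.conj_im,
    Complex.ofReal_re, Complex.ofReal_im, Complex.I_re, Complex.I_im, Complex.one_re,
    Complex.one_im]
  ring

section cont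

attribute [local irreducible] wv dv sv zv

private theorem M3_contc (w : Cn (m + 1 + 2)) (k : Fin (m + 1 + 2)) :
    Continuous (fun φ : Un (m + 1 + 2) => (uni φ w) k) :=
  (EuclideanSpace.proj k : Cn (m + 1 + 2) →L[ℂ] ℂ).continuous.comp (continuous_uni w)

private theorem M3_contW (u v : Cn (m + 1 + 2)) :
    Continuous (fun φ : Un (m + 1 + 2) => wv (uni φ u) (uni φ v)) :=
  continuous_wv.comp ((continuous_uni u).prodMk (continuous_uni v))

private theorem M3_contD (u v : Cn (m + 1 + 2)) :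
    Continuous (fun φ : Un (m + 1 + 2) => dv (uni φ u) (uni φ v)) :=
  continuous_dv.comp ((continuous_uni u).prodMk (continuous_uni v))

private theorem M3_contS (u v : Cn (m + 1 + 2)) :
    Continuous (fun φ : Un (m + 1 + 2) => sv (uni φ u) (uni φ v)) :=
  continuous_sv.comp ((continuous_uni u).prodMk (continuous_uni v))

private theorem M3_contZ (u v : Cn (m + 1 + 2)) :
    Continuous (fun φ : Un (m + 1 + 2) => zv (uni φ u) (uni φ v)) :=
  continuous_zv.comp ((continuous_uni u).prodMk (continuous_uni v))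

private theorem M3_contR (w : Cn (m + 1 + 2)) (k : Fin (m + 1 + 2)) :
    Continuous (fun φ : Un (m + 1 + 2) => ((uni φ w) k).re) :=
  Complex.continuous_re.comp (M3_contc w k)

private theorem M3_contRc (w : Cn (m + 1 + 2)) (k : Fin (m + 1 + 2)) :
    Continuous (fun φ : Un (m + 1 + 2) => ((((uni φ w) k).re : ℝ) : ℂ)) :=
  Complex.continuous_ofReal.comp (M3_contR w k)

end cont

/-- The mean over the unitary group for the standard frame. -/
private theorem M3_mean (w : Fin 3 → Cn (m + 1 + 2)) :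
    ∃ P Q : ℝ, ∀ cs sn : ℝ, cs ^ 2 + sn ^ 2 = 1 →
      ∫ φ, |tri (uni φ (w 0)) (uni φ (w 1)) (uni φ (w 2)) (EuclideanSpace.single 0 1)
        (EuclideanSpace.single 0 (cs * Complex.I) + EuclideanSpace.single 1 (sn : ℂ))
        (EuclideanSpace.single (k2 m) 1)| ∂(haarU (m + 1 + 2)) = P + cs ^ 2 * Q := by
  obtain ⟨P, Q, hPQ⟩ := mean_gen (N := m + 1 + 2)
    (W := fun φ => W3 (uni φ (w 0)) (uni φ (w 1)) (uni φ (w 2)))
    (S := fun φ => S3 (uni φ (w 0)) (uni φ (w 1)) (uni φ (w 2)))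
    (D := fun φ => D3 (uni φ (w 0)) (uni φ (w 1)) (uni φ (w 2)))
    (Z := fun φ => Z3 (uni φ (w 0)) (uni φ (w 1)) (uni φ (w 2)))
    (by
      unfold W3
      exact (((M3_contW _ _).mul (M3_contR _ _)).add ((M3_contW _ _).mul (M3_contR _ _))).add
        ((M3_contW _ _).mul (M3_contR _ _)))
    (by
      unfold S3
      exact (((M3_contS _ _).mul (M3_contR _ _)).add ((M3_contS _ _).mul (M3_contR _ _))).add
        ((M3_contS _ _).mul (M3_contR _ _)))
    (by
      unfold D3
      exact (((M3_contD _ _).mul (M3_contRc _ _)).add ((M3_contD _ _).mul (M3_contRc _ _))).add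
        ((M3_contD _ _).mul (M3_contRc _ _)))
    (by
      unfold Z3
      exact (((M3_contZ _ _).mul (M3_contRc _ _)).add ((M3_contZ _ _).mul (M3_contRc _ _))).add
        ((M3_contZ _ _).mul (M3_contRc _ _)))
    (fun φ => M3_sq _ _ _)
    (by
      intro g
      obtain ⟨h, hh⟩ := M3_emb (m := m) g
      refine ⟨h, fun φ => ?_⟩
      simp only [uni_mul]
      have key : ∀ u v : Cn (m + 1 + 2), _ := fun u v =>
        emb_eq (a := uni φ u) (b := uni φ v) (a' := uni h (uni φ u)) (b' := uni h (uni φ v))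
          (first_row g) (hh _).1 (hh _).2.1 (hh _).1 (hh _).2.1
      have k01 := key (w 0) (w 1)
      have k12 := key (w 1) (w 2)
      have k20 := key (w 2) (w 0)
      rw [Complex.normSq_eq_norm_sq, Complex.normSq_eq_norm_sq] at k01 k12 k20
      simp only [W3, D3, S3, Z3, (hh _).2.2]
      rw [k01.1, k12.1, k20.1, k01.2.1, k12.2.1, k20.2.1, k01.2.2, k12.2.2, k20.2.2]
      refine ⟨rfl, rfl, ?_⟩
      simp only [map_add, map_mul, Complex.conj_ofReal, Complex.add_re, Complex.add_im,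
        Complex.mul_re, Complex.mul_im, Complex.conj_re, Complex.conj_im, Complex.ofReal_re,
        Complex.ofReal_im, Complex.I_re, Complex.I_im]
      ring)
    (by
      intro ζ hζ
      obtain ⟨h, hh⟩ := M3_phase (m := m) ζ hζ
      refine ⟨h, fun φ => ?_⟩
      simp only [uni_mul]
      have key : ∀ u v : Cn (m + 1 + 2), _ := fun u v =>
        phase_eq (a := uni φ u) (b := uni φ v) (a' := uni h (uni φ u)) (b' := uni h (uni φ v))
          (ζ := ζ) (by rw [Complex.normSq_eq_norm_sq, hζ]; norm_num)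
          (hh _).1 (hh _).2.1 (hh _).1 (hh _).2.1
      have k01 := key (w 0) (w 1)
      have k12 := key (w 1) (w 2)
      have k20 := key (w 2) (w 0)
      simp only [W3, D3, S3, (hh _).2.2]
      rw [k01.1, k12.1, k20.1, k01.2.1, k12.2.1, k20.2.1, k01.2.2, k12.2.2, k20.2.2]
      refine ⟨rfl, ?_, rfl⟩
      ring)
  refine ⟨P, Q, fun cs sn h => ?_⟩
  rw [← hPQ cs sn h]
  refine integral_congr_ae (Filter.Eventually.of_forall fun φ => ?_)
  simp only []
  rw [M3_tri]

/-! ### Frames -/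

private theorem M3_re (z w : Cn n) : inner ℝ z w = (inner ℂ z w).re := by
  rw [real_inner_eq, PiLp.inner_apply]
  congr 1
  refine Finset.sum_congr rfl fun j _ => ?_
  rw [RCLike.inner_apply, mul_comm]

private theorem M3_orth (a b : Cn (m + 1 + 2)) : ∃ c : Cn (m + 1 + 2), inner ℂ c c = 1 ∧
    inner ℂ a c = 0 ∧ inner ℂ b c = 0 := by
  classical
  have h1 : ∃ c : Cn (m + 1 + 2), c ≠ 0 ∧ inner ℂ a c = 0 ∧ inner ℂ b c = 0 := by
    have h2 : (Submodule.span ℂ (Set.range ![a, b]))ᗮ ≠ ⊥ := by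
      intro h
      have h3 := Submodule.finrank_add_finrank_orthogonal (Submodule.span ℂ (Set.range ![a, b]))
      rw [h, finrank_bot] at h3
      have h4 : Module.finrank ℂ (Submodule.span ℂ (Set.range ![a, b])) ≤ 2 :=
        (finrank_range_le_card (R := ℂ) ![a, b]).trans (by simp)
      have h5 : Module.finrank ℂ (Cn (m + 1 + 2)) = m + 1 + 2 := by simp
      omega
    obtain ⟨c, hc, hc0⟩ := Submodule.exists_mem_ne_zero_of_ne_bot h2
    have ha : a ∈ Submodule.span ℂ (Set.range ![a, b]) := Submodule.subset_span ⟨0, rfl⟩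
    have hb : b ∈ Submodule.span ℂ (Set.range ![a, b]) := Submodule.subset_span ⟨1, rfl⟩
    exact ⟨c, hc0, Submodule.inner_right_of_mem_orthogonal ha hc,
      Submodule.inner_right_of_mem_orthogonal hb hc⟩
  obtain ⟨c, hc0, hc, hc'⟩ := h1
  have hn : (‖c‖ : ℂ) ≠ 0 := by
    simpa using hc0
  refine ⟨((‖c‖ : ℂ))⁻¹ • c, ?_, ?_, ?_⟩
  · rw [inner_smul_left, inner_smul_right, inner_self_eq_norm_sq_to_K]
    simp only [map_inv₀, Complex.conj_ofReal]
    field_simp
    simp
  · rw [inner_smul_right, hc, mul_zero]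
  · rw [inner_smul_right, hc', mul_zero]

/-- A real orthonormal triple whose third vector is in the kernel of `om`. -/
private theorem M3_frame0 {f : Fin 3 → Cn (m + 1 + 2)} (hf : Orthonormal ℝ f)
    (h02 : om (f 0) (f 2) = 0) (h12 : om (f 1) (f 2) = 0) :
    ∃ (sn : ℝ) (ψ : Un (m + 1 + 2)), om (f 0) (f 1) ^ 2 + sn ^ 2 = 1 ∧
      uni ψ (EuclideanSpace.single 0 1) = f 0 ∧
      uni ψ (EuclideanSpace.single 0 (om (f 0) (f 1) * Complex.I) +
        EuclideanSpace.single 1 (sn : ℂ)) = f 1 ∧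
      uni ψ (EuclideanSpace.single (k2 m) 1) = f 2 := by
  have n0 : ‖f 0‖ = 1 := hf.1 0
  have n1 : ‖f 1‖ = 1 := hf.1 1
  have n2 : ‖f 2‖ = 1 := hf.1 2
  have i0 : inner ℂ (f 0) (f 0) = 1 := by
    rw [inner_self_eq_norm_sq_to_K, n0]; simp
  have i1 : inner ℂ (f 1) (f 1) = 1 := by
    rw [inner_self_eq_norm_sq_to_K, n1]; simp
  have i2 : inner ℂ (f 2) (f 2) = 1 := by
    rw [inner_self_eq_norm_sq_to_K, n2]; simp
  have h01 : inner ℝ (f 0) (f 1) = 0 := hf.2 (by decide)
  have r02 : inner ℝ (f 0) (f 2) = 0 := hf.2 (by decide)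
  have r12 : inner ℝ (f 1) (f 2) = 0 := hf.2 (by decide)
  have c02 : inner ℂ (f 0) (f 2) = 0 := by
    apply Complex.ext
    · rw [← M3_re, r02]; simp
    · exact h02
  have c12 : inner ℂ (f 1) (f 2) = 0 := by
    apply Complex.ext
    · rw [← M3_re, r12]; simp
    · exact h12
  have c20 : inner ℂ (f 2) (f 0) = 0 := by
    rw [← inner_conj_symm, c02, map_zero]
  have c21 : inner ℂ (f 2) (f 1) = 0 := by
    rw [← inner_conj_symm, c12, map_zero]
  set cs := om (f 0) (f 1) with hcs
  have hc : inner ℂ (f 0) (f 1) = cs * Complex.I := by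
    apply Complex.ext
    · rw [← M3_re, h01]; simp
    · simp [hcs, om]
  have hc' : inner ℂ (f 1) (f 0) = -(cs * Complex.I) := by
    rw [← inner_conj_symm, hc]; simp
  set r := f 1 - ((cs : ℂ) * Complex.I) • f 0 with hr
  have hr0 : inner ℂ (f 0) r = 0 := by
    rw [hr, inner_sub_right, inner_smul_right, i0, hc]; ring
  have hr2 : inner ℂ (f 2) r = 0 := by
    rw [hr, inner_sub_right, inner_smul_right, c20, c21]; ring
  have hrr : inner ℂ r r = ((1 - cs ^ 2 : ℝ) : ℂ) := by
    have : inner ℂ r r = inner ℂ (f 1) r -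
        starRingEnd ℂ ((cs : ℂ) * Complex.I) * inner ℂ (f 0) r := by
      conv_lhs => rw [hr, inner_sub_left, inner_smul_left]
    rw [this, hr0, mul_zero, sub_zero, hr, inner_sub_right, inner_smul_right, i1, hc']
    push_cast
    linear_combination (cs : ℂ) ^ 2 * Complex.I_sq
  have hnr : ‖r‖ ^ 2 = 1 - cs ^ 2 := by
    have := inner_self_eq_norm_sq_to_K (𝕜 := ℂ) r
    rw [hrr] at this
    have h2 := congrArg Complex.re this
    simp only [Complex.ofReal_re] at h2
    rw [h2]
    norm_cast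
  have key : ∃ f3 : Cn (m + 1 + 2), inner ℂ f3 f3 = 1 ∧ inner ℂ (f 0) f3 = 0 ∧
      inner ℂ (f 2) f3 = 0 ∧ r = ((‖r‖ : ℝ) : ℂ) • f3 := by
    by_cases hr1 : r = 0
    · obtain ⟨b, hb1, hb2, hb3⟩ := M3_orth (f 0) (f 2)
      exact ⟨b, hb1, hb2, hb3, by simp [hr1]⟩
    · have hn : ((‖r‖ : ℝ) : ℂ) ≠ 0 := by simpa using hr1
      refine ⟨((‖r‖ : ℂ))⁻¹ • r, ?_, ?_, ?_, ?_⟩
      · rw [inner_smul_left, inner_smul_right, inner_self_eq_norm_sq_to_K]
        simp only [map_inv₀, Complex.conj_ofReal]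
        field_simp
        simp
      · rw [inner_smul_right, hr0, mul_zero]
      · rw [inner_smul_right, hr2, mul_zero]
      · rw [smul_smul, mul_inv_cancel₀ hn, one_smul]
  obtain ⟨f3, h33, h03, h23, hrf⟩ := key
  have h32 : inner ℂ f3 (f 2) = 0 := by
    rw [← inner_conj_symm, h23, map_zero]
  obtain ⟨ψ, hψ⟩ := M3_family (M3_std m) (M3_triple i0 h33 i2 h03 c02 h32)
  have e0 : uni ψ (EuclideanSpace.single 0 1) = f 0 := by simpa using hψ 0
  have e1 : uni ψ (EuclideanSpace.single 1 1) = f3 := by simpa using hψ 1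
  have e2 : uni ψ (EuclideanSpace.single (k2 m) 1) = f 2 := by simpa using hψ 2
  refine ⟨‖r‖, ψ, by rw [hnr]; ring, e0, ?_, e2⟩
  have s0 : (EuclideanSpace.single 0 ((cs : ℂ) * Complex.I) : Cn (m + 1 + 2)) =
      ((cs : ℂ) * Complex.I) • EuclideanSpace.single 0 1 := by
    ext j
    by_cases hj : j = 0
    · subst hj; simp
    · simp [hj]
  have s1 : (EuclideanSpace.single 1 (((‖r‖ : ℝ) : ℂ)) : Cn (m + 1 + 2)) =
      ((‖r‖ : ℝ) : ℂ) • EuclideanSpace.single 1 1 := by
    ext j
    by_cases hj : j = 1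
    · subst hj; simp
    · simp [hj]
  rw [map_add, s0, s1, uni_csmul, uni_csmul, e0, e1, ← hrf, hr]
  abel

/-- An orthonormal basis of `ℝ³` whose third vector is proportional to `c`. -/
private theorem M3_rot (c : EuclideanSpace ℝ (Fin 3)) :
    ∃ b : OrthonormalBasis (Fin 3) ℝ (EuclideanSpace ℝ (Fin 3)), c = ‖c‖ • b 2 := by
  have h1 : ∃ r : EuclideanSpace ℝ (Fin 3), ‖r‖ = 1 ∧ c = ‖c‖ • r := by
    by_cases hc : c = 0
    · exact ⟨EuclideanSpace.single 0 1, by simp, by simp [hc]⟩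
    · have hn : ‖c‖ ≠ 0 := norm_ne_zero_iff.2 hc
      refine ⟨‖c‖⁻¹ • c, ?_, ?_⟩
      · rw [norm_smul, norm_inv, norm_norm, inv_mul_cancel₀ hn]
      · rw [smul_smul, mul_inv_cancel₀ hn, one_smul]
  obtain ⟨r, hr, hcr⟩ := h1
  have hres : Orthonormal ℝ (({2} : Set (Fin 3)).domRestrict
      (fun _ : Fin 3 => r)) := by
    refine ⟨fun i => hr, fun i j hij => absurd (Subsingleton.elim i j) hij⟩
  obtain ⟨b, hb⟩ := hres.exists_orthonormalBasis_extension_of_card_eq (by simp)
  exact ⟨b, by rw [hb 2 rfl]; exact hcr⟩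

/-- Frames for real orthonormal triples. -/
private theorem M3_frame {e : Fin 3 → Cn (m + 1 + 2)} (he : Orthonormal ℝ e) :
    ∃ (cs sn : ℝ) (ψ : Un (m + 1 + 2)), cs ^ 2 = kx e ∧ cs ^ 2 + sn ^ 2 = 1 ∧
      ∀ a b c, |tri a b c (e 0) (e 1) (e 2)| =
        |tri a b c (uni ψ (EuclideanSpace.single 0 1))
          (uni ψ (EuclideanSpace.single 0 (cs * Complex.I) + EuclideanSpace.single 1 (sn : ℂ)))
          (uni ψ (EuclideanSpace.single (k2 m) 1))| := by
  obtain ⟨B, hB⟩ := M3_rot (!₂[om (e 1) (e 2), om (e 2) (e 0), om (e 0) (e 1)])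
  set N := ‖(!₂[om (e 1) (e 2), om (e 2) (e 0), om (e 0) (e 1)] : EuclideanSpace ℝ (Fin 3))‖
    with hN
  have hN2 : N ^ 2 = kx e := by
    rw [hN, EuclideanSpace.norm_sq_eq, Fin.sum_univ_three]
    simp [kx]
    ring
  set R : Fin 3 → Fin 3 → ℝ := fun k l => B k l with hR
  have hc0 : om (e 1) (e 2) = N * R 2 0 := by
    have := congrArg (fun v : EuclideanSpace ℝ (Fin 3) => v 0) hB
    simpa using this
  have hc1 : om (e 2) (e 0) = N * R 2 1 := by
    have := congrArg (fun v : EuclideanSpace ℝ (Fin 3) => v 1) hB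
    simpa using this
  have hc2 : om (e 0) (e 1) = N * R 2 2 := by
    have := congrArg (fun v : EuclideanSpace ℝ (Fin 3) => v 2) hB
    simpa using this
  have hRR : ∀ i j, R i 0 * R j 0 + R i 1 * R j 1 + R i 2 * R j 2 = if i = j then 1 else 0 := by
    intro i j
    have h := orthonormal_iff_ite.1 B.orthonormal i j
    rw [PiLp.inner_apply, Fin.sum_univ_three] at h
    simp only [RCLike.inner_apply, conj_trivial] at h
    rw [← h]
    simp only [hR]
    ring
  set d := R 0 0 * (R 1 1 * R 2 2 - R 1 2 * R 2 1) - R 0 1 * (R 1 0 * R 2 2 - R 1 2 * R 2 0) +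
        R 0 2 * (R 1 0 * R 2 1 - R 1 1 * R 2 0) with hd
  have hd2 : d ^ 2 = 1 := by
    have h1 : (Matrix.of R) * (Matrix.of R).transpose = 1 := by
      ext i j
      rw [Matrix.mul_apply, Fin.sum_univ_three, Matrix.one_apply]
      simpa using hRR i j
    have h2 := congrArg Matrix.det h1
    rw [Matrix.det_mul, Matrix.det_transpose, Matrix.det_one, Matrix.det_fin_three] at h2
    simp only [Matrix.of_apply] at h2
    rw [hd]
    linear_combination h2
  set f : Fin 3 → Cn (m + 1 + 2) := fun k => R k 0 • e 0 + R k 1 • e 1 + R k 2 • e 2 with hf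
  have hom : ∀ i j, om (f i) (f j) =
      N * ((R i 0 * R j 1 - R i 1 * R j 0) * R 2 2 + (R i 1 * R j 2 - R i 2 * R j 1) * R 2 0 +
      (R i 2 * R j 0 - R i 0 * R j 2) * R 2 1) := by
    intro i j
    simp only [hf, om_add_left, om_add_right, om_smul_left, om_smul_right, om_self]
    rw [om_swap (e 0) (e 1), om_swap (e 1) (e 2), om_swap (e 2) (e 0), hc0, hc1, hc2]
    ring
  have hforth : Orthonormal ℝ f := by
    rw [orthonormal_iff_ite]
    intro i j
    have h := orthonormal_iff_ite.1 he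
    rw [← hRR i j]
    simp only [hf, inner_add_left, inner_add_right, real_inner_smul_left, real_inner_smul_right, h]
    simp
    ring
  have h02 : om (f 0) (f 2) = 0 := by
    rw [hom]; ring
  have h12 : om (f 1) (f 2) = 0 := by
    rw [hom]; ring
  have h01 : om (f 0) (f 1) = N * d := by
    rw [hom, hd]; ring
  obtain ⟨sn, ψ, hs, e0, e1, e2⟩ := M3_frame0 hforth h02 h12
  refine ⟨om (f 0) (f 1), sn, ψ, ?_, hs, fun a b c => ?_⟩
  · rw [h01, mul_pow, hd2, hN2, mul_one]
  · rw [e0, e1, e2]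
    have h3 : tri a b c (f 0) (f 1) (f 2) = d * tri a b c (e 0) (e 1) (e 2) := by
      simp only [hf, tri, pair2, inner_add_right, real_inner_smul_right, hd]
      ring
    have hda : |d| = 1 := by
      have h4 : (d - 1) * (d + 1) = 0 := by linear_combination hd2
      rcases mul_eq_zero.1 h4 with h | h
      · rw [sub_eq_zero.1 h]; simp
      · rw [eq_neg_of_add_eq_zero_left h]; simp
    rw [h3, abs_mul, hda, one_mul]

theorem mean3 {n : ℕ} (hn : 3 ≤ n) (w : Fin 3 → Cn n) :
    ∃ P Q : ℝ, ∀ e : Fin 3 → Cn n, Orthonormal ℝ e → g3 e w = P + kx e * Q := by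
  obtain ⟨m, rfl⟩ : ∃ m, n = m + 1 + 2 := ⟨n - 3, by omega⟩
  obtain ⟨P, Q, hPQ⟩ := M3_mean w
  refine ⟨P, Q, fun e he => ?_⟩
  obtain ⟨cs, sn, ψ, hk, hs, hψ⟩ := M3_frame he
  rw [← hk, ← hPQ cs sn hs, g3, ← Pool.Agent.H89.CZ.integral_inv (fun φ =>
    |tri (uni φ (e 0)) (uni φ (e 1)) (uni φ (e 2)) (w 0) (w 1) (w 2)|)]
  rw [← integral_mulLeft (fun φ => |tri (uni φ (w 0)) (uni φ (w 1)) (uni φ (w 2))
        (EuclideanSpace.single 0 1)
        (EuclideanSpace.single 0 (cs * Complex.I) + EuclideanSpace.single 1 (sn : ℂ))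
        (EuclideanSpace.single (k2 m) 1)|) ψ⁻¹]
  refine integral_congr_ae (Filter.Eventually.of_forall fun φ => ?_)
  simp only []
  rw [← tri_uni φ, uni_uni_inv, uni_uni_inv, uni_uni_inv, tri_symm, hψ,
    ← tri_uni ψ (uni (ψ⁻¹ * φ) (w 0)), ← uni_mul, ← uni_mul, ← uni_mul, mul_inv_cancel_left]

end Pool.Agent.H35.T3
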