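import Mathlib
import Pool.Agent.H35.T3.Lin3
import Pool.Agent.H89.CZ.TFin

set_option autoImplicit false

/-!
# Vec3: the mean area of the projection of a pair to a 3-dimensional space

(1) `R3 = EuclideanSpace ℝ (Fin 3)`, `B` its closed unit ball: there are `c1 > 0`, `c2 > 0` with
`∫_B |⟨v,u⟩| du = c1 ‖v‖` and `∫_B ⟨v,u⟩²/‖u‖ du = c2 ‖v‖² / 3`, `∫_B ‖u‖ du = c2`, for all `v`
(rotation invariance; as `ball_abs`, `ball_r`).
(2) For `u ≠ 0` in `R3` there are `q1, q2` in the real span of `f` with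
`pair2 a b q1 q2 = u0 pair2 a b f1 f2 + u1 pair2 a b f2 f0 + u2 pair2 a b f0 f1` for all `a b`:
`q1 = ∑ r_k f_k`, `q2 = ∑ s_k f_k` with `r × s = u`.
`area q1 q2 = ‖u‖` (Lagrange), `om q1 q2 = u0 om f1 f2 + u1 om f2 f0 + u2 om f0 f1`.
(3) `tasaki` (`H89/CZ/TFin.lean`) for `q1, q2`: `∫ |⟨u, v(φ)⟩| dφ = al ‖u‖ + be ⟨u,c⟩²/‖u‖`, where
`v(φ) = (pair2 φa0 φa1 f1 f2, pair2 … f2 f0, pair2 … f0 f1)`, `c = (om f1 f2, om f2 f0, om f0 f1)`,
`‖c‖² = kx f`.  Integrate over `u ∈ B` and exchange the integrals (`v` is continuous in `φ`):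
`c1 ∫ ‖v(φ)‖ dφ = c2 (al + be kx f / 3)`.
-/

open MeasureTheory Pool.Agent.H61.UProj Pool.Agent.H89.CZ

noncomputable section

namespace Pool.Agent.H35.T3

/-! ### The unit ball of `ℝ³` -/

private theorem Vec3_iso (T : EuclideanSpace ℝ (Fin 3) ≃ₗᵢ[ℝ] EuclideanSpace ℝ (Fin 3))
    (f : EuclideanSpace ℝ (Fin 3) → ℝ) :
    ∫ q in Metric.closedBall (0 : EuclideanSpace ℝ (Fin 3)) 1, f (T q) =
      ∫ q in Metric.closedBall (0 : EuclideanSpace ℝ (Fin 3)) 1, f q := by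
  have h1 := T.measurePreserving.setIntegral_preimage_emb
    T.toHomeomorph.measurableEmbedding f (Metric.closedBall (0 : EuclideanSpace ℝ (Fin 3)) 1)
  have h2 : (T : EuclideanSpace ℝ (Fin 3) → EuclideanSpace ℝ (Fin 3)) ⁻¹'
      Metric.closedBall (0 : EuclideanSpace ℝ (Fin 3)) 1 =
      Metric.closedBall (0 : EuclideanSpace ℝ (Fin 3)) 1 := by
    ext q
    simp
  rw [h2] at h1
  exact h1

private theorem Vec3_trans {v w : EuclideanSpace ℝ (Fin 3)} (h : ‖v‖ = ‖w‖) :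
    ∃ T : EuclideanSpace ℝ (Fin 3) ≃ₗᵢ[ℝ] EuclideanSpace ℝ (Fin 3), T v = w :=
  ⟨Submodule.reflection (ℝ ∙ (v - w))ᗮ, Submodule.reflection_sub h⟩

private theorem Vec3_intOn {f : EuclideanSpace ℝ (Fin 3) → ℝ} (hf : Measurable f) (C : ℝ)
    (hC : ∀ q ∈ Metric.closedBall (0 : EuclideanSpace ℝ (Fin 3)) 1, |f q| ≤ C) :
    IntegrableOn f (Metric.closedBall (0 : EuclideanSpace ℝ (Fin 3)) 1) := by
  refine Measure.integrableOn_of_bounded (M := C) (measure_closedBall_lt_top).ne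
    hf.aestronglyMeasurable ?_
  refine (ae_restrict_iff' measurableSet_closedBall).2 (Filter.Eventually.of_forall ?_)
  intro q hq
  rw [Real.norm_eq_abs]
  exact hC q hq

private theorem Vec3_pos {f : EuclideanSpace ℝ (Fin 3) → ℝ} (hf : Continuous f)
    (h0 : ∀ q, 0 ≤ f q) (C : ℝ)
    (hC : ∀ q ∈ Metric.closedBall (0 : EuclideanSpace ℝ (Fin 3)) 1, |f q| ≤ C)
    (q0 : EuclideanSpace ℝ (Fin 3)) (hq0 : ‖q0‖ < 1) (hf0 : f q0 ≠ 0) :
    0 < ∫ q in Metric.closedBall (0 : EuclideanSpace ℝ (Fin 3)) 1, f q := by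
  rw [setIntegral_pos_iff_support_of_nonneg_ae (Filter.Eventually.of_forall h0)
    (Vec3_intOn hf.measurable C hC)]
  have hopen : IsOpen (Function.support f ∩ Metric.ball (0 : EuclideanSpace ℝ (Fin 3)) 1) :=
    hf.isOpen_support.inter Metric.isOpen_ball
  refine (hopen.measure_pos volume ⟨q0, hf0, by simpa using hq0⟩).trans_le ?_
  exact measure_mono (Set.inter_subset_inter_right _ Metric.ball_subset_closedBall)

private theorem Vec3_homog (F : EuclideanSpace ℝ (Fin 3) → EuclideanSpace ℝ (Fin 3) → ℝ) (d : ℕ)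
    (hT : ∀ (T : EuclideanSpace ℝ (Fin 3) ≃ₗᵢ[ℝ] EuclideanSpace ℝ (Fin 3)) v u,
      F (T v) (T u) = F v u)
    (hs : ∀ (t : ℝ) v u, 0 ≤ t → F (t • v) u = t ^ d * F v u)
    {e : EuclideanSpace ℝ (Fin 3)} (he : ‖e‖ = 1) (v : EuclideanSpace ℝ (Fin 3)) :
    ∫ u in Metric.closedBall (0 : EuclideanSpace ℝ (Fin 3)) 1, F v u =
      ‖v‖ ^ d * ∫ u in Metric.closedBall (0 : EuclideanSpace ℝ (Fin 3)) 1, F e u := by
  obtain ⟨T, hTe⟩ := Vec3_trans (v := ‖v‖ • e) (w := v)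
    (by rw [norm_smul, he, mul_one, norm_norm])
  rw [← Vec3_iso T (fun u => F v u), ← integral_const_mul]
  refine integral_congr_ae (Filter.Eventually.of_forall fun u => ?_)
  simp only
  conv_lhs => rw [← hTe]
  rw [hT, hs _ _ _ (norm_nonneg v)]

private theorem Vec3_ball : ∃ c1 c2 : ℝ, 0 < c1 ∧ 0 < c2 ∧
    (∀ v : EuclideanSpace ℝ (Fin 3),
      ∫ u in Metric.closedBall (0 : EuclideanSpace ℝ (Fin 3)) 1, |(inner ℝ u v : ℝ)| =
        c1 * ‖v‖) ∧
    (∫ u in Metric.closedBall (0 : EuclideanSpace ℝ (Fin 3)) 1, ‖u‖) = c2 ∧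
    (∀ v : EuclideanSpace ℝ (Fin 3),
      ∫ u in Metric.closedBall (0 : EuclideanSpace ℝ (Fin 3)) 1, (inner ℝ u v : ℝ) ^ 2 / ‖u‖ =
        c2 * (‖v‖ ^ 2 / 3)) := by
  have he : ∀ k : Fin 3, ‖(EuclideanSpace.single k 1 : EuclideanSpace ℝ (Fin 3))‖ = 1 := by
    intro k
    simp
  have hhalf : ‖(EuclideanSpace.single 0 (1 / 2) : EuclideanSpace ℝ (Fin 3))‖ < 1 := by
    rw [PiLp.norm_single]
    norm_num
  refine ⟨∫ u in Metric.closedBall (0 : EuclideanSpace ℝ (Fin 3)) 1,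
      |(inner ℝ u (EuclideanSpace.single 0 1 : EuclideanSpace ℝ (Fin 3)) : ℝ)|,
    ∫ u in Metric.closedBall (0 : EuclideanSpace ℝ (Fin 3)) 1, ‖u‖, ?_, ?_, ?_, rfl, ?_⟩
  · refine Vec3_pos (by fun_prop) (fun q => abs_nonneg _) 1 ?_
      (EuclideanSpace.single 0 (1 / 2)) hhalf ?_
    · intro q hq
      have hq1 : ‖q‖ ≤ 1 := by simpa using hq
      rw [abs_abs]
      refine (abs_real_inner_le_norm _ _).trans ?_
      rw [he, mul_one]
      exact hq1
    · rw [EuclideanSpace.inner_single_right]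
      simp
  · refine Vec3_pos continuous_norm (fun q => norm_nonneg q) 1 ?_
      (EuclideanSpace.single 0 (1 / 2)) hhalf ?_
    · intro q hq
      have hq1 : ‖q‖ ≤ 1 := by simpa using hq
      rw [abs_norm]
      exact hq1
    · rw [PiLp.norm_single]
      norm_num
  · intro v
    have h := Vec3_homog (fun v u => |(inner ℝ u v : ℝ)|) 1
      (fun T v u => by rw [LinearIsometryEquiv.inner_map_map])
      (fun t v u ht => by rw [inner_smul_right, abs_mul, abs_of_nonneg ht, pow_one]) (he 0) v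
    rw [h, pow_one, mul_comm]
  · intro v
    have h : ∀ k : Fin 3, ∫ u in Metric.closedBall (0 : EuclideanSpace ℝ (Fin 3)) 1,
        (inner ℝ u v : ℝ) ^ 2 / ‖u‖ = ‖v‖ ^ 2 *
        ∫ u in Metric.closedBall (0 : EuclideanSpace ℝ (Fin 3)) 1,
          (inner ℝ u (EuclideanSpace.single k 1 : EuclideanSpace ℝ (Fin 3)) : ℝ) ^ 2 / ‖u‖ :=
      fun k => Vec3_homog (fun v u => (inner ℝ u v : ℝ) ^ 2 / ‖u‖) 2
        (fun T v u => by rw [LinearIsometryEquiv.inner_map_map, LinearIsometryEquiv.norm_map])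
        (fun t v u ht => by rw [inner_smul_right]; ring) (he k) v
    have hint : ∀ k ∈ (Finset.univ : Finset (Fin 3)), IntegrableOn
        (fun u : EuclideanSpace ℝ (Fin 3) =>
          (inner ℝ u (EuclideanSpace.single k 1 : EuclideanSpace ℝ (Fin 3)) : ℝ) ^ 2 / ‖u‖)
        (Metric.closedBall (0 : EuclideanSpace ℝ (Fin 3)) 1) := by
      intro k _
      refine Vec3_intOn ?_ 1 ?_
      · exact ((continuous_id.inner continuous_const).pow 2).measurable.div
          continuous_norm.measurable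
      · intro q hq
        have hq1 : ‖q‖ ≤ 1 := by simpa using hq
        have h1 := abs_real_inner_le_norm q
          (EuclideanSpace.single k 1 : EuclideanSpace ℝ (Fin 3))
        rw [he, mul_one] at h1
        rw [abs_of_nonneg (div_nonneg (sq_nonneg _) (norm_nonneg q))]
        refine div_le_one_of_le₀ ?_ (norm_nonneg q)
        rw [← sq_abs]
        nlinarith [abs_nonneg (inner ℝ q
          (EuclideanSpace.single k 1 : EuclideanSpace ℝ (Fin 3)) : ℝ), norm_nonneg q]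
    have hsum : ∑ k : Fin 3, ∫ u in Metric.closedBall (0 : EuclideanSpace ℝ (Fin 3)) 1,
        (inner ℝ u (EuclideanSpace.single k 1 : EuclideanSpace ℝ (Fin 3)) : ℝ) ^ 2 / ‖u‖ =
        ∫ u in Metric.closedBall (0 : EuclideanSpace ℝ (Fin 3)) 1, ‖u‖ := by
      rw [← integral_finsetSum _ hint]
      refine integral_congr_ae (Filter.Eventually.of_forall fun u => ?_)
      simp only
      rw [← Finset.sum_div]
      have h3 : ∑ k : Fin 3,
          (inner ℝ u (EuclideanSpace.single k 1 : EuclideanSpace ℝ (Fin 3)) : ℝ) ^ 2 =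
          ‖u‖ ^ 2 := by
        rw [EuclideanSpace.norm_sq_eq]
        refine Finset.sum_congr rfl fun k _ => ?_
        rw [EuclideanSpace.inner_single_right]
        simp
      rw [h3]
      rcases eq_or_ne ‖u‖ 0 with h0 | h0
      · rw [h0]
        simp
      · field_simp
    rw [← hsum]
    have h4 : 3 * ∫ u in Metric.closedBall (0 : EuclideanSpace ℝ (Fin 3)) 1,
        (inner ℝ u v : ℝ) ^ 2 / ‖u‖ = ‖v‖ ^ 2 * ∑ k : Fin 3,
        ∫ u in Metric.closedBall (0 : EuclideanSpace ℝ (Fin 3)) 1,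
        (inner ℝ u (EuclideanSpace.single k 1 : EuclideanSpace ℝ (Fin 3)) : ℝ) ^ 2 / ‖u‖ := by
      rw [Finset.mul_sum, Fin.sum_univ_three, ← h 0, ← h 1, ← h 2]
      ring
    linarith

/-! ### Cross product -/

private theorem Vec3_cross (u : EuclideanSpace ℝ (Fin 3)) : ∃ r s : Fin 3 → ℝ,
    u 0 = r 1 * s 2 - r 2 * s 1 ∧ u 1 = r 2 * s 0 - r 0 * s 2 ∧
      u 2 = r 0 * s 1 - r 1 * s 0 := by
  by_cases h : u 2 = 0
  · refine ⟨![0, 0, 1], ![u 1, -u 0, 0], ?_, ?_, ?_⟩ <;> simp [h]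
  · refine ⟨![1, 0, -(u 0 / u 2)], ![0, u 2, -u 1], ?_, ?_, ?_⟩
    · simp
      field_simp
    · simp
    · simp

private theorem Vec3_pair2 {n : ℕ} (a b : Cn n) (f : Fin 3 → Cn n) (r s : Fin 3 → ℝ) :
    pair2 a b (r 0 • f 0 + r 1 • f 1 + r 2 • f 2) (s 0 • f 0 + s 1 • f 1 + s 2 • f 2) =
      (r 1 * s 2 - r 2 * s 1) * pair2 a b (f 1) (f 2) +
        (r 2 * s 0 - r 0 * s 2) * pair2 a b (f 2) (f 0) +
        (r 0 * s 1 - r 1 * s 0) * pair2 a b (f 0) (f 1) := by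
  unfold pair2
  simp only [inner_add_right, real_inner_smul_right]
  ring

private theorem Vec3_om {n : ℕ} (f : Fin 3 → Cn n) (r s : Fin 3 → ℝ) :
    om (r 0 • f 0 + r 1 • f 1 + r 2 • f 2) (s 0 • f 0 + s 1 • f 1 + s 2 • f 2) =
      (r 1 * s 2 - r 2 * s 1) * om (f 1) (f 2) +
        (r 2 * s 0 - r 0 * s 2) * om (f 2) (f 0) +
        (r 0 * s 1 - r 1 * s 0) * om (f 0) (f 1) := by
  simp only [om_add_left, om_add_right, om_smul_left, om_smul_right, om_self]
  rw [om_swap (f 0) (f 1), om_swap (f 1) (f 2), om_swap (f 2) (f 0)]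
  ring

private theorem Vec3_area {n : ℕ} {f : Fin 3 → Cn n} (hf : Orthonormal ℝ f) (r s : Fin 3 → ℝ) :
    area (r 0 • f 0 + r 1 • f 1 + r 2 • f 2) (s 0 • f 0 + s 1 • f 1 + s 2 • f 2) =
      √((r 1 * s 2 - r 2 * s 1) ^ 2 + (r 2 * s 0 - r 0 * s 2) ^ 2 +
        (r 0 * s 1 - r 1 * s 0) ^ 2) := by
  have h : ∀ i j : Fin 3, (inner ℝ (f i) (f j) : ℝ) = if i = j then 1 else 0 :=
    orthonormal_iff_ite.1 hf
  have hin : ∀ r s : Fin 3 → ℝ, (inner ℝ (r 0 • f 0 + r 1 • f 1 + r 2 • f 2)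
      (s 0 • f 0 + s 1 • f 1 + s 2 • f 2) : ℝ) = r 0 * s 0 + r 1 * s 1 + r 2 * s 2 := by
    intro r s
    simp only [inner_add_left, inner_add_right, real_inner_smul_left, real_inner_smul_right, h]
    simp
    ring
  unfold area
  congr 1
  rw [← real_inner_self_eq_norm_sq, ← real_inner_self_eq_norm_sq, hin, hin, hin]
  ring

/-! ### The exchange -/

private theorem Vec3_int {n : ℕ} {f : EuclideanSpace ℝ (Fin 3) → Un n → ℝ}
    (hf : Continuous (Function.uncurry f)) :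
    Integrable (Function.uncurry f)
      ((volume.restrict (Metric.closedBall (0 : EuclideanSpace ℝ (Fin 3)) 1)).prod
        (haarU n)) := by
  have h1 : (volume.restrict (Metric.closedBall (0 : EuclideanSpace ℝ (Fin 3)) 1)).prod
      (haarU n) = ((volume : Measure (EuclideanSpace ℝ (Fin 3))).prod (haarU n)).restrict
        (Metric.closedBall (0 : EuclideanSpace ℝ (Fin 3)) 1 ×ˢ Set.univ) := by
    rw [← Measure.prod_restrict, Measure.restrict_univ]
  rw [h1]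
  exact hf.continuousOn.integrableOn_compact ((isCompact_closedBall 0 1).prod isCompact_univ)

private theorem Vec3_swap {n : ℕ} {f : EuclideanSpace ℝ (Fin 3) → Un n → ℝ}
    (hf : Continuous (Function.uncurry f)) :
    ∫ q in Metric.closedBall (0 : EuclideanSpace ℝ (Fin 3)) 1, (∫ φ, f q φ ∂(haarU n)) =
      ∫ φ, (∫ q in Metric.closedBall (0 : EuclideanSpace ℝ (Fin 3)) 1, f q φ) ∂(haarU n) :=
  integral_integral_swap (Vec3_int hf)

private theorem Vec3_inner (u : EuclideanSpace ℝ (Fin 3)) (x y z : ℝ) :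
    (inner ℝ u (!₂[x, y, z] : EuclideanSpace ℝ (Fin 3)) : ℝ) = u 0 * x + u 1 * y + u 2 * z := by
  rw [PiLp.inner_apply, Fin.sum_univ_three]
  simp
  ring

private theorem Vec3_norm (x y z : ℝ) :
    ‖(!₂[x, y, z] : EuclideanSpace ℝ (Fin 3))‖ = √(x ^ 2 + y ^ 2 + z ^ 2) := by
  rw [EuclideanSpace.norm_eq, Fin.sum_univ_three]
  simp

theorem vec3 {n : ℕ} (hn : 2 ≤ n) : ∃ c : ℝ, 0 < c ∧ ∀ a : Fin 2 → Cn n, Orthonormal ℝ a →
    ∀ f : Fin 3 → Cn n, Orthonormal ℝ f →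
      ∫ φ, √(pair2 (uni φ (a 0)) (uni φ (a 1)) (f 1) (f 2) ^ 2 +
        pair2 (uni φ (a 0)) (uni φ (a 1)) (f 2) (f 0) ^ 2 +
        pair2 (uni φ (a 0)) (uni φ (a 1)) (f 0) (f 1) ^ 2) ∂(haarU n) =
      c * (al n (om (a 0) (a 1) ^ 2) + be n (om (a 0) (a 1) ^ 2) * kx f / 3) := by
  obtain ⟨c1, c2, hc1, hc2, habs, hnorm, hsq⟩ := Vec3_ball
  refine ⟨c2 / c1, div_pos hc2 hc1, fun a ha f hf => ?_⟩
  set V : Un n → EuclideanSpace ℝ (Fin 3) := fun φ =>
    !₂[pair2 (uni φ (a 0)) (uni φ (a 1)) (f 1) (f 2),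
      pair2 (uni φ (a 0)) (uni φ (a 1)) (f 2) (f 0),
      pair2 (uni φ (a 0)) (uni φ (a 1)) (f 0) (f 1)] with hV
  set C : EuclideanSpace ℝ (Fin 3) := !₂[om (f 1) (f 2), om (f 2) (f 0), om (f 0) (f 1)] with hC
  set A := al n (om (a 0) (a 1) ^ 2) with hA
  set B := be n (om (a 0) (a 1) ^ 2) with hB
  have hCn : ‖C‖ ^ 2 = kx f := by
    rw [hC, Vec3_norm, Real.sq_sqrt (by positivity)]
    unfold kx
    ring
  -- Tasaki's formula
  have hT : ∀ u : EuclideanSpace ℝ (Fin 3), ∫ φ, |(inner ℝ u (V φ) : ℝ)| ∂(haarU n) =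
      A * ‖u‖ + B * ((inner ℝ u C : ℝ) ^ 2 / ‖u‖) := by
    intro u
    obtain ⟨r, s, h0, h1, h2⟩ := Vec3_cross u
    have h3 := tasaki hn ha (r 0 • f 0 + r 1 • f 1 + r 2 • f 2)
      (s 0 • f 0 + s 1 • f 1 + s 2 • f 2)
    simp only [Vec3_pair2, Vec3_om] at h3
    rw [Vec3_area hf, ← h0, ← h1, ← h2] at h3
    have h4 : √(u 0 ^ 2 + u 1 ^ 2 + u 2 ^ 2) = ‖u‖ := by
      rw [EuclideanSpace.norm_eq, Fin.sum_univ_three]
      simp
    rw [h4] at h3
    rw [hC, Vec3_inner, ← mul_div_assoc, ← h3]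
    refine integral_congr_ae (Filter.Eventually.of_forall fun φ => ?_)
    simp only [hV]
    rw [Vec3_inner]
  -- continuity
  have hVc : Continuous V := by
    have h0 : Continuous (fun φ : Un n => uni φ (a 0)) := continuous_uni (a 0)
    have h1 : Continuous (fun φ : Un n => uni φ (a 1)) := continuous_uni (a 1)
    have hp : ∀ p q : Cn n, Continuous (fun φ : Un n => pair2 (uni φ (a 0)) (uni φ (a 1)) p q) := by
      intro p q
      unfold pair2
      exact ((h0.inner continuous_const).mul (h1.inner continuous_const)).sub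
        ((h0.inner continuous_const).mul (h1.inner continuous_const))
    rw [hV]
    refine (PiLp.continuous_toLp 2 _).comp (continuous_pi fun k => ?_)
    fin_cases k
    · exact hp _ _
    · exact hp _ _
    · exact hp _ _
  have hcont : Continuous (Function.uncurry
      (fun (u : EuclideanSpace ℝ (Fin 3)) (φ : Un n) => |(inner ℝ u (V φ) : ℝ)|)) :=
    (continuous_fst.inner (hVc.comp continuous_snd)).abs
  have hsw := Vec3_swap hcont
  simp only [hT, habs] at hsw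
  have hi1 : IntegrableOn (fun u : EuclideanSpace ℝ (Fin 3) => A * ‖u‖)
      (Metric.closedBall (0 : EuclideanSpace ℝ (Fin 3)) 1) :=
    (Continuous.continuousOn (by fun_prop)).integrableOn_compact (isCompact_closedBall 0 1)
  have hi2 : IntegrableOn (fun u : EuclideanSpace ℝ (Fin 3) =>
      B * ((inner ℝ u C : ℝ) ^ 2 / ‖u‖))
      (Metric.closedBall (0 : EuclideanSpace ℝ (Fin 3)) 1) := by
    have h := (Vec3_int hcont).integral_prod_left
    simp only [Function.uncurry_apply_pair, hT] at h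
    refine (h.sub hi1).congr (Filter.Eventually.of_forall fun q => ?_)
    simp
  rw [integral_add hi1 hi2, integral_const_mul, integral_const_mul, integral_const_mul, hnorm,
    hsq, hCn] at hsw
  have hfin : ∫ φ, ‖V φ‖ ∂(haarU n) = c2 / c1 * (A + B * kx f / 3) := by
    have : c1 * ∫ φ, ‖V φ‖ ∂(haarU n) = c2 * (A + B * kx f / 3) := by
      rw [← hsw]
      ring
    field_simp
    linarith
  rw [← hfin]
  refine integral_congr_ae (Filter.Eventually.of_forall fun φ => ?_)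
  simp only [hV]
  rw [Vec3_norm]

end Pool.Agent.H35.T3
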