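import Mathlib
import Pool.Agent.H35.T3.Mean3
import Pool.Agent.H35.T3.Ball3
import Pool.Agent.H35.T3.Vec3

set_option autoImplicit false

/-!
# Ker3: the kernel

Let `f` be orthonormal; `mean3` for `w = f`: `g3 e f = P + kx e Q`.  For an orthonormal pair `a`
with `y = om (a0) (a1) ^ 2`:
`J = ∫_{p ∈ B} g3 ![a0, a1, p] f`.
(1) By `exists_frame` for the triple `![a0, a1, p]` (and `tri_symm`):
`g3 ![a0,a1,p] f = √G P + (‖cv‖²/√G) Q`, hence `J = I (P + (y + (1-y)/(n-1)) Q)` (`ball3`).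
(2) `tri (φa0) (φa1) (φp) f = ⟨φp, v⟩`, `v = pair2 … f0 f1 • f2 + …`,
`‖v‖² = ∑ pair2²`; exchange the integrals, `ball_uni`, `ball_abs`: `J = cb ∫ ‖v(φ)‖ dφ =
cb c (al n y + be n y kx f / 3)` (`vec3`).
`y = 1` (`a = (s0, i s0)`) and `y = 0` (`a = (s0, s1)`) determine `P`, `Q`: with `K = cb c / I`
`P + Q = K (1 + kx f/3)/(2n)` and `P + Q/(n-1) = K ((2n-1)/(4n(n-1)) - kx f/(12 n (n-1)))`, so
`Q = K ((2n-1) kx f - 3)/(12 n (n-2))`, `P = K (2n - 3 - kx f) / (4n(n-2))`: this is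
`κ (6n-9-3 kx f)` and `κ ((2n-1) kx f - 3)` with `κ = K/(12 n (n-2))`.  `κ > 0` (`I, c > 0`,
`cb > 0`).  General `w`: `exists_frame`.
-/

open MeasureTheory Pool.Agent.H61.UProj Pool.Agent.H89.CZ

noncomputable section

namespace Pool.Agent.H35.T3

/-! ### Symmetry and homogeneity of `g3` -/

private theorem Ker3_symm {n : ℕ} (e w : Fin 3 → Cn n) : g3 e w = g3 w e := by
  unfold g3
  rw [← integral_inv
    (fun φ : Un n => |tri (uni φ (w 0)) (uni φ (w 1)) (uni φ (w 2)) (e 0) (e 1) (e 2)|)]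
  refine integral_congr_ae (Filter.Eventually.of_forall fun φ => ?_)
  simp only
  rw [← tri_uni φ⁻¹, uni_inv_uni, uni_inv_uni, uni_inv_uni, tri_symm]

private theorem Ker3_scale {n : ℕ} (e : Fin 3 → Cn n) {w f : Fin 3 → Cn n} {t : ℝ} (ht : 0 ≤ t)
    (h : ∀ a b c, tri a b c (w 0) (w 1) (w 2) = t * tri a b c (f 0) (f 1) (f 2)) :
    g3 e w = t * g3 e f := by
  unfold g3
  rw [← integral_const_mul]
  refine integral_congr_ae (Filter.Eventually.of_forall fun φ => ?_)
  simp only [h, abs_mul, abs_of_nonneg ht]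

private theorem Ker3_zero {n : ℕ} (e : Fin 3 → Cn n) {w : Fin 3 → Cn n}
    (h : ∀ a b c, tri a b c (w 0) (w 1) (w 2) = 0) : g3 e w = 0 := by
  unfold g3
  simp only [h, abs_zero, integral_zero]

private theorem Ker3_frame {n : ℕ} {f : Fin 3 → Cn n} {P Q : ℝ}
    (hPQ : ∀ e : Fin 3 → Cn n, Orthonormal ℝ e → g3 e f = P + kx e * Q) (w : Fin 3 → Cn n) :
    g3 w f = P * √(Gr w) + Q * (‖cv w‖ ^ 2 / √(Gr w)) := by
  rcases exists_frame w with ⟨h0, h1⟩ | ⟨g, t, hg, ht, hG, h1, h2⟩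
  · rw [Ker3_symm, Ker3_zero f h1, h0]
    simp
  · rw [Ker3_symm, Ker3_scale f ht.le h1, Ker3_symm, hPQ g hg, hG, Real.sqrt_sq ht.le, h2]
    field_simp

/-! ### The exchange -/

private theorem Ker3_int {n : ℕ} {f : Cn n → Un n → ℝ}
    (hf : Continuous (Function.uncurry f)) :
    Integrable (Function.uncurry f)
      ((volume.restrict (Metric.closedBall (0 : Cn n) 1)).prod (haarU n)) := by
  have h1 : (volume.restrict (Metric.closedBall (0 : Cn n) 1)).prod
      (haarU n) = ((volume : Measure (Cn n)).prod (haarU n)).restrict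
        (Metric.closedBall (0 : Cn n) 1 ×ˢ Set.univ) := by
    rw [← Measure.prod_restrict, Measure.restrict_univ]
  rw [h1]
  exact hf.continuousOn.integrableOn_compact ((isCompact_closedBall 0 1).prod isCompact_univ)

private theorem Ker3_swap {n : ℕ} {f : Cn n → Un n → ℝ}
    (hf : Continuous (Function.uncurry f)) :
    ∫ q in Metric.closedBall (0 : Cn n) 1, (∫ φ, f q φ ∂(haarU n)) =
      ∫ φ, (∫ q in Metric.closedBall (0 : Cn n) 1, f q φ) ∂(haarU n) :=
  integral_integral_swap (Ker3_int hf)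

private theorem Ker3_vec {n : ℕ} {f : Fin 3 → Cn n} (hf : Orthonormal ℝ f) (x y z : ℝ) :
    ‖x • f 0 + y • f 1 + z • f 2‖ = √(x ^ 2 + y ^ 2 + z ^ 2) := by
  have h := orthonormal_iff_ite.1 hf
  have h1 : ‖x • f 0 + y • f 1 + z • f 2‖ ^ 2 = x ^ 2 + y ^ 2 + z ^ 2 := by
    rw [← real_inner_self_eq_norm_sq]
    simp only [inner_add_left, inner_add_right, real_inner_smul_left, real_inner_smul_right, h]
    simp
    ring
  rw [← h1, Real.sqrt_sq (norm_nonneg _)]

/-! ### The constant of `ball_abs` is positive -/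

private theorem Ker3_intOn {n : ℕ} {f : Cn n → ℝ} (hf : Measurable f) (C : ℝ)
    (hC : ∀ q ∈ Metric.closedBall (0 : Cn n) 1, |f q| ≤ C) :
    IntegrableOn f (Metric.closedBall (0 : Cn n) 1) := by
  refine Measure.integrableOn_of_bounded (M := C) (measure_closedBall_lt_top).ne
    hf.aestronglyMeasurable ?_
  refine (ae_restrict_iff' measurableSet_closedBall).2 (Filter.Eventually.of_forall ?_)
  intro q hq
  rw [Real.norm_eq_abs]
  exact hC q hq

private theorem Ker3_pos {n : ℕ} {f : Cn n → ℝ} (hf : Continuous f) (h0 : ∀ q, 0 ≤ f q) (C : ℝ)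
    (hC : ∀ q ∈ Metric.closedBall (0 : Cn n) 1, |f q| ≤ C) (q0 : Cn n) (hq0 : ‖q0‖ < 1)
    (hf0 : f q0 ≠ 0) : 0 < ∫ q in Metric.closedBall (0 : Cn n) 1, f q := by
  rw [setIntegral_pos_iff_support_of_nonneg_ae (Filter.Eventually.of_forall h0)
    (Ker3_intOn hf.measurable C hC)]
  have hopen : IsOpen (Function.support f ∩ Metric.ball (0 : Cn n) 1) :=
    hf.isOpen_support.inter Metric.isOpen_ball
  refine (hopen.measure_pos volume ⟨q0, hf0, by simpa using hq0⟩).trans_le ?_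
  exact measure_mono (Set.inter_subset_inter_right _ Metric.ball_subset_closedBall)

private theorem Ker3_cb {n : ℕ} (hn : 1 ≤ n) : ∃ c : ℝ, 0 < c ∧ ∀ u : Cn n,
    ∫ q in Metric.closedBall (0 : Cn n) 1, |(inner ℝ u q : ℝ)| = c * ‖u‖ := by
  obtain ⟨c, hc⟩ := ball_abs n
  refine ⟨c, ?_, hc⟩
  set u : Cn n := EuclideanSpace.single (⟨0, by omega⟩ : Fin n) (1 : ℂ) with hu
  have hu1 : ‖u‖ = 1 := by
    rw [hu, PiLp.norm_single]
    norm_num
  have h1 := hc u
  rw [hu1, mul_one] at h1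
  rw [← h1]
  refine Ker3_pos (by fun_prop) (fun q => abs_nonneg _) 1 ?_ ((1 / 2 : ℝ) • u) ?_ ?_
  · intro q hq
    have hq1 : ‖q‖ ≤ 1 := by simpa using hq
    rw [abs_abs]
    refine (abs_real_inner_le_norm _ _).trans ?_
    rw [hu1, one_mul]
    exact hq1
  · rw [norm_smul, hu1]
    norm_num
  · rw [real_inner_smul_right, real_inner_self_eq_norm_sq, hu1]
    norm_num

/-! ### The linear equation -/

private theorem Ker3_lin {n : ℕ} (hn : 3 ≤ n) : ∃ K : ℝ, 0 < K ∧
    ∀ f : Fin 3 → Cn n, Orthonormal ℝ f → ∀ P Q : ℝ,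
      (∀ e : Fin 3 → Cn n, Orthonormal ℝ e → g3 e f = P + kx e * Q) →
      ∀ a : Fin 2 → Cn n, Orthonormal ℝ a →
        P + Q * (om (a 0) (a 1) ^ 2 + (1 - om (a 0) (a 1) ^ 2) / (n - 1)) =
          K * (al n (om (a 0) (a 1) ^ 2) + be n (om (a 0) (a 1) ^ 2) * kx f / 3) := by
  obtain ⟨I, hI, hball⟩ := ball3 (show 2 ≤ n by omega)
  obtain ⟨c, hc, hvec⟩ := vec3 (show 2 ≤ n by omega)
  obtain ⟨cb, hcb, habs⟩ := Ker3_cb (show 1 ≤ n by omega)
  refine ⟨cb * c / I, div_pos (mul_pos hcb hc) hI, fun f hf P Q hPQ a ha => ?_⟩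
  obtain ⟨h1, h2, h3, h4⟩ := hball a ha
  have hJ1 : ∫ p in Metric.closedBall (0 : Cn n) 1, g3 ![a 0, a 1, p] f =
      P * I + Q * (I * (om (a 0) (a 1) ^ 2 + (1 - om (a 0) (a 1) ^ 2) / (n - 1))) := by
    simp only [Ker3_frame hPQ]
    rw [integral_add (h3.const_mul P) (h4.const_mul Q), integral_const_mul, integral_const_mul,
      h1, h2]
  have hcont : Continuous (Function.uncurry (fun (p : Cn n) (φ : Un n) =>
      |tri (uni φ (a 0)) (uni φ (a 1)) (uni φ p) (f 0) (f 1) (f 2)|)) := by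
    have c0 : Continuous (fun q : Cn n × Un n => uni q.2 (a 0)) :=
      (continuous_uni (a 0)).comp continuous_snd
    have c1 : Continuous (fun q : Cn n × Un n => uni q.2 (a 1)) :=
      (continuous_uni (a 1)).comp continuous_snd
    have c2 : Continuous (fun q : Cn n × Un n => uni q.2 q.1) := by
      have h := (continuous_uni2 (n := n)).comp
        (continuous_swap : Continuous (Prod.swap : Cn n × Un n → Un n × Cn n))
      exact h
    have cp : ∀ p q : Cn n, Continuous (fun z : Cn n × Un n =>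
        pair2 (uni z.2 (a 0)) (uni z.2 (a 1)) p q) := by
      intro p q
      unfold pair2
      exact ((c0.inner continuous_const).mul (c1.inner continuous_const)).sub
        ((c0.inner continuous_const).mul (c1.inner continuous_const))
    have ct : Continuous (fun z : Cn n × Un n =>
        tri (uni z.2 (a 0)) (uni z.2 (a 1)) (uni z.2 z.1) (f 0) (f 1) (f 2)) := by
      unfold tri
      exact (((cp _ _).mul (c2.inner continuous_const)).add
        ((cp _ _).mul (c2.inner continuous_const))).add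
        ((cp _ _).mul (c2.inner continuous_const))
    exact ct.abs
  have hJ2 : ∫ p in Metric.closedBall (0 : Cn n) 1, g3 ![a 0, a 1, p] f =
      cb * (c * (al n (om (a 0) (a 1) ^ 2) + be n (om (a 0) (a 1) ^ 2) * kx f / 3)) := by
    have e1 : ∫ p in Metric.closedBall (0 : Cn n) 1, g3 ![a 0, a 1, p] f =
        ∫ p in Metric.closedBall (0 : Cn n) 1, (∫ φ,
          |tri (uni φ (a 0)) (uni φ (a 1)) (uni φ p) (f 0) (f 1) (f 2)| ∂(haarU n)) := by
      refine integral_congr_ae (Filter.Eventually.of_forall fun p => ?_)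
      simp only [g3]
      rfl
    rw [e1, Ker3_swap hcont, ← hvec a ha f hf, ← integral_const_mul]
    refine integral_congr_ae (Filter.Eventually.of_forall fun φ => ?_)
    simp only
    have e2 : ∀ z : Cn n, tri (uni φ (a 0)) (uni φ (a 1)) z (f 0) (f 1) (f 2) =
        inner ℝ (pair2 (uni φ (a 0)) (uni φ (a 1)) (f 1) (f 2) • f 0 +
          pair2 (uni φ (a 0)) (uni φ (a 1)) (f 2) (f 0) • f 1 +
          pair2 (uni φ (a 0)) (uni φ (a 1)) (f 0) (f 1) • f 2) z := by
      intro z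
      simp only [tri, inner_add_left, real_inner_smul_left]
      rw [real_inner_comm z (f 0), real_inner_comm z (f 1), real_inner_comm z (f 2)]
      ring
    rw [← Ker3_vec hf, ← habs]
    simp only [e2]
    exact ball_uni φ (fun z => |(inner ℝ (pair2 (uni φ (a 0)) (uni φ (a 1)) (f 1) (f 2) • f 0 +
          pair2 (uni φ (a 0)) (uni φ (a 1)) (f 2) (f 0) • f 1 +
          pair2 (uni φ (a 0)) (uni φ (a 1)) (f 0) (f 1) • f 2) z : ℝ)|)
  rw [hJ1] at hJ2
  rw [div_mul_eq_mul_div, eq_div_iff hI.ne']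
  linear_combination hJ2

/-! ### Two orthonormal pairs -/

private theorem Ker3_pair1 (m : ℕ) : ∃ a : Fin 2 → Cn (m + 2), Orthonormal ℝ a ∧
    om (a 0) (a 1) ^ 2 = 1 := by
  refine ⟨_, TFin_orth m, ?_⟩
  simp [om, EuclideanSpace.inner_single_left]

private theorem Ker3_pair0 (m : ℕ) : ∃ a : Fin 2 → Cn (m + 2), Orthonormal ℝ a ∧
    om (a 0) (a 1) ^ 2 = 0 := by
  refine ⟨![(EuclideanSpace.single 0 1 : Cn (m + 2)), EuclideanSpace.single 1 1], ?_, ?_⟩
  · have h01 : inner ℝ (EuclideanSpace.single 0 1 : Cn (m + 2))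
        (EuclideanSpace.single 1 1) = 0 := by
      rw [real_inner_eq]
      simp
    have h10 : inner ℝ (EuclideanSpace.single 1 1 : Cn (m + 2))
        (EuclideanSpace.single 0 1) = 0 := by
      rw [real_inner_comm]
      exact h01
    rw [orthonormal_iff_ite]
    intro i j
    fin_cases i <;> fin_cases j
    · simp
    · simpa using h01
    · simpa using h10
    · simp
  · simp [om, EuclideanSpace.inner_single_left]

private theorem Ker3_solve {N P Q K x : ℝ} (hN : 3 ≤ N)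
    (h1 : P + Q * (1 + (1 - 1) / (N - 1)) =
      K * ((2 * N - 1 - 1) / (4 * N * (N - 1)) +
        ((2 * N - 1) * 1 - 1) / (4 * N * (N - 1)) * x / 3))
    (h0 : P + Q * (0 + (1 - 0) / (N - 1)) =
      K * ((2 * N - 1 - 0) / (4 * N * (N - 1)) +
        ((2 * N - 1) * 0 - 1) / (4 * N * (N - 1)) * x / 3)) :
    P = K / (12 * N * (N - 2)) * (6 * N - 9 - 3 * x) ∧
      Q = K / (12 * N * (N - 2)) * ((2 * N - 1) * x - 3) := by
  have a2 : N ≠ 0 := by
    have : (0 : ℝ) < N := by linarith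
    exact this.ne'
  have a3 : N - 1 ≠ 0 := by
    have : (0 : ℝ) < N - 1 := by linarith
    exact this.ne'
  have a4 : N - 2 ≠ 0 := by
    have : (0 : ℝ) < N - 2 := by linarith
    exact this.ne'
  have k1 : 12 * N * (N - 1) * (P + Q) = K * (N - 1) * (6 + 2 * x) := by
    have := congrArg (fun t => 12 * N * (N - 1) * t) h1
    field_simp at this
    linear_combination this
  have k0 : 12 * N * (N - 1) * P + 12 * N * Q = K * (6 * N - 3 - x) := by
    have := congrArg (fun t => 12 * N * (N - 1) * t) h0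
    field_simp at this
    linear_combination this
  have hQ : 12 * N * (N - 2) * Q = K * ((2 * N - 1) * x - 3) := by
    linear_combination k1 - k0
  have hP : 12 * N * (N - 2) * P = K * (6 * N - 9 - 3 * x) := by
    have h5 : (N - 1) * (12 * N * (N - 2) * P) = (N - 1) * (K * (6 * N - 9 - 3 * x)) := by
      linear_combination (N - 2) * k1 - (N - 1) * hQ
    exact mul_left_cancel₀ a3 h5
  constructor
  · rw [div_mul_eq_mul_div, eq_div_iff (by positivity)]
    linear_combination hP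
  · rw [div_mul_eq_mul_div, eq_div_iff (by positivity)]
    linear_combination hQ

theorem ker3 {n : ℕ} (hn : 3 ≤ n) : ∃ κ : ℝ, 0 < κ ∧ ∀ e : Fin 3 → Cn n, Orthonormal ℝ e →
    ∀ w : Fin 3 → Cn n, g3 e w = κ * ((6 * n - 9 - 3 * kx e) * √(Gr w) +
      ((2 * n - 1) * kx e - 3) * (‖cv w‖ ^ 2 / √(Gr w))) := by
  obtain ⟨K, hK, hlin⟩ := Ker3_lin hn
  have hN : (3 : ℝ) ≤ (n : ℝ) := by exact_mod_cast hn
  have hn0 : (0 : ℝ) < n := by linarith
  have hn2 : (0 : ℝ) < (n : ℝ) - 2 := by linarith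
  refine ⟨K / (12 * n * (n - 2)), by positivity, fun e he w => ?_⟩
  obtain ⟨P, Q, hPQ⟩ := mean3 hn e
  have hlin' := hlin e he P Q hPQ
  obtain ⟨m, rfl⟩ : ∃ m, n = m + 2 := ⟨n - 2, by omega⟩
  obtain ⟨a, ha, ha1⟩ := Ker3_pair1 m
  obtain ⟨b, hb, hb0⟩ := Ker3_pair0 m
  have h1 := hlin' a ha
  have h0 := hlin' b hb
  rw [ha1] at h1
  rw [hb0] at h0
  unfold al be at h1 h0
  obtain ⟨hP, hQ⟩ := Ker3_solve hN h1 h0
  rw [Ker3_symm, Ker3_frame hPQ, hP, hQ]
  ring

end Pool.Agent.H35.T3
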