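import Mathlib
import Pool.Agent.H35.T3.Ker3
import Pool.Agent.H35.T3.Hyp3
import Pool.Agent.H35.NI.BMI

set_option autoImplicit false

/-!
# BM3: the inequality for zonoids, from `bm_zonoidI` (`H35/NI/BMI.lean`) with `m = 1`
-/

open MeasureTheory Pool.Agent.H61.UProj Pool.Agent.H89.CZ
open scoped ENNReal Pointwise

noncomputable section

namespace Pool.Agent.H35.T3

variable {n : ℕ}

private theorem BM3_DD (x y : Fin 3 → Cn n) :
    NI.DD x y = tri (x 0) (x 1) (x 2) (y 0) (y 1) (y 2) := by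
  unfold NI.DD tri pair2
  rw [Matrix.det_fin_three]
  simp only [Matrix.of_apply]
  ring

private theorem BM3_gg (e w : Fin 3 → Cn n) : NI.gg e w = g3 e w := by
  unfold NI.gg g3
  simp only [BM3_DD]

private theorem BM3_GG (w : Fin 3 → Cn n) : NI.GG w = Gr w := by
  unfold NI.GG Gr
  rw [BM3_DD]

private theorem BM3_kx_le {f : Fin 3 → Cn n} (hf : Orthonormal ℝ f) : kx f ≤ 1 := by
  have h := orthonormal_iff_ite.1 hf
  set a := om (f 0) (f 1) with ha
  set b := om (f 1) (f 2) with hb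
  set c := om (f 2) (f 0) with hc
  have hkx : kx f = a ^ 2 + b ^ 2 + c ^ 2 := rfl
  have e10 : om (f 1) (f 0) = -a := om_swap _ _
  have e21 : om (f 2) (f 1) = -b := om_swap _ _
  have e02 : om (f 0) (f 2) = -c := om_swap _ _
  by_cases hbc : b ^ 2 + c ^ 2 = 0
  · have h1 : |a| ≤ 1 := by
      have h2 := abs_om_le (f 0) (f 1)
      rw [hf.1 0, hf.1 1, mul_one] at h2
      exact h2
    have h3 : a ^ 2 ≤ 1 := by
      rw [← sq_abs]
      exact pow_le_one₀ (abs_nonneg _) h1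
    rw [hkx]
    linarith
  · have hbc0 : 0 < b ^ 2 + c ^ 2 := lt_of_le_of_ne (by positivity) (Ne.symm hbc)
    set X : Cn n := (-c) • f 0 + b • f 1 with hX
    set Y : Cn n := (-(a * b)) • f 0 + (-(a * c)) • f 1 + (b ^ 2 + c ^ 2) • f 2 with hY
    have hXX : ‖X‖ ^ 2 = b ^ 2 + c ^ 2 := by
      rw [← real_inner_self_eq_norm_sq, hX]
      simp only [inner_add_left, inner_add_right, real_inner_smul_left, real_inner_smul_right, h]
      simp
      ring
    have hYY : ‖Y‖ ^ 2 = (b ^ 2 + c ^ 2) * (a ^ 2 + b ^ 2 + c ^ 2) := by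
      rw [← real_inner_self_eq_norm_sq, hY]
      simp only [inner_add_left, inner_add_right, real_inner_smul_left, real_inner_smul_right, h]
      simp
      ring
    have hXY : om X Y = (b ^ 2 + c ^ 2) * (a ^ 2 + b ^ 2 + c ^ 2) := by
      rw [hX, hY]
      simp only [om_add_left, om_add_right, om_smul_left, om_smul_right, om_self, ← ha, ← hb,
        e10, e02]
      ring
    have h1 := abs_om_le X Y
    have h2 : om X Y ^ 2 ≤ ‖X‖ ^ 2 * ‖Y‖ ^ 2 := by
      rw [← sq_abs, ← mul_pow]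
      exact pow_le_pow_left₀ (abs_nonneg _) h1 2
    rw [hXX, hYY, hXY] at h2
    rw [hkx]
    have hs : 0 < a ^ 2 + b ^ 2 + c ^ 2 := by nlinarith [sq_nonneg a]
    have h3 : 0 < (b ^ 2 + c ^ 2) ^ 2 * (a ^ 2 + b ^ 2 + c ^ 2) := by positivity
    by_contra hcon
    push Not at hcon
    nlinarith [mul_pos h3 (sub_pos.2 hcon)]

theorem bm_zonoid3 (hn : 3 ≤ n) (J : Rn 3 →ₗᵢ[ℝ] Cn n)
    (hx : 3 ≤ (2 * n - 1) * kx (fun k => J (EuclideanSpace.single k 1)))
    {K L : Set (Cn n)} (hK : SD.IsZonoid K) (hL : SD.IsZonoid L) :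
    (VE (LinearMap.range J.toLinearMap) K) ^ (1 / (3 : ℝ)) +
        (VE (LinearMap.range J.toLinearMap) L) ^ (1 / (3 : ℝ)) ≤
      (VE (LinearMap.range J.toLinearMap) (K + L)) ^ (1 / (3 : ℝ)) := by
  set e : Fin 3 → Cn n := fun k => J (EuclideanSpace.single k 1) with he
  have hon : Orthonormal ℝ e := by
    rw [orthonormal_iff_ite]
    intro a b
    simp only [he, LinearIsometry.inner_map_map, EuclideanSpace.inner_single_left]
    simp [eq_comm]
  obtain ⟨κ, hκ, hker⟩ := ker3 hn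
  have hN : (3 : ℝ) ≤ (n : ℝ) := by exact_mod_cast hn
  have hx1 := BM3_kx_le hon
  set x := kx e with hxd
  have hA : 0 < 6 * (n : ℝ) - 9 - 3 * x := by linarith
  have hB : 0 ≤ (2 * (n : ℝ) - 1) * x - 3 := by linarith
  set b := ((2 * (n : ℝ) - 1) * x - 3) / (6 * n - 9 - 3 * x) with hb
  have hb0 : 0 ≤ b := div_nonneg hB hA.le
  have hb1 : b ≤ 1 / 3 := by
    rw [hb, div_le_div_iff₀ hA (by norm_num)]
    nlinarith
  have hgg : ∀ w : Fin 3 → Cn n, NI.gg e w = κ * (6 * n - 9 - 3 * x) *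
      (√(Gr w) + b * (‖cv w‖ ^ 2 / √(Gr w))) := by
    intro w
    rw [BM3_gg, hker e hon w, ← hxd, hb]
    field_simp
  have hK3 : ∀ w : Fin 3 → Cn n, √(Gr w) + b * (‖cv w‖ ^ 2 / √(Gr w)) =
      K3 b (w 2) (w 0) (w 1) := by
    intro w
    have h1 : Gr ![w 2, w 0, w 1] = Gr w := by
      change tri (w 2) (w 0) (w 1) (w 2) (w 0) (w 1) = tri (w 0) (w 1) (w 2) (w 0) (w 1) (w 2)
      simp only [tri, pair2]
      ring
    have h2 : cv ![w 2, w 0, w 1] = cv w := by
      change om (w 0) (w 1) • w 2 + om (w 1) (w 2) • w 0 + om (w 2) (w 0) • w 1 =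
        om (w 1) (w 2) • w 0 + om (w 2) (w 0) • w 1 + om (w 0) (w 1) • w 2
      module
    unfold K3
    rw [h1, h2]
  have hc : 0 < κ * (6 * n - 9 - 3 * x) := mul_pos hκ hA
  have h := NI.bm_zonoidI (m := 1) J (by
      refine ⟨κ * (6 * n - 9 - 3 * x), hc, fun w => ?_⟩
      have h1 := hgg w
      rw [he] at h1
      rw [h1, BM3_GG]
      refine mul_le_mul_of_nonneg_left ?_ hc.le
      have h2 : 0 ≤ b * (‖cv w‖ ^ 2 / √(Gr w)) := by positivity
      linarith) (by
      intro W N p u t ht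
      have h1 : ∀ j k, NI.gg (fun k => J (EuclideanSpace.single k 1))
          (Fin.cons (p j) (Fin.cons (p k) W : Fin 2 → Cn n) : Fin 3 → Cn n) =
          κ * (6 * n - 9 - 3 * x) * K3 b (W 0) (p j) (p k) := by
        intro j k
        have h2 := hgg (Fin.cons (p j) (Fin.cons (p k) W : Fin 2 → Cn n) : Fin 3 → Cn n)
        rw [hK3] at h2
        exact h2
      have h3 := hyp3 (W 0) p hb0 hb1 u t ht
      have h4 : ∀ f g : Fin N → ℝ, ∑ j, ∑ k, f j * g k *
          NI.gg (fun k => J (EuclideanSpace.single k 1))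
          (Fin.cons (p j) (Fin.cons (p k) W : Fin 2 → Cn n) : Fin 3 → Cn n) =
          κ * (6 * n - 9 - 3 * x) * ∑ j, ∑ k, f j * g k * K3 b (W 0) (p j) (p k) := by
        intro f g
        rw [Finset.mul_sum]
        refine Finset.sum_congr rfl fun j _ => ?_
        rw [Finset.mul_sum]
        refine Finset.sum_congr rfl fun k _ => ?_
        rw [h1]
        ring
      rw [h4, h4, h4]
      have h5 := mul_le_mul_of_nonneg_left h3 (sq_nonneg (κ * (6 * n - 9 - 3 * x)))
      calc _ = (κ * (6 * n - 9 - 3 * x)) ^ 2 *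
            ((∑ i, ∑ j, u i * u j * K3 b (W 0) (p i) (p j)) *
              (∑ i, ∑ j, t i * t j * K3 b (W 0) (p i) (p j))) := by ring
        _ ≤ _ := h5
        _ = _ := by ring) hK hL
  have h6 : (1 : ℝ) / (((1 : ℕ) : ℝ) + 2) = 1 / 3 := by norm_num
  rw [h6] at h
  exact h

end Pool.Agent.H35.T3
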