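import Mathlib
import Pool.Agent.H35.T3.BM3
import Pool.Agent.H89.CZ.ZL
import Pool.Agent.H61.UProj.StmtEquiv

set_option autoImplicit false

/-!
# Main3: assembly (see `H89/CZ/Main.lean`)
-/

open MeasureTheory Pool.Agent.H61.UProj Pool.Agent.H89.CZ
open scoped ENNReal Pointwise

noncomputable section

namespace Pool.Agent.H35.T3

theorem main3 (n : ℕ) (hn : 3 ≤ n) (E : Submodule ℝ (Cn n)) (e : Fin 3 → Cn n)
    (he : SD.IsONB e E)
    (hx : 3 ≤ (2 * n - 1) * (∑ j, ∑ k, (inner ℂ (e j) (e k)).im ^ 2) / 2) :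
    SD.HasBMZonoid E := by
  obtain ⟨hon, hsp⟩ := he
  obtain ⟨J, hJe, hJ⟩ := exists_iso hon
  rw [hsp] at hJ
  have hfr : Module.finrank ℝ E = 3 := by
    rw [← hsp, finrank_span_eq_card hon.linearIndependent, Fintype.card_fin]
  have hkx : kx (fun k => J (EuclideanSpace.single k 1)) =
      (∑ j, ∑ k, (inner ℂ (e j) (e k)).im ^ 2) / 2 := by
    have h1 : (fun k => J (EuclideanSpace.single k 1)) = e := by
      funext k
      rw [hJe, Finset.sum_eq_single k]
      · simp
      · intro j _ hj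
        simp [hj]
      · intro hk
        exact absurd (Finset.mem_univ k) hk
    rw [h1]
    have h2 : ∀ j k, (inner ℂ (e j) (e k)).im = om (e j) (e k) := fun j k => rfl
    simp only [h2, Fin.sum_univ_three, om_self]
    unfold kx
    rw [om_swap (e 0) (e 1), om_swap (e 1) (e 2), om_swap (e 2) (e 0)]
    ring
  intro K L hK hL hKz hLz
  have hx' : 3 ≤ (2 * n - 1) * kx (fun k => J (EuclideanSpace.single k 1)) := by
    rw [hkx]
    linarith
  have h4 := bm_zonoid3 hn J hx' hKz hLz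
  have hp : (1 / (Module.finrank ℝ E : ℝ)) = 1 / (3 : ℝ) := by
    rw [hfr]
    norm_num
  rw [hp, Stmt.VE_eq, Stmt.VE_eq, Stmt.VE_eq]
  rw [hJ] at h4
  exact h4

end Pool.Agent.H35.T3
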