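import Mathlib
import Pool.Agent.H35.T3.Lin3
import Pool.Agent.H89.CZ.GAdj

set_option autoImplicit false

/-!
# VE3: `V_E` of a zonotope for `dim E = 3`

As `VE_zon` in `H89/CZ/GAdj.lean`: `VE_range`, `image_zon`, `volume_zon`, and
`|det (adj (φ ∘ J) (w k))| = |tri (φ J s0) (φ J s1) (φ J s2) (w 0) (w 1) (w 2)|` (`inner_adj`,
`Matrix.det_fin_three`).
-/

open MeasureTheory Pool.Agent.H61.UProj Pool.Agent.H89.CZ
open scoped ENNReal

noncomputable section

namespace Pool.Agent.H35.T3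

variable {n : ℕ}

private theorem VE3_coord (J : Rn 3 →ₗᵢ[ℝ] Cn n) (z : Cn n) (l : Fin 3) :
    (adj J z) l = inner ℝ (J (EuclideanSpace.single l (1 : ℝ))) z := by
  rw [inner_adj, EuclideanSpace.inner_single_left]
  simp

private theorem VE3_absdet (J : Rn 3 →ₗᵢ[ℝ] Cn n) (w : Fin 3 → Cn n) :
    absdet 3 (fun k => adj J (w k)) =
      |tri (J (EuclideanSpace.single 0 (1 : ℝ))) (J (EuclideanSpace.single 1 (1 : ℝ)))
        (J (EuclideanSpace.single 2 (1 : ℝ))) (w 0) (w 1) (w 2)| := by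
  unfold absdet
  rw [Matrix.det_fin_three]
  simp only [Matrix.of_apply, VE3_coord]
  unfold tri pair2
  congr 1
  ring

private theorem VE3_cont (a b c p q r : Cn n) :
    Continuous (fun φ : Un n => |tri (uni φ a) (uni φ b) (uni φ c) p q r|) := by
  have hi : ∀ x y : Cn n, Continuous (fun φ : Un n => inner ℝ (uni φ x) y) := fun x y =>
    Continuous.inner (continuous_uni x) continuous_const
  unfold tri pair2
  exact (((((hi a p).mul (hi b q)).sub ((hi a q).mul (hi b p))).mul (hi c r)).add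
    ((((hi a q).mul (hi b r)).sub ((hi a r).mul (hi b q))).mul (hi c p))).add
    ((((hi a r).mul (hi b p)).sub ((hi a p).mul (hi b r))).mul (hi c q)) |>.abs

theorem VE_zon3 (J : Rn 3 →ₗᵢ[ℝ] Cn n) {N : ℕ} (v : Fin N → Cn n) :
    VE (LinearMap.range J.toLinearMap) (zon v) =
      ENNReal.ofReal (PZ 3 (g3 fun k => J (EuclideanSpace.single k 1)) v) := by
  rw [VE_range]
  obtain ⟨F, hF⟩ : ∃ F : (Fin 3 → Fin N) → Un n → ℝ, F = fun f φ =>
      |tri (uni φ (J (EuclideanSpace.single 0 (1 : ℝ)))) (uni φ (J (EuclideanSpace.single 1 (1 : ℝ))))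
        (uni φ (J (EuclideanSpace.single 2 (1 : ℝ)))) (v (f 0)) (v (f 1)) (v (f 2))| := ⟨_, rfl⟩
  have h1 : ∀ φ : Un n, volume (adj ((uni φ).comp J) '' zon v) =
      ENNReal.ofReal ((∑ f : Fin 3 → Fin N, F f φ) / (Nat.factorial 3 : ℝ)) := by
    intro φ
    have h2 : adj ((uni φ).comp J) '' zon v = zon (fun j => adj ((uni φ).comp J) (v j)) :=
      image_zon ((adj ((uni φ).comp J)) : Cn n →ₗ[ℝ] Rn 3) v
    rw [h2, volume_zon]
    unfold PZ
    refine congrArg ENNReal.ofReal (congrArg (fun x => x / (Nat.factorial 3 : ℝ)) ?_)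
    refine Finset.sum_congr rfl fun f _ => ?_
    rw [hF]
    exact VE3_absdet ((uni φ).comp J) (v ∘ f)
  rw [lintegral_congr h1]
  have hi : ∀ f : Fin 3 → Fin N, Integrable (F f) (haarU n) := by
    intro f
    rw [hF]
    exact integrable_of_continuous (VE3_cont _ _ _ _ _ _)
  rw [← ofReal_integral_eq_lintegral_ofReal]
  · rw [integral_div, integral_finsetSum _ (fun f _ => hi f), hF]
    rfl
  · exact (integrable_finsetSum _ (fun f _ => hi f)).div_const _
  · refine Filter.Eventually.of_forall fun φ => div_nonneg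
      (Finset.sum_nonneg fun f _ => ?_) (Nat.cast_nonneg _)
    rw [hF]
    exact abs_nonneg _

end Pool.Agent.H35.T3
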